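import Pool.Agent.PLN.AdjS38

/-!
# PLN/Adj (STUB): products of two transvection groups
-/

set_option autoImplicit false

namespace PLN

open Matrix

universe u

variable {n : ℕ} {F : Type u} [Field F]

/-- PROOF. `(1 + v φ)(1 + v' φ') = 1 + v φ + v' φ' + φ(v') v φ'`. If `v`, `v'` are not parallel and `φ`, `φ'` are not parallel, this is `1 +` a matrix of rank 2
(`v (φ + φ(v') φ') + v' φ'`), with a fixed vector `≠ 0` (`ker φ ⊓ ker φ'`, `n ≥ 3`); if it is `z (1 + w ψ)`, the eigenvalue `z` is `1`, contradiction. -/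
theorem adj_iff (hn : 3 ≤ n) {v φ v' φ' : Fin n → F} (h : Flag v φ) (h' : Flag v' φ') :
    (∀ c d : F, ∃ w ψ : Fin n → F, ψ ⬝ᵥ w = 0 ∧ t (c • v) φ * t (d • v') φ' = t w ψ) ↔
      (Par v v' ∨ Par φ φ') := S38.adj_iff hn h h'

end PLN
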