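import Pool.Agent.PLN.Tr

/-!
# PLN/AdjS38: products of two transvection groups (helper38)
-/

set_option autoImplicit false

namespace PLN.S38

open Matrix PLN

universe u

variable {n : ℕ} {F : Type u} [Field F]

theorem ex_ker (hn : 3 ≤ n) (φ φ' : Fin n → F) : ∃ u : Fin n → F, u ≠ 0 ∧ φ ⬝ᵥ u = 0 ∧ φ' ⬝ᵥ u = 0 := by
  have h := LinearMap.ker_ne_bot_of_finrank_lt
    (f := Matrix.mulVecLin (Matrix.of ![φ, φ'] : Matrix (Fin 2) (Fin n) F)) (by simp; omega)
  obtain ⟨u, hu, hu0⟩ := (Submodule.ne_bot_iff _).1 h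
  refine ⟨u, hu0, ?_, ?_⟩
  · have := congrFun (LinearMap.mem_ker.1 hu) 0
    simpa [Matrix.mulVec] using this
  · have := congrFun (LinearMap.mem_ker.1 hu) 1
    simpa [Matrix.mulVec] using this

theorem ex_sep {φ φ' : Fin n → F} (h0 : φ ≠ 0) (h0' : φ' ≠ 0) (h : ¬ Par φ φ') :
    ∃ x : Fin n → F, φ' ⬝ᵥ x = 0 ∧ φ ⬝ᵥ x ≠ 0 := by
  by_contra hcon
  push Not at hcon
  obtain ⟨i, hi⟩ := Function.ne_iff.1 h0'
  simp only [Pi.zero_apply] at hi
  have key : ∀ j, φ' i * φ j = φ' j * φ i := by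
    intro j
    have h1 := hcon (φ' i • Pi.single j 1 - φ' j • Pi.single i 1) (by
      simp [dotProduct_sub]; ring)
    simp only [dotProduct_sub, dotProduct_smul, dotProduct_single, mul_one, smul_eq_mul] at h1
    linear_combination h1
  have hφi : φ i ≠ 0 := by
    intro hz
    apply h0
    funext j
    have := key j
    rw [hz, mul_zero] at this
    simpa [hi] using this
  refine h ⟨φ' i / φ i, div_ne_zero hi hφi, ?_⟩
  funext j
  rw [Pi.smul_apply, smul_eq_mul]
  have := key j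
  field_simp
  linear_combination -this

theorem adj_iff (hn : 3 ≤ n) {v φ v' φ' : Fin n → F} (h : Flag v φ) (h' : Flag v' φ') :
    (∀ c d : F, ∃ w ψ : Fin n → F, ψ ⬝ᵥ w = 0 ∧ t (c • v) φ * t (d • v') φ' = t w ψ) ↔
      (Par v v' ∨ Par φ φ') := by
  obtain ⟨hv, hφ, hvφ⟩ := h
  obtain ⟨hv', hφ', hvφ'⟩ := h'
  constructor
  · intro H
    by_contra hcon
    obtain ⟨hP, hQ⟩ := not_or.1 hcon
    obtain ⟨w, ψ, hw, e⟩ := H 1 1
    rw [one_smul, one_smul] at e
    have e' : ∃ z ∈ Subgroup.center (GS n F), tM v φ * tM v' φ' * z = tM w ψ := by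
      have e1 : (QuotientGroup.mk (tM v φ * tM v' φ') : PS n F) = QuotientGroup.mk (tM w ψ) := e
      exact ⟨_, QuotientGroup.eq.1 e1, by group⟩
    obtain ⟨z, hz, e2⟩ := e'
    obtain ⟨r, -, hr⟩ := Matrix.SpecialLinearGroup.mem_center_iff.1 hz
    have e3 : (1 + vecMulVec v φ) * (1 + vecMulVec v' φ') * z.1 = 1 + vecMulVec w ψ := by
      have := congrArg Subtype.val e2
      simpa only [Matrix.SpecialLinearGroup.coe_mul, tM_coe hvφ, tM_coe hvφ', tM_coe hw] using this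
    rw [← hr] at e3
    have act : ∀ u : Fin n → F, r • (u + (φ' ⬝ᵥ u) • v' + (φ ⬝ᵥ (u + (φ' ⬝ᵥ u) • v')) • v) =
        u + (ψ ⬝ᵥ u) • w := by
      intro u
      have h1 : ∀ a b y : Fin n → F, (1 + vecMulVec a b) *ᵥ y = y + (b ⬝ᵥ y) • a := by
        intro a b y
        rw [Matrix.add_mulVec, Matrix.one_mulVec, Matrix.vecMulVec_mulVec]
        simp
      have h2 : ∀ y : Fin n → F, (Matrix.scalar (Fin n) r) *ᵥ y = r • y := by
        intro y
        funext i
        simp [Matrix.scalar_apply, Matrix.mulVec_diagonal]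
      have := congrArg (fun M : Matrix (Fin n) (Fin n) F => M *ᵥ u) e3
      simp only [← Matrix.mulVec_mulVec] at this
      rw [h2, h1, h1, h1] at this
      rw [← this]
      simp only [dotProduct_smul, dotProduct_add, smul_add, smul_smul, smul_eq_mul, add_smul,
        mul_assoc]
    obtain ⟨u, hu0, hu1, hu2⟩ := ex_ker hn φ φ'
    have hr1 : r = 1 := by
      by_contra hr1
      have h1 := act u
      rw [hu2, zero_smul, add_zero, hu1, zero_smul, add_zero] at h1
      have h2 : (ψ ⬝ᵥ u) • w = (r - 1) • u := by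
        rw [sub_smul, one_smul, h1]; abel
      have h3 := congrArg (fun y => ψ ⬝ᵥ y) h2
      simp only [dotProduct_smul, hw, smul_zero] at h3
      have h4 : ψ ⬝ᵥ u = 0 := by
        rcases smul_eq_zero.1 h3.symm with h5 | h5
        · exact absurd (sub_eq_zero.1 h5) hr1
        · exact h5
      rw [h4, zero_smul] at h2
      rcases smul_eq_zero.1 h2.symm with h5 | h5
      · exact hr1 (sub_eq_zero.1 h5)
      · exact hu0 h5
    subst hr1
    obtain ⟨x, hx1, hx2⟩ := ex_sep hφ hφ' hQ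
    have ax := act x
    rw [hx1, zero_smul, add_zero, one_smul, add_right_inj] at ax
    have hψx : ψ ⬝ᵥ x ≠ 0 := by
      intro h0
      rw [h0, zero_smul] at ax
      rcases smul_eq_zero.1 ax with h5 | h5
      · exact hx2 h5
      · exact hv h5
    obtain ⟨i, hi⟩ := Function.ne_iff.1 hφ'
    simp only [Pi.zero_apply] at hi
    have ay := act (Pi.single i 1)
    rw [one_smul, add_assoc, add_right_inj] at ay
    rw [dotProduct_single, mul_one] at ay
    have hwv : w = ((ψ ⬝ᵥ x)⁻¹ * (φ ⬝ᵥ x)) • v := by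
      rw [mul_smul, ax, smul_smul, inv_mul_cancel₀ hψx, one_smul]
    rw [hwv] at ay
    have hv'v : v' = ((φ' i)⁻¹ * ((ψ ⬝ᵥ Pi.single i 1) * ((ψ ⬝ᵥ x)⁻¹ * (φ ⬝ᵥ x)) -
        φ ⬝ᵥ (Pi.single i 1 + φ' i • v'))) • v := by
      rw [mul_smul, sub_smul, mul_smul (ψ ⬝ᵥ Pi.single i 1), ← ay, add_sub_cancel_right, smul_smul,
        inv_mul_cancel₀ hi, one_smul]
    refine hP ⟨_, ?_, hv'v⟩
    intro h0
    rw [h0, zero_smul] at hv'v
    exact hv' hv'v
  · rintro (⟨a, ha, rfl⟩ | ⟨a, ha, rfl⟩) c d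
    · have hv1 : φ' ⬝ᵥ v = 0 := by
        rw [dotProduct_smul] at hvφ'
        exact (smul_eq_zero.1 hvφ').resolve_left ha
      have hc : (c • φ) ⬝ᵥ v = 0 := by rw [smul_dotProduct, hvφ, smul_zero]
      have hd : ((d * a) • φ') ⬝ᵥ v = 0 := by rw [smul_dotProduct, hv1, smul_zero]
      refine ⟨v, c • φ + (d * a) • φ', ?_, ?_⟩
      · rw [add_dotProduct, hc, hd, add_zero]
      · rw [smul_smul, t_smul c hvφ, t_smul (d * a) hv1, t_add_right hc hd]
    · have hv1 : φ ⬝ᵥ v' = 0 := by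
        rw [smul_dotProduct] at hvφ'
        exact (smul_eq_zero.1 hvφ').resolve_left ha
      have hc : φ ⬝ᵥ (c • v) = 0 := by rw [dotProduct_smul, hvφ, smul_zero]
      have hd : φ ⬝ᵥ ((a * d) • v') = 0 := by rw [dotProduct_smul, hv1, smul_zero]
      have hd' : φ ⬝ᵥ (d • v') = 0 := by rw [dotProduct_smul, hv1, smul_zero]
      refine ⟨c • v + (a * d) • v', φ, ?_, ?_⟩
      · rw [dotProduct_add, hc, hd, add_zero]
      · rw [← t_smul a hd', smul_smul, t_add_left hc hd]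

end PLN.S38
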