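import Mathlib

/-!
# PLN/ClsS13: the number of classes of `PSL (n, F)` (helper13)
-/

set_option autoImplicit false

namespace PLN.S13

open Matrix Polynomial

universe u

variable {F : Type u} [Field F]

/-- the polynomial with the middle coefficients `c` -/
noncomputable def pol (m : ℕ) (c : Fin m → F) : F[X] :=
  X ^ (m + 1) + (∑ i : Fin m, C (c i) * X ^ (i.val + 1) + C ((-1) ^ (m + 1)))

theorem deg_low (m : ℕ) (c : Fin m → F) :
    (∑ i : Fin m, C (c i) * X ^ (i.val + 1) + C ((-1) ^ (m + 1)) : F[X]).degree < (m + 1 : ℕ) := by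
  refine lt_of_le_of_lt (degree_add_le _ _) (max_lt ?_ ?_)
  · refine lt_of_le_of_lt (degree_sum_le _ _) ?_
    rw [Finset.sup_lt_iff (by exact WithBot.bot_lt_coe _)]
    intro i _
    refine lt_of_le_of_lt (degree_C_mul_X_pow_le _ _) ?_
    exact_mod_cast Nat.succ_lt_succ i.isLt
  · refine lt_of_le_of_lt degree_C_le ?_
    exact_mod_cast Nat.succ_pos m

theorem pol_monic (m : ℕ) (c : Fin m → F) : (pol m c).Monic := monic_X_pow_add (deg_low m c)

theorem pol_deg (m : ℕ) (c : Fin m → F) : (pol m c).natDegree = m + 1 := by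
  have h : (pol m c).degree = (m + 1 : ℕ) := by
    unfold pol
    rw [degree_add_eq_left_of_degree_lt, degree_X_pow]
    rw [degree_X_pow]
    exact deg_low m c
  exact natDegree_eq_of_degree_eq_some h

theorem pol_coeff (m : ℕ) (c : Fin m → F) (i : Fin m) : (pol m c).coeff (i.val + 1) = c i := by
  unfold pol
  rw [coeff_add, coeff_add, coeff_X_pow, if_neg (by omega), zero_add, finsetSum_coeff,
    coeff_C, if_neg (by omega), add_zero, Finset.sum_eq_single i]
  · rw [coeff_C_mul, coeff_X_pow, if_pos rfl, mul_one]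
  · intro j _ hj
    rw [coeff_C_mul, coeff_X_pow, if_neg, mul_zero]
    intro h
    apply hj
    ext
    omega
  · intro h
    exact absurd (Finset.mem_univ _) h

theorem pol_zero (m : ℕ) (c : Fin m → F) : (pol m c).coeff 0 = (-1) ^ (m + 1) := by
  unfold pol
  rw [coeff_add, coeff_add, coeff_X_pow, if_neg (by omega), zero_add, finsetSum_coeff,
    coeff_C, if_pos rfl, Finset.sum_eq_zero, zero_add]
  intro i _
  rw [coeff_C_mul, coeff_X_pow, if_neg (by omega), mul_zero]

theorem pol_inj (m : ℕ) : Function.Injective (pol m : (Fin m → F) → F[X]) := by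
  intro c d h
  ext i
  rw [← pol_coeff m c i, h, pol_coeff]

/-- a matrix of determinant one with the characteristic polynomial `pol m c` -/
theorem exists_mat (m : ℕ) (c : Fin m → F) :
    ∃ A : SpecialLinearGroup (Fin (m + 1)) F, (A : Matrix (Fin (m + 1)) (Fin (m + 1)) F).charpoly = pol m c := by
  classical
  have hm := pol_monic m c
  have h0 := hm.ne_zero
  set b := AdjoinRoot.powerBasis h0 with hb
  have hd : b.dim = m + 1 := by
    rw [hb, AdjoinRoot.powerBasis_dim, pol_deg]
  have h1 : (Algebra.leftMulMatrix b.basis b.gen).charpoly = pol m c := by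
    rw [charpoly_leftMulMatrix, hb, AdjoinRoot.minpoly_powerBasis_gen_of_monic hm h0]
  set M := Matrix.reindex (finCongr hd) (finCongr hd) (Algebra.leftMulMatrix b.basis b.gen) with hM
  have h2 : M.charpoly = pol m c := by rw [hM, Matrix.charpoly_reindex, h1]
  have h3 : M.det = 1 := by
    rw [Matrix.det_eq_sign_charpoly_coeff, h2, pol_zero, Fintype.card_fin, ← mul_pow]
    simp
  exact ⟨⟨M, h3⟩, h2⟩

/-- equality in the projective group is equality up to a root of unity -/
theorem mk_eq {n : ℕ} {A B : SpecialLinearGroup (Fin n) F}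
    (e : (QuotientGroup.mk A : Matrix.ProjectiveSpecialLinearGroup (Fin n) F) = QuotientGroup.mk B) :
    ∃ r : F, r ^ n = 1 ∧ (B : Matrix (Fin n) (Fin n) F) = r • (A : Matrix (Fin n) (Fin n) F) := by
  rw [QuotientGroup.eq, Matrix.SpecialLinearGroup.mem_center_iff] at e
  obtain ⟨r, hr, h⟩ := e
  refine ⟨r, by simpa using hr, ?_⟩
  have h1 : (B : Matrix (Fin n) (Fin n) F) =
      (A : Matrix (Fin n) (Fin n) F) * ((A⁻¹ * B : SpecialLinearGroup (Fin n) F) : Matrix (Fin n) (Fin n) F) := by
    rw [← Matrix.SpecialLinearGroup.coe_mul, mul_inv_cancel_left]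
  rw [h1, ← h]
  ext i j
  simp [Matrix.scalar_apply, mul_comm]

/-- conjugate elements of the projective group -/
theorem conj_mk {n : ℕ} {A B : SpecialLinearGroup (Fin n) F}
    (e : ConjClasses.mk (QuotientGroup.mk A : Matrix.ProjectiveSpecialLinearGroup (Fin n) F) =
      ConjClasses.mk (QuotientGroup.mk B)) :
    ∃ r : F, r ^ n = 1 ∧ (B : Matrix (Fin n) (Fin n) F).charpoly =
      (r • (A : Matrix (Fin n) (Fin n) F)).charpoly := by
  rw [ConjClasses.mk_eq_mk_iff_isConj, isConj_iff] at e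
  obtain ⟨g, hg⟩ := e
  obtain ⟨G, rfl⟩ := QuotientGroup.mk_surjective g
  obtain ⟨r, hr, h⟩ := mk_eq (A := G * A * G⁻¹) (B := B) hg
  refine ⟨r, hr, ?_⟩
  rw [h]
  have h1 : (r • ((G * A * G⁻¹ : SpecialLinearGroup (Fin n) F) : Matrix (Fin n) (Fin n) F)) =
      (G : Matrix (Fin n) (Fin n) F) * ((r • (A : Matrix (Fin n) (Fin n) F)) *
        ((G⁻¹ : SpecialLinearGroup (Fin n) F) : Matrix (Fin n) (Fin n) F)) := by
    rw [Matrix.SpecialLinearGroup.coe_mul, Matrix.SpecialLinearGroup.coe_mul, Matrix.smul_mul,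
      Matrix.mul_smul, Matrix.mul_assoc]
  rw [h1, Matrix.charpoly_mul_comm, Matrix.mul_assoc, ← Matrix.SpecialLinearGroup.coe_mul,
    inv_mul_cancel, Matrix.SpecialLinearGroup.coe_one, Matrix.mul_one]

theorem cls_ge (n : ℕ) (hn : 2 ≤ n) (F : Type u) [Field F] [Finite F] :
    Nat.card F ^ (n - 1) ≤ n * Nat.card (ConjClasses (Matrix.ProjectiveSpecialLinearGroup (Fin n) F)) := by
  classical
  obtain ⟨m, rfl⟩ : ∃ m, n = m + 1 := ⟨n - 1, by omega⟩
  have hfinM : Finite (Matrix (Fin (m + 1)) (Fin (m + 1)) F) :=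
    inferInstanceAs (Finite (Fin (m + 1) → Fin (m + 1) → F))
  have hfinS : Finite (SpecialLinearGroup (Fin (m + 1)) F) := Subtype.finite
  have hfinP : Finite (Matrix.ProjectiveSpecialLinearGroup (Fin (m + 1)) F) := Quotient.finite _
  have hfinC : Finite (ConjClasses (Matrix.ProjectiveSpecialLinearGroup (Fin (m + 1)) F)) :=
    Quotient.finite _
  choose A hA using exists_mat (F := F) m
  -- representatives
  let cl : (Fin m → F) → ConjClasses (Matrix.ProjectiveSpecialLinearGroup (Fin (m + 1)) F) :=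
    fun c => ConjClasses.mk (QuotientGroup.mk (A c))
  let rep : (Fin m → F) → (Fin m → F) := fun c => Function.invFun cl (cl c)
  have hrep : ∀ c, cl (rep c) = cl c := fun c => Function.invFun_eq ⟨c, rfl⟩
  have hr : ∀ c, ∃ r : F, r ^ (m + 1) = 1 ∧ pol m c = (r • (A (rep c) : Matrix (Fin (m + 1)) (Fin (m + 1)) F)).charpoly := by
    intro c
    obtain ⟨r, h1, h2⟩ := conj_mk (hrep c)
    exact ⟨r, h1, by rw [← hA c]; exact h2⟩
  choose r hr1 hr2 using hr
  let g : (Fin m → F) → ConjClasses (Matrix.ProjectiveSpecialLinearGroup (Fin (m + 1)) F) ×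
      (nthRootsFinset (m + 1) (1 : F)) :=
    fun c => (cl c, ⟨r c, (mem_nthRootsFinset (Nat.succ_pos m) (1 : F)).2 (hr1 c)⟩)
  have hg : Function.Injective g := by
    intro c d h
    have h1 : cl c = cl d := congrArg Prod.fst h
    have h2 : r c = r d := congrArg (fun z => (z.2 : F)) h
    apply pol_inj m
    rw [hr2 c, hr2 d, h2]
    have h3 : rep c = rep d := by
      show Function.invFun cl (cl c) = Function.invFun cl (cl d)
      rw [h1]
    rw [h3]
  have h4 := Nat.card_le_card_of_injective g hg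
  rw [Nat.card_prod, Nat.card_fun, Nat.card_eq_fintype_card (α := Fin m), Fintype.card_fin] at h4
  have h5 : Nat.card (nthRootsFinset (m + 1) (1 : F)) ≤ m + 1 := by
    rw [Nat.card_eq_fintype_card, Fintype.card_coe]
    refine le_trans (Multiset.toFinset_card_le _) ?_
    exact card_nthRoots _ _
  rw [Nat.add_sub_cancel]
  calc Nat.card F ^ m ≤ _ := h4
    _ ≤ _ * (m + 1) := Nat.mul_le_mul_left _ h5
    _ = _ := Nat.mul_comm _ _

end PLN.S13
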