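import Pool.Agent.PLN.Tr
import Pool.Agent.PLN.ClsS13

/-!
# PLN/AdjS58: products of two transvection groups (helper58)
-/

set_option autoImplicit false

namespace PLN.S58

open Matrix PLN

universe u

variable {n : ℕ} {F : Type u} [Field F]

theorem par_symm {v w : Fin n → F} (h : Par v w) : Par w v := by
  obtain ⟨c, hc, rfl⟩ := h
  refine ⟨c⁻¹, inv_ne_zero hc, ?_⟩
  rw [smul_smul, inv_mul_cancel₀ hc, one_smul]

/-- nonparallel functionals -/
theorem sep {φ φ' : Fin n → F} (h0 : φ ≠ 0) (h : φ' ≠ 0) (hp : ¬ Par φ φ') :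
    ∃ y : Fin n → F, φ' ⬝ᵥ y = 0 ∧ φ ⬝ᵥ y = 1 := by
  classical
  obtain ⟨j, hj⟩ := Function.ne_iff.1 h
  rw [Pi.zero_apply] at hj
  by_cases hall : ∀ i, φ i * φ' j - φ j * φ' i = 0
  · exfalso
    apply hp
    apply par_symm
    refine ⟨φ j / φ' j, ?_, ?_⟩
    · intro h1
      apply h0
      funext i
      have h2 := hall i
      have h3 : φ j = 0 := by
        rcases div_eq_zero_iff.1 h1 with h3 | h3
        · exact h3
        · exact absurd h3 hj
      rw [h3, zero_mul, sub_zero] at h2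
      rcases mul_eq_zero.1 h2 with h4 | h4
      · exact h4
      · exact absurd h4 hj
    · funext i
      rw [Pi.smul_apply, smul_eq_mul]
      have h2 := hall i
      field_simp
      linear_combination h2
  · push Not at hall
    obtain ⟨i, hi⟩ := hall
    refine ⟨(φ i * φ' j - φ j * φ' i)⁻¹ • (φ' j • Pi.single i (1 : F) - φ' i • Pi.single j (1 : F)),
      ?_, ?_⟩
    · rw [dotProduct_smul, dotProduct_sub, dotProduct_smul, dotProduct_smul,
        dotProduct_single, dotProduct_single, mul_one, mul_one, smul_eq_mul, smul_eq_mul,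
        smul_eq_mul, mul_comm (φ' j), sub_self, mul_zero]
    · rw [dotProduct_smul, dotProduct_sub, dotProduct_smul, dotProduct_smul,
        dotProduct_single, dotProduct_single, mul_one, mul_one, smul_eq_mul, smul_eq_mul,
        smul_eq_mul, mul_comm (φ' j), mul_comm (φ' i)]
      exact inv_mul_cancel₀ hi

theorem common (hn : 3 ≤ n) (φ φ' : Fin n → F) :
    ∃ y : Fin n → F, y ≠ 0 ∧ φ ⬝ᵥ y = 0 ∧ φ' ⬝ᵥ y = 0 := by
  have h : LinearMap.ker (Matrix.mulVecLin (Matrix.of ![φ, φ'])) ≠ ⊥ := by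
    apply LinearMap.ker_ne_bot_of_finrank_lt
    rw [Module.finrank_fin_fun, Module.finrank_fin_fun]
    omega
  obtain ⟨y, hy, hy0⟩ := Submodule.exists_mem_ne_zero_of_ne_bot h
  rw [LinearMap.mem_ker, Matrix.mulVecLin_apply] at hy
  refine ⟨y, hy0, ?_, ?_⟩
  · exact congrFun hy 0
  · exact congrFun hy 1

theorem vmv_mulVec (v φ y : Fin n → F) : vecMulVec v φ *ᵥ y = (φ ⬝ᵥ y) • v := by
  funext i
  simp only [mulVec, vecMulVec_apply, dotProduct, Pi.smul_apply, smul_eq_mul, Finset.sum_mul]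
  exact Finset.sum_congr rfl fun j _ => by ring

theorem adj_iff (hn : 3 ≤ n) {v φ v' φ' : Fin n → F} (h : Flag v φ) (h' : Flag v' φ') :
    (∀ c d : F, ∃ w ψ : Fin n → F, ψ ⬝ᵥ w = 0 ∧ t (c • v) φ * t (d • v') φ' = t w ψ) ↔
      (Par v v' ∨ Par φ φ') := by
  obtain ⟨hv, hφ, hvφ⟩ := h
  obtain ⟨hv', hφ', hvφ'⟩ := h'
  constructor
  · intro H
    by_contra hcon
    rw [not_or] at hcon
    obtain ⟨hpv, hpφ⟩ := hcon
    obtain ⟨w, ψ, hw, he⟩ := H 1 1
    rw [one_smul, one_smul] at he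
    have he2 : (QuotientGroup.mk (tM w ψ) : PS n F) = QuotientGroup.mk (tM v φ * tM v' φ') :=
      he.symm
    obtain ⟨r, hr, hM⟩ := PLN.S13.mk_eq he2
    rw [Matrix.SpecialLinearGroup.coe_mul] at hM
    have hM' : (1 + vecMulVec v φ) * (1 + vecMulVec v' φ') = r • (1 + vecMulVec w ψ) := by
      rw [← tM_coe hvφ, ← tM_coe hvφ', ← tM_coe hw]
      exact hM
    have happ : ∀ y : Fin n → F, (y + (φ' ⬝ᵥ y) • v') + (φ ⬝ᵥ (y + (φ' ⬝ᵥ y) • v')) • v =
        r • (y + (ψ ⬝ᵥ y) • w) := by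
      intro y
      have h1 := congrArg (fun M => M *ᵥ y) hM'
      simp only [← Matrix.mulVec_mulVec, Matrix.add_mulVec, Matrix.one_mulVec,
        Matrix.smul_mulVec, vmv_mulVec] at h1
      exact h1
    have hr1 : r = 1 := by
      obtain ⟨y, hy0, hy1, hy2⟩ := common hn φ φ'
      have h1 := happ y
      rw [hy2, zero_smul, add_zero, hy1, zero_smul, add_zero] at h1
      by_contra hne
      have h2 : (1 - r) • y = (r * (ψ ⬝ᵥ y)) • w := by
        rw [sub_smul, one_smul, mul_smul]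
        nth_rewrite 1 [h1]
        rw [smul_add]
        abel
      have h3 : (1 - r) * (ψ ⬝ᵥ y) = 0 := by
        have h4 := congrArg (fun z => ψ ⬝ᵥ z) h2
        simp only [dotProduct_smul, smul_eq_mul] at h4
        rw [h4, hw, mul_zero]
      have h4 : ψ ⬝ᵥ y = 0 := by
        rcases mul_eq_zero.1 h3 with h5 | h5
        · exact absurd (sub_eq_zero.1 h5).symm hne
        · exact h5
      rw [h4, mul_zero, zero_smul, smul_eq_zero] at h2
      rcases h2 with h5 | h5
      · exact hne (sub_eq_zero.1 h5).symm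
      · exact hy0 h5
    subst hr1
    obtain ⟨y, hy1, hy2⟩ := sep hφ hφ' hpφ
    obtain ⟨z, hz1, hz2⟩ := sep hφ' hφ (fun h => hpφ (par_symm h))
    have h1 := happ y
    rw [hy1, zero_smul, add_zero, hy2, one_smul, one_smul] at h1
    have h1' : v = (ψ ⬝ᵥ y) • w := add_left_cancel h1
    have h2 := happ z
    rw [hz2, one_smul, dotProduct_add, hz1, zero_add, one_smul, add_assoc] at h2
    have h2' : v' + (φ ⬝ᵥ v') • v = (ψ ⬝ᵥ z) • w := add_left_cancel h2
    have h3 : (ψ ⬝ᵥ y) ≠ 0 := by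
      intro h4
      rw [h4, zero_smul] at h1'
      exact hv h1'
    have h4 : w = (ψ ⬝ᵥ y)⁻¹ • v := by
      rw [h1', smul_smul, inv_mul_cancel₀ h3, one_smul]
    have h5 : v' = ((ψ ⬝ᵥ z) * (ψ ⬝ᵥ y)⁻¹ - φ ⬝ᵥ v') • v := by
      rw [sub_smul, mul_smul, ← h4, ← h2']
      abel
    apply hpv
    refine ⟨_, ?_, h5⟩
    intro h6
    rw [h6, zero_smul] at h5
    exact hv' h5
  · rintro (⟨a, ha, rfl⟩ | ⟨a, ha, rfl⟩) c d
    · have h1 : φ' ⬝ᵥ v = 0 := by
        rw [dotProduct_smul, smul_eq_mul] at hvφ'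
        rcases mul_eq_zero.1 hvφ' with h2 | h2
        · exact absurd h2 ha
        · exact h2
      have h2 : (c • φ) ⬝ᵥ v = 0 := by rw [smul_dotProduct, hvφ, smul_zero]
      have h3 : ((d * a) • φ') ⬝ᵥ v = 0 := by rw [smul_dotProduct, h1, smul_zero]
      refine ⟨v, c • φ + (d * a) • φ', ?_, ?_⟩
      · rw [add_dotProduct, h2, h3, add_zero]
      · rw [smul_smul, t_smul c hvφ, t_smul (d * a) h1, t_add_right h2 h3]
    · have h1 : φ ⬝ᵥ v' = 0 := by
        rw [smul_dotProduct, smul_eq_mul] at hvφ'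
        rcases mul_eq_zero.1 hvφ' with h2 | h2
        · exact absurd h2 ha
        · exact h2
      have h2 : φ ⬝ᵥ (c • v) = 0 := by rw [dotProduct_smul, hvφ, smul_zero]
      have h3 : φ ⬝ᵥ (d • v') = 0 := by rw [dotProduct_smul, h1, smul_zero]
      have h4 : φ ⬝ᵥ (a • (d • v')) = 0 := by rw [dotProduct_smul, h3, smul_zero]
      refine ⟨c • v + a • (d • v'), φ, ?_, ?_⟩
      · rw [dotProduct_add, h2, h4, add_zero]
      · rw [t_add_left h2 h4, t_smul a h3]

end PLN.S58
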