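import Pool.Agent.PLN.OrdS19
import Pool.Agent.PLN.ClsS13
import Pool.Agent.PL3.Out
import Pool.Agent.PL3.Cls

/-!
# PLN/AsmS19: the groups `PSL (n, F)` satisfy the condition, from a bound on the outer automorphisms
-/

set_option autoImplicit false

namespace PLN.S19

open Filter

universe u

theorem num_log (L : ℕ) (C : ℝ) (hC : 0 ≤ C) : ∃ X : ℕ, ∀ x : ℝ, (X : ℝ) ≤ x →
    (2 * Real.logb 2 x) ^ (L + 2) * C ^ L ≤ x ^ (1 / 4 : ℝ) := by
  have hlog2 : 0 < Real.log 2 := Real.log_pos (by norm_num)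
  obtain ⟨K, hK⟩ : ∃ K : ℝ, K = (2 / Real.log 2) ^ (L + 2) * C ^ L := ⟨_, rfl⟩
  have hK0 : 0 ≤ K := by rw [hK]; positivity
  have h1 := (isLittleO_log_rpow_rpow_atTop ((L + 2 : ℕ) : ℝ)
    (by norm_num : (0 : ℝ) < 1 / 4)).def (c := 1 / (K + 1)) (by positivity)
  obtain ⟨a, ha⟩ := eventually_atTop.1 (h1.and (eventually_ge_atTop (1 : ℝ)))
  obtain ⟨X, hX⟩ := exists_nat_ge a
  refine ⟨X, fun x hx => ?_⟩
  obtain ⟨h2, h3⟩ := ha x (hX.trans hx)
  have h4 : 0 ≤ Real.log x := Real.log_nonneg h3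
  have hx0 : 0 < x := by linarith
  rw [Real.rpow_natCast, Real.norm_of_nonneg (by positivity), Real.norm_of_nonneg (by positivity)]
    at h2
  have h5 : (2 * Real.logb 2 x) ^ (L + 2) * C ^ L = K * Real.log x ^ (L + 2) := by
    rw [hK]
    unfold Real.logb
    rw [show 2 * (Real.log x / Real.log 2) = 2 / Real.log 2 * Real.log x by ring, mul_pow]
    ring
  rw [h5]
  have h6 : K * Real.log x ^ (L + 2) ≤ K * (1 / (K + 1) * x ^ (1 / 4 : ℝ)) :=
    mul_le_mul_of_nonneg_left h2 hK0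
  refine h6.trans ?_
  have h7 : K * (1 / (K + 1)) ≤ 1 := by
    rw [mul_one_div, div_le_one (by linarith)]
    linarith
  have h8 : 0 ≤ x ^ (1 / 4 : ℝ) := by positivity
  calc K * (1 / (K + 1) * x ^ (1 / 4 : ℝ)) = K * (1 / (K + 1)) * x ^ (1 / 4 : ℝ) := by ring
    _ ≤ 1 * x ^ (1 / 4 : ℝ) := mul_le_mul_of_nonneg_right h7 h8
    _ = x ^ (1 / 4 : ℝ) := one_mul _

theorem psln_of
    (hidx : ∀ (n : ℕ) (F : Type) [Field F] [Finite F], 3 ≤ n →
      (MulAut.conj : Matrix.ProjectiveSpecialLinearGroup (Fin n) F →*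
        MulAut (Matrix.ProjectiveSpecialLinearGroup (Fin n) F)).range.index ≤
          2 * n * Nat.log 2 (Nat.card F)) :
    ∀ L : ℕ, ∃ N : ℕ, ∀ (n : ℕ) (F : Type) [Field F] [Finite F], 2 ≤ n →
      N ≤ n ∨ N ≤ Nat.card F →
      SR32.oo (MulAut (Matrix.ProjectiveSpecialLinearGroup (Fin n) F)) ^ L ≤
        SR32.om (Matrix.ProjectiveSpecialLinearGroup (Fin n) F) := by
  intro L
  obtain ⟨C, hC, hoo⟩ := oo_PSL (1 / (4 * ((L : ℝ) + 1))) (by positivity)
  obtain ⟨X, hX⟩ := num_log L C (by linarith)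
  refine ⟨max X 4, fun n F _ _ hn hN => ?_⟩
  have hfS : Finite (Matrix.SpecialLinearGroup (Fin n) F) :=
    Finite.of_injective (fun A => (A : Matrix (Fin n) (Fin n) F)) Subtype.val_injective
  have hfP : Finite (Matrix.ProjectiveSpecialLinearGroup (Fin n) F) :=
    Finite.of_surjective _ (QuotientGroup.mk'_surjective _)
  have hfA : Finite (MulAut (Matrix.ProjectiveSpecialLinearGroup (Fin n) F)) :=
    Finite.of_injective (fun φ : MulAut (Matrix.ProjectiveSpecialLinearGroup (Fin n) F) =>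
      (φ : Matrix.ProjectiveSpecialLinearGroup (Fin n) F →
        Matrix.ProjectiveSpecialLinearGroup (Fin n) F)) DFunLike.coe_injective
  obtain ⟨q, hq⟩ : ∃ q, q = Nat.card F := ⟨_, rfl⟩
  have hq2 : 2 ≤ q := by
    rw [hq]
    exact Finite.one_lt_card
  obtain ⟨B, hBdef⟩ : ∃ B, B = (MulAut.conj : Matrix.ProjectiveSpecialLinearGroup (Fin n) F →*
        MulAut (Matrix.ProjectiveSpecialLinearGroup (Fin n) F)).range.index := ⟨_, rfl⟩
  have hB1 : 1 ≤ B := by
    rw [hBdef]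
    exact Nat.one_le_iff_ne_zero.2 Subgroup.index_ne_zero_of_finite
  have hB : B ≤ 2 * n * Nat.log 2 q := by
    rcases Nat.lt_or_ge 2 n with h | h
    · rw [hBdef, hq]
      exact hidx n F (by omega)
    · obtain rfl : n = 2 := by omega
      have h4 : 4 ≤ Nat.card F := by
        rcases hN with h' | h'
        · have := (le_max_right X 4).trans h'
          omega
        · exact (le_max_right X 4).trans h'
      rw [hBdef, hq]
      refine (PL3.out_index F h4).trans ?_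
      exact Nat.mul_le_mul_right _ (by norm_num)
  -- the number `x = q ^ n`
  obtain ⟨x, hx⟩ : ∃ x : ℝ, x = (q : ℝ) ^ n := ⟨_, rfl⟩
  have hqR : (2 : ℝ) ≤ q := by exact_mod_cast hq2
  have hq1 : (1 : ℝ) ≤ q := by linarith
  have hx1 : 1 ≤ x := by rw [hx]; exact one_le_pow₀ hq1
  have hx0 : 0 < x := by linarith
  have hXx : (X : ℝ) ≤ x := by
    rw [hx]
    rcases hN with h' | h'
    · have h1 : X ≤ n := (le_max_left X 4).trans h'
      have h2 : n < 2 ^ n := Nat.lt_two_pow_self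
      have h3 : 2 ^ n ≤ q ^ n := Nat.pow_le_pow_left hq2 n
      exact_mod_cast (by omega : X ≤ q ^ n)
    · have h1 : X ≤ q := by rw [hq]; exact (le_max_left X 4).trans h'
      have h2 : q ≤ q ^ n := Nat.le_self_pow (by omega) q
      exact_mod_cast h1.trans h2
  have hlogx : (n : ℝ) * Real.logb 2 q = Real.logb 2 x := by
    rw [hx, Real.logb_pow]
  have hnlog : (n : ℝ) ≤ Real.logb 2 x := by
    rw [← hlogx]
    have h1 : (1 : ℝ) ≤ Real.logb 2 q := by
      rw [Real.le_logb_iff_rpow_le (by norm_num) (by linarith), Real.rpow_one]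
      exact hqR
    have h2 : (0 : ℝ) ≤ n := Nat.cast_nonneg n
    nlinarith
  have hBR : (B : ℝ) ≤ 2 * Real.logb 2 x := by
    have h1 : (B : ℝ) ≤ 2 * n * (Nat.log 2 q : ℝ) := by exact_mod_cast hB
    have h2 : (Nat.log 2 q : ℝ) ≤ Real.logb 2 q := Real.natLog_le_logb q 2
    rw [← hlogx]
    have h3 : (0 : ℝ) ≤ 2 * n := by positivity
    calc (B : ℝ) ≤ 2 * n * (Nat.log 2 q : ℝ) := h1
      _ ≤ 2 * n * Real.logb 2 q := mul_le_mul_of_nonneg_left h2 h3
      _ = 2 * (n * Real.logb 2 q) := by ring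
  have hlog0 : 0 ≤ Real.logb 2 x := (Nat.cast_nonneg n).trans hnlog
  obtain ⟨e, he⟩ : ∃ e : ℝ, e = 1 / (4 * ((L : ℝ) + 1)) := ⟨_, rfl⟩
  have he0 : 0 < e := by rw [he]; positivity
  have hOO : (SR32.oo (MulAut (Matrix.ProjectiveSpecialLinearGroup (Fin n) F)) : ℝ) ≤
      B * (C * x ^ e) := by
    have h1 := PL3.oo_aut_le (Matrix.ProjectiveSpecialLinearGroup (Fin n) F)
    rw [← hBdef] at h1
    have h2 : (SR32.oo (MulAut (Matrix.ProjectiveSpecialLinearGroup (Fin n) F)) : ℝ) ≤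
        B * (SR32.oo (Matrix.ProjectiveSpecialLinearGroup (Fin n) F) : ℝ) := by
      exact_mod_cast h1
    have h3 := hoo n F
    rw [← hq, ← he] at h3
    have h4 : (q : ℝ) ^ (e * n) = x ^ e := by
      rw [hx, mul_comm, Real.rpow_mul (by linarith), Real.rpow_natCast]
    rw [h4] at h3
    exact h2.trans (mul_le_mul_of_nonneg_left h3 (Nat.cast_nonneg _))
  have hcls := PLN.S13.cls_ge n hn F
  have hkom : Nat.card (ConjClasses (Matrix.ProjectiveSpecialLinearGroup (Fin n) F)) ≤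
      SR32.om (Matrix.ProjectiveSpecialLinearGroup (Fin n) F) * B := by
    rw [hBdef]
    exact PL3.class_le _
  have h10 : (q : ℝ) ^ (n - 1) ≤ n * (SR32.om (Matrix.ProjectiveSpecialLinearGroup (Fin n) F) * B) := by
    have h1 : q ^ (n - 1) ≤ n * (SR32.om (Matrix.ProjectiveSpecialLinearGroup (Fin n) F) * B) := by
      rw [hq]
      exact hcls.trans (Nat.mul_le_mul_left _ hkom)
    exact_mod_cast h1
  have h11 : x ^ (1 / 2 : ℝ) ≤ (q : ℝ) ^ (n - 1) := by
    rw [hx, ← Real.rpow_natCast (q : ℝ) n, ← Real.rpow_mul (by linarith),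
      ← Real.rpow_natCast (q : ℝ) (n - 1)]
    apply Real.rpow_le_rpow_of_exponent_le hq1
    rw [Nat.cast_sub (by omega)]
    have : (2 : ℝ) ≤ n := by exact_mod_cast hn
    push_cast
    linarith
  have h12 : (SR32.oo (MulAut (Matrix.ProjectiveSpecialLinearGroup (Fin n) F)) : ℝ) ^ L *
      (n * B) ≤ x ^ (1 / 2 : ℝ) := by
    have hC0 : 0 ≤ C := by linarith
    have hxe : 0 ≤ x ^ e := by positivity
    have h1 : (SR32.oo (MulAut (Matrix.ProjectiveSpecialLinearGroup (Fin n) F)) : ℝ) ^ L ≤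
        (2 * Real.logb 2 x * (C * x ^ e)) ^ L := by
      apply pow_le_pow_left₀ (Nat.cast_nonneg _)
      exact hOO.trans (mul_le_mul_of_nonneg_right hBR (by positivity))
    have h2 : (n : ℝ) * B ≤ (2 * Real.logb 2 x) ^ 2 := by
      rw [pow_two]
      apply mul_le_mul (by linarith) hBR (Nat.cast_nonneg _) (by positivity)
    have h3 : (x ^ e) ^ L ≤ x ^ (1 / 4 : ℝ) := by
      rw [← Real.rpow_natCast, ← Real.rpow_mul hx0.le]
      apply Real.rpow_le_rpow_of_exponent_le hx1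
      rw [he, one_div, inv_mul_le_iff₀ (by positivity)]
      have : (0 : ℝ) ≤ L := Nat.cast_nonneg L
      linarith
    calc (SR32.oo (MulAut (Matrix.ProjectiveSpecialLinearGroup (Fin n) F)) : ℝ) ^ L * (n * B)
        ≤ (2 * Real.logb 2 x * (C * x ^ e)) ^ L * (2 * Real.logb 2 x) ^ 2 :=
          mul_le_mul h1 h2 (by positivity) (by positivity)
      _ = ((2 * Real.logb 2 x) ^ (L + 2) * C ^ L) * (x ^ e) ^ L := by
          rw [mul_pow, mul_pow]
          ring
      _ ≤ x ^ (1 / 4 : ℝ) * x ^ (1 / 4 : ℝ) :=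
          mul_le_mul (hX x hXx) h3 (by positivity) (by positivity)
      _ = x ^ (1 / 2 : ℝ) := by
          rw [← Real.rpow_add hx0]
          norm_num
  have h13 : (SR32.oo (MulAut (Matrix.ProjectiveSpecialLinearGroup (Fin n) F)) : ℝ) ^ L *
      (n * B) ≤ (SR32.om (Matrix.ProjectiveSpecialLinearGroup (Fin n) F) : ℝ) * (n * B) := by
    refine (h12.trans (h11.trans h10)).trans (le_of_eq ?_)
    ring
  have hnB : (0 : ℝ) < n * B := by
    have h1 : (0 : ℝ) < n := by
      have : 0 < n := by omega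
      exact_mod_cast this
    have h2 : (0 : ℝ) < B := by exact_mod_cast hB1
    positivity
  have h14 := le_of_mul_le_mul_right h13 hnB
  exact_mod_cast h14

end PLN.S19
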