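import Mathlib

/-!
# PLN/CardS13: a lower bound for the order of `PSL (n, F)` (helper13)
-/

set_option autoImplicit false

namespace PLN.S13

open Matrix Polynomial

universe u

theorem half_prod (n : ℕ) :
    (1 : ℝ) / 4 + (1 / 2) ^ (n + 1) ≤ ∏ j ∈ Finset.range n, (1 - (1 / 2 : ℝ) ^ (j + 1)) := by
  induction n with
  | zero => norm_num
  | succ n ih =>
    rcases Nat.eq_zero_or_pos n with rfl | hn
    · norm_num
    rw [Finset.prod_range_succ]
    set x : ℝ := (1 / 2) ^ (n + 1) with hx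
    have hx0 : 0 < x := by positivity
    have hx1 : x ≤ 1 / 4 := by
      have : (1 / 2 : ℝ) ^ (n + 1) ≤ (1 / 2) ^ 2 :=
        pow_le_pow_of_le_one (by norm_num) (by norm_num) (by omega)
      calc x ≤ (1 / 2) ^ 2 := this
        _ = 1 / 4 := by norm_num
    have h2 : (1 / 2 : ℝ) ^ (n + 1 + 1) = x / 2 := by rw [pow_succ, ← hx]; ring
    rw [h2]
    calc 1 / 4 + x / 2 ≤ (1 / 4 + x) * (1 - x) := by nlinarith
      _ ≤ _ := mul_le_mul_of_nonneg_right ih (by linarith)

theorem prod_ge (n q : ℕ) (hq : 2 ≤ q) : q ^ (n * n) ≤ 4 * ∏ i : Fin n, (q ^ n - q ^ (i : ℕ)) := by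
  have hq0 : (0 : ℝ) < q := by positivity
  have h1 : ((∏ i : Fin n, (q ^ n - q ^ (i : ℕ)) : ℕ) : ℝ) =
      ∏ i ∈ Finset.range n, ((q : ℝ) ^ n - (q : ℝ) ^ i) := by
    rw [Finset.prod_range, Nat.cast_prod]
    refine Finset.prod_congr rfl fun i _ => ?_
    rw [Nat.cast_sub (Nat.pow_le_pow_right (by omega) (le_of_lt i.isLt))]
    push_cast
    rfl
  have h2 : ∏ i ∈ Finset.range n, ((q : ℝ) ^ n * (1 - (1 / 2 : ℝ) ^ (n - 1 - i + 1))) ≤
      ∏ i ∈ Finset.range n, ((q : ℝ) ^ n - (q : ℝ) ^ i) := by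
    refine Finset.prod_le_prod ?_ ?_
    · intro i _
      refine mul_nonneg (by positivity) ?_
      have : (1 / 2 : ℝ) ^ (n - 1 - i + 1) ≤ 1 := pow_le_one₀ (by norm_num) (by norm_num)
      linarith
    · intro i hi
      have hi' := Finset.mem_range.1 hi
      have e : n - 1 - i + 1 = n - i := by omega
      rw [e]
      have h3 : (q : ℝ) ^ i ≤ (q : ℝ) ^ n * (1 / 2) ^ (n - i) := by
        have h4 : (2 : ℝ) ^ (n - i) ≤ (q : ℝ) ^ (n - i) :=
          pow_le_pow_left₀ (by norm_num) (by exact_mod_cast hq) _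
        have h5 : (q : ℝ) ^ n = (q : ℝ) ^ i * (q : ℝ) ^ (n - i) := by
          rw [← pow_add]
          congr 1
          omega
        rw [h5, one_div, inv_pow, mul_assoc]
        have h6 : 1 ≤ (q : ℝ) ^ (n - i) * ((2 : ℝ) ^ (n - i))⁻¹ := by
          rw [← div_eq_mul_inv, one_le_div (by positivity)]
          exact h4
        have : 0 ≤ (q : ℝ) ^ i := by positivity
        nlinarith
      nlinarith
  rw [Finset.prod_mul_distrib, Finset.prod_const, Finset.card_range, ← pow_mul,
    Finset.prod_range_reflect (fun j => 1 - (1 / 2 : ℝ) ^ (j + 1)) n] at h2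
  have h3 := half_prod n
  have h4 : (0 : ℝ) < (1 / 2) ^ (n + 1) := by positivity
  have h5 : (q : ℝ) ^ (n * n) * (1 / 4) ≤ ∏ i ∈ Finset.range n, ((q : ℝ) ^ n - (q : ℝ) ^ i) := by
    refine le_trans (mul_le_mul_of_nonneg_left ?_ (by positivity)) h2
    linarith
  have h6 : ((q ^ (n * n) : ℕ) : ℝ) ≤ ((4 * ∏ i : Fin n, (q ^ n - q ^ (i : ℕ)) : ℕ) : ℝ) := by
    rw [Nat.cast_mul, h1]
    push_cast
    linarith
  exact_mod_cast h6

theorem card_GL_le (n : ℕ) (F : Type u) [Field F] [Finite F] :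
    Nat.card (GL (Fin n) F) ≤ (Nat.card F - 1) * Nat.card (SpecialLinearGroup (Fin n) F) := by
  classical
  have hfinM : Finite (Matrix (Fin n) (Fin n) F) := inferInstanceAs (Finite (Fin n → Fin n → F))
  have hfinS : Finite (SpecialLinearGroup (Fin n) F) := Subtype.finite
  have h1 := Subgroup.card_mul_index (Matrix.GeneralLinearGroup.det : GL (Fin n) F →* Fˣ).ker
  rw [Subgroup.index_ker] at h1
  have h2 : Nat.card (Matrix.GeneralLinearGroup.det : GL (Fin n) F →* Fˣ).range ≤ Nat.card F - 1 := by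
    rw [← Nat.card_units]
    exact Nat.card_le_card_of_injective _ Subtype.val_injective
  have h3 : Nat.card (Matrix.GeneralLinearGroup.det : GL (Fin n) F →* Fˣ).ker ≤
      Nat.card (SpecialLinearGroup (Fin n) F) := by
    let f : (Matrix.GeneralLinearGroup.det : GL (Fin n) F →* Fˣ).ker → SpecialLinearGroup (Fin n) F :=
      fun g => ⟨((g : GL (Fin n) F) : Matrix (Fin n) (Fin n) F), by
        have := g.2
        rw [MonoidHom.mem_ker] at this
        have h := congrArg Units.val this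
        simpa using h⟩
    refine Nat.card_le_card_of_injective f ?_
    intro a b h
    have h' : ((a : GL (Fin n) F) : Matrix (Fin n) (Fin n) F) = ((b : GL (Fin n) F) : Matrix (Fin n) (Fin n) F) :=
      congrArg (fun z : SpecialLinearGroup (Fin n) F => (z : Matrix (Fin n) (Fin n) F)) h
    exact Subtype.ext (Units.ext h')
  rw [← h1, Nat.mul_comm]
  exact Nat.mul_le_mul h2 h3

theorem card_SL_le (n : ℕ) (hn : 1 ≤ n) (F : Type u) [Field F] [Finite F] :
    Nat.card (SpecialLinearGroup (Fin n) F) ≤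
      n * Nat.card (Matrix.ProjectiveSpecialLinearGroup (Fin n) F) := by
  classical
  have hfinM : Finite (Matrix (Fin n) (Fin n) F) := inferInstanceAs (Finite (Fin n → Fin n → F))
  have hfinS : Finite (SpecialLinearGroup (Fin n) F) := Subtype.finite
  have h1 := Subgroup.card_mul_index (Subgroup.center (SpecialLinearGroup (Fin n) F))
  have h2 : Nat.card (Subgroup.center (SpecialLinearGroup (Fin n) F)) ≤ n := by
    let i0 : Fin n := ⟨0, hn⟩
    have h3 : ∀ A : Subgroup.center (SpecialLinearGroup (Fin n) F),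
        ∃ r : F, r ^ n = 1 ∧ scalar (Fin n) r = ((A : SpecialLinearGroup (Fin n) F) : Matrix (Fin n) (Fin n) F) := by
      intro A
      have := Matrix.SpecialLinearGroup.mem_center_iff.1 A.2
      simpa using this
    choose r hr1 hr2 using h3
    let f : Subgroup.center (SpecialLinearGroup (Fin n) F) → (nthRootsFinset n (1 : F)) :=
      fun A => ⟨r A, (mem_nthRootsFinset hn (1 : F)).2 (hr1 A)⟩
    have hf : Function.Injective f := by
      intro A B h
      have h' : r A = r B := congrArg Subtype.val h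
      apply Subtype.ext
      apply Subtype.ext
      rw [← hr2 A, ← hr2 B, h']
    refine le_trans (Nat.card_le_card_of_injective f hf) ?_
    rw [Nat.card_eq_fintype_card, Fintype.card_coe]
    exact le_trans (Multiset.toFinset_card_le _) (card_nthRoots _ _)
  rw [← h1]
  exact Nat.mul_le_mul_right _ h2

theorem card_ge (n : ℕ) (hn : 1 ≤ n) (F : Type u) [Field F] [Finite F] :
    Nat.card F ^ (n * n) ≤
      4 * (Nat.card F - 1) * n * Nat.card (Matrix.ProjectiveSpecialLinearGroup (Fin n) F) := by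
  classical
  have : Fintype F := Fintype.ofFinite F
  have hq : 2 ≤ Nat.card F := Finite.one_lt_card
  have h1 := prod_ge n (Nat.card F) hq
  have h2 : Nat.card (GL (Fin n) F) = ∏ i : Fin n, (Nat.card F ^ n - Nat.card F ^ (i : ℕ)) := by
    rw [Matrix.card_GL_field, Nat.card_eq_fintype_card]
  rw [← h2] at h1
  calc Nat.card F ^ (n * n) ≤ 4 * Nat.card (GL (Fin n) F) := h1
    _ ≤ 4 * ((Nat.card F - 1) * Nat.card (SpecialLinearGroup (Fin n) F)) :=
      Nat.mul_le_mul_left _ (card_GL_le n F)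
    _ ≤ 4 * ((Nat.card F - 1) * (n * Nat.card (Matrix.ProjectiveSpecialLinearGroup (Fin n) F))) :=
      Nat.mul_le_mul_left _ (Nat.mul_le_mul_left _ (card_SL_le n hn F))
    _ = _ := by ring

end PLN.S13
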