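import Mathlib

/-!
# PLN/CenS58: the centre of the image of the unitriangular group in `PSL (n, F)` (helper58)
-/

set_option autoImplicit false

namespace PLN.S58

open Matrix

universe u

/-- a matrix that commutes with all `E i j`, `i < j` -/
theorem mat_center {ι : Type*} [Fintype ι] [LinearOrder ι] {R : Type*} [CommRing R]
    (M : Matrix ι ι R)
    (h : ∀ i j, i < j → M * Matrix.single i j 1 = Matrix.single i j 1 * M) :
    (∀ i j, M i i = M j j) ∧ ∀ k l, k ≠ l → M k l ≠ 0 → (∀ i, k ≤ i) ∧ ∀ i, i ≤ l := by
  have hd : ∀ i j, i < j → M i i = M j j := by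
    intro i j hij
    have h1 := congrFun (congrFun (h i j hij) i) j
    rw [Matrix.mul_single_apply_same, Matrix.single_mul_apply_same] at h1
    simpa using h1
  refine ⟨fun i j => ?_, fun k l hkl hne => ⟨fun i => ?_, fun i => ?_⟩⟩
  · rcases lt_trichotomy i j with h1 | h1 | h1
    · exact hd i j h1
    · rw [h1]
    · exact (hd j i h1).symm
  · by_contra hlt
    rw [not_le] at hlt
    have h1 := congrFun (congrFun (h i k hlt) i) l
    rw [Matrix.single_mul_apply_same,
      Matrix.mul_single_apply_of_ne (hbj := hkl.symm)] at h1
    apply hne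
    simpa using h1.symm
  · by_contra hlt
    rw [not_le] at hlt
    have h1 := congrFun (congrFun (h l i hlt) k) i
    rw [Matrix.mul_single_apply_same,
      Matrix.single_mul_apply_of_ne (h := hkl)] at h1
    apply hne
    simpa using h1

end PLN.S58
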