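import Mathlib

/-!
# PLN/ClsS40: lower bound for the number of conjugacy classes of `PSL (n, F)` (helper40)
-/

set_option autoImplicit false

namespace PLN.S40

open Matrix Polynomial

universe u

theorem exists_mat_pb {F : Type u} [Field F] {S : Type u} [Ring S] [Algebra F S]
    (pb : PowerBasis F S) (n : ℕ) (hn : pb.dim = n) :
    ∃ M : Matrix (Fin n) (Fin n) F, M.charpoly = minpoly F pb.gen := by
  subst hn
  exact ⟨Algebra.leftMulMatrix pb.basis pb.gen, charpoly_leftMulMatrix pb⟩

theorem exists_mat {F : Type u} [Field F] (p : F[X]) (hp : p.Monic) (n : ℕ)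
    (hn : p.natDegree = n) : ∃ M : Matrix (Fin n) (Fin n) F, M.charpoly = p := by
  obtain ⟨M, hM⟩ := exists_mat_pb (AdjoinRoot.powerBasis hp.ne_zero) n
    (by rw [AdjoinRoot.powerBasis_dim, hn])
  exact ⟨M, hM.trans (AdjoinRoot.minpoly_powerBasis_gen_of_monic hp)⟩

/-- the polynomial with given coefficients and constant term `(-1) ^ (m + 1)` -/
noncomputable def pol {F : Type u} [Field F] {m : ℕ} (c : Fin m → F) : F[X] :=
  X ^ (m + 1) + ∑ i : Fin (m + 1), C ((Fin.cons ((-1) ^ (m + 1)) c : Fin (m + 1) → F) i) * X ^ (i : ℕ)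

theorem pol_monic {F : Type u} [Field F] {m : ℕ} (c : Fin m → F) : (pol c).Monic :=
  monic_X_pow_add (degree_sum_fin_lt _)

theorem pol_natDegree {F : Type u} [Field F] {m : ℕ} (c : Fin m → F) :
    (pol c).natDegree = m + 1 := by
  apply natDegree_eq_of_degree_eq_some
  unfold pol
  rw [degree_add_eq_left_of_degree_lt, degree_X_pow]
  rw [degree_X_pow]
  exact degree_sum_fin_lt _

theorem pol_coeff {F : Type u} [Field F] {m : ℕ} (c : Fin m → F) (j : Fin (m + 1)) :
    (pol c).coeff j = (Fin.cons ((-1) ^ (m + 1)) c : Fin (m + 1) → F) j := by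
  unfold pol
  rw [coeff_add, coeff_X_pow, if_neg (by have := j.2; omega), zero_add, finsetSum_coeff]
  rw [Finset.sum_eq_single j]
  · simp
  · intro i _ hij
    rw [coeff_C_mul, coeff_X_pow, if_neg, mul_zero]
    intro h
    exact hij (Fin.ext h.symm)
  · intro h
    exact absurd (Finset.mem_univ _) h

theorem pol_inj {F : Type u} [Field F] {m : ℕ} {c d : Fin m → F} (h : pol c = pol d) : c = d := by
  funext i
  have h1 := pol_coeff c i.succ
  have h2 := pol_coeff d i.succ
  rw [Fin.cons_succ] at h1 h2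
  rw [← h1, ← h2, h]

theorem exists_sl {F : Type u} [Field F] {m : ℕ} (c : Fin m → F) :
    ∃ A : SpecialLinearGroup (Fin (m + 1)) F, (A : Matrix (Fin (m + 1)) (Fin (m + 1)) F).charpoly =
      pol c := by
  obtain ⟨M, hM⟩ := exists_mat (pol c) (pol_monic c) (m + 1) (pol_natDegree c)
  refine ⟨⟨M, ?_⟩, hM⟩
  rw [det_eq_sign_charpoly_coeff, hM, Fintype.card_fin]
  have h := pol_coeff c 0
  rw [Fin.cons_zero] at h
  rw [show (0 : ℕ) = ((0 : Fin (m + 1)) : ℕ) from rfl, h, ← mul_pow]
  simp

theorem charpoly_conj {F : Type u} [Field F] {n : ℕ} {A B : SpecialLinearGroup (Fin n) F}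
    (h : IsConj (QuotientGroup.mk A : ProjectiveSpecialLinearGroup (Fin n) F)
      (QuotientGroup.mk B : ProjectiveSpecialLinearGroup (Fin n) F)) :
    ∃ r : F, r ^ n = 1 ∧ (B : Matrix (Fin n) (Fin n) F).charpoly =
      (r • (A : Matrix (Fin n) (Fin n) F)).charpoly := by
  obtain ⟨c, hc⟩ := isConj_iff.1 h
  obtain ⟨D, rfl⟩ := QuotientGroup.mk_surjective c
  have h1 : (QuotientGroup.mk (D * A * D⁻¹) : ProjectiveSpecialLinearGroup (Fin n) F) =
      QuotientGroup.mk B := hc
  rw [QuotientGroup.eq] at h1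
  obtain ⟨r, hr, hZ⟩ := Matrix.SpecialLinearGroup.mem_center_iff.1 h1
  rw [Fintype.card_fin] at hr
  refine ⟨r, hr, ?_⟩
  have h2 : B = (D * A * D⁻¹) * ((D * A * D⁻¹)⁻¹ * B) := by group
  have h3 : (B : Matrix (Fin n) (Fin n) F) = (D * A * D⁻¹ : SpecialLinearGroup (Fin n) F) *
      (((D * A * D⁻¹)⁻¹ * B : SpecialLinearGroup (Fin n) F) : Matrix (Fin n) (Fin n) F) := by
    rw [← Matrix.SpecialLinearGroup.coe_mul, ← h2]
  rw [← hZ] at h3
  have e : (Matrix.scalar (Fin n)) r = r • (1 : Matrix (Fin n) (Fin n) F) := by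
    ext i j
    simp [Matrix.scalar_apply, Matrix.diagonal_apply, Matrix.one_apply]
  have h4 : (B : Matrix (Fin n) (Fin n) F) = (D : Matrix (Fin n) (Fin n) F) *
      (r • (A : Matrix (Fin n) (Fin n) F)) * ((D⁻¹ : SpecialLinearGroup (Fin n) F) :
        Matrix (Fin n) (Fin n) F) := by
    rw [h3, e, Matrix.mul_smul, mul_one, Matrix.SpecialLinearGroup.coe_mul,
      Matrix.SpecialLinearGroup.coe_mul, Matrix.mul_smul, Matrix.smul_mul]
  have h5 : ((D⁻¹ : SpecialLinearGroup (Fin n) F) : Matrix (Fin n) (Fin n) F) *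
      (D : Matrix (Fin n) (Fin n) F) = 1 := by
    rw [← Matrix.SpecialLinearGroup.coe_mul, inv_mul_cancel, Matrix.SpecialLinearGroup.coe_one]
  rw [h4, Matrix.charpoly_mul_comm, ← mul_assoc, h5, one_mul]

theorem class_geN (n : ℕ) (hn : 1 ≤ n) (F : Type u) [Field F] [Finite F] :
    Nat.card F ^ (n - 1) ≤
      n * Nat.card (ConjClasses (Matrix.ProjectiveSpecialLinearGroup (Fin n) F)) := by
  classical
  obtain ⟨m, rfl⟩ : ∃ m, n = m + 1 := ⟨n - 1, by omega⟩
  rw [Nat.add_sub_cancel]
  have hfs : Finite (SpecialLinearGroup (Fin (m + 1)) F) := inferInstance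
  have hf : Finite (ProjectiveSpecialLinearGroup (Fin (m + 1)) F) := inferInstance
  have hfc : Finite (ConjClasses (ProjectiveSpecialLinearGroup (Fin (m + 1)) F)) := inferInstance
  cases nonempty_fintype F
  cases nonempty_fintype (ConjClasses (ProjectiveSpecialLinearGroup (Fin (m + 1)) F))
  have hcard : Nat.card F ^ m = (Finset.univ : Finset (Fin m → F)).card := by
    rw [Finset.card_univ, Fintype.card_fun, Fintype.card_fin, Nat.card_eq_fintype_card]
  rw [hcard, Nat.card_eq_fintype_card, ← Finset.card_univ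
    (α := ConjClasses (ProjectiveSpecialLinearGroup (Fin (m + 1)) F))]
  choose A hA using fun c : Fin m → F => exists_sl c
  refine Finset.card_le_mul_card_image_of_maps_to
    (f := fun c : Fin m → F => ConjClasses.mk
      (QuotientGroup.mk (A c) : ProjectiveSpecialLinearGroup (Fin (m + 1)) F))
    (fun _ _ => Finset.mem_univ _) (m + 1) ?_
  intro b _
  rcases (Finset.univ.filter (fun c : Fin m → F => ConjClasses.mk
    (QuotientGroup.mk (A c) : ProjectiveSpecialLinearGroup (Fin (m + 1)) F) = b)).eq_empty_or_nonempty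
    with h | ⟨x, hx⟩
  · rw [h]
    simp
  · rw [Finset.mem_filter] at hx
    have key : ∀ c : Fin m → F, c ∈ Finset.univ.filter (fun c : Fin m → F => ConjClasses.mk
        (QuotientGroup.mk (A c) : ProjectiveSpecialLinearGroup (Fin (m + 1)) F) = b) →
        ∃ r : F, r ^ (m + 1) = 1 ∧ pol c =
          (r • (A x : Matrix (Fin (m + 1)) (Fin (m + 1)) F)).charpoly := by
      intro c hc
      rw [Finset.mem_filter] at hc
      obtain ⟨r, hr, h⟩ := charpoly_conj (ConjClasses.mk_eq_mk_iff_isConj.1 (hx.2.trans hc.2.symm))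
      exact ⟨r, hr, by rw [← h, hA]⟩
    have h1 : (Polynomial.nthRoots (m + 1) (1 : F)).toFinset.card ≤ m + 1 :=
      (Multiset.toFinset_card_le _).trans (Polynomial.card_nthRoots _ _)
    refine le_trans ?_ h1
    let g : (Fin m → F) → F := fun c =>
      if h : ∃ r : F, r ^ (m + 1) = 1 ∧ pol c =
          (r • (A x : Matrix (Fin (m + 1)) (Fin (m + 1)) F)).charpoly then h.choose else 0
    apply Finset.card_le_card_of_injOn g
    · intro c hc
      have h := key c hc
      have hg : g c = h.choose := dif_pos h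
      rw [hg, Finset.mem_coe, Multiset.mem_toFinset, Polynomial.mem_nthRoots (Nat.succ_pos m)]
      exact h.choose_spec.1
    · intro c hc d hd hcd
      have h := key c hc
      have h' := key d hd
      have hg : g c = h.choose := dif_pos h
      have hg' : g d = h'.choose := dif_pos h'
      apply pol_inj
      rw [h.choose_spec.2, h'.choose_spec.2, ← hg, ← hg', hcd]

end PLN.S40
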