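import Pool.Agent.PLN.Defs
import Pool.Agent.PLN.ClsS40

/-!
# PLN/ClsN (STUB): conjugacy classes
-/

set_option autoImplicit false

namespace PLN

open Matrix

universe u

/-- PROOF. The characteristic polynomials of elements of `SL (n, F)` are all monic polynomials of degree `n` with constant term `(-1) ^ n` (companion matrices): `q ^ (n - 1)`; an element
of `PS n F` has at most `n` of them (scalars `z` with `z ^ n = 1`). -/
theorem class_ge {n : ℕ} (hn : 1 ≤ n) (F : Type u) [Field F] [Finite F] :
    Nat.card F ^ (n - 1) ≤ n * Nat.card (ConjClasses (PS n F)) :=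
  S40.class_geN n hn F

end PLN
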