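import Pool.Agent.PLN.CombS12

/-!
# PLN/Comb : combinatorics of points and hyperplanes
-/

set_option autoImplicit false

namespace PLN

open Matrix

universe u

/-- PROOF. Different flags do not share both. For different `x`, `y` with a common point, `Φ x`, `Φ y` share the point or the hyperplane, not both; for three flags on a point the
answer is the same for the three pairs; so every point `p` has a type (point or hyperplane), and every hyperplane too. If `p` on `h` had the same type as `h`, take flags `(p, h1)`,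
`(p2, h)` with `h1 ≠ h`, `p2 ≠ p`: their images share the point (or hyperplane) of `Φ (p, h)`, so they are adjacent, contradiction. So the type of `p` determines the type of all `h` on
`p`; with `h1`, `h2` all types are equal. The reverse implications: adjacency and injectivity. -/
theorem comb {P H : Type u} (I : P → H → Prop)
    (h1 : ∀ p q : P, ∃ h, I p h ∧ I q h) (h2 : ∀ h k : H, ∃ p, I p h ∧ I p k)
    (h3 : ∀ p : P, ∃ a b c : H, a ≠ b ∧ a ≠ c ∧ b ≠ c ∧ I p a ∧ I p b ∧ I p c)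
    (h4 : ∀ h : H, ∃ a b c : P, a ≠ b ∧ a ≠ c ∧ b ≠ c ∧ I a h ∧ I b h ∧ I c h)
    (Φ : {y : P × H // I y.1 y.2} → {y : P × H // I y.1 y.2}) (hΦ : Function.Injective Φ)
    (hadj : ∀ y z, (y.1.1 = z.1.1 ∨ y.1.2 = z.1.2) ↔
      ((Φ y).1.1 = (Φ z).1.1 ∨ (Φ y).1.2 = (Φ z).1.2)) :
    (∀ y z, (y.1.1 = z.1.1 ↔ (Φ y).1.1 = (Φ z).1.1) ∧ (y.1.2 = z.1.2 ↔ (Φ y).1.2 = (Φ z).1.2)) ∨
    (∀ y z, (y.1.1 = z.1.1 ↔ (Φ y).1.2 = (Φ z).1.2) ∧
      (y.1.2 = z.1.2 ↔ (Φ y).1.1 = (Φ z).1.1)) :=
  S12.comb I h1 h2 h3 h4 Φ hΦ hadj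

end PLN
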