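import Mathlib

/-!
# Combinatorics of points and hyperplanes
-/

set_option autoImplicit false

namespace PLN.S12

universe u

theorem comb {P H : Type u} (I : P → H → Prop)
    (h1 : ∀ p q : P, ∃ h, I p h ∧ I q h) (_h2 : ∀ h k : H, ∃ p, I p h ∧ I p k)
    (h3 : ∀ p : P, ∃ a b c : H, a ≠ b ∧ a ≠ c ∧ b ≠ c ∧ I p a ∧ I p b ∧ I p c)
    (h4 : ∀ h : H, ∃ a b c : P, a ≠ b ∧ a ≠ c ∧ b ≠ c ∧ I a h ∧ I b h ∧ I c h)
    (Φ : {y : P × H // I y.1 y.2} → {y : P × H // I y.1 y.2}) (hΦ : Function.Injective Φ)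
    (hadj : ∀ y z, (y.1.1 = z.1.1 ∨ y.1.2 = z.1.2) ↔
      ((Φ y).1.1 = (Φ z).1.1 ∨ (Φ y).1.2 = (Φ z).1.2)) :
    (∀ y z, (y.1.1 = z.1.1 ↔ (Φ y).1.1 = (Φ z).1.1) ∧ (y.1.2 = z.1.2 ↔ (Φ y).1.2 = (Φ z).1.2)) ∨
    (∀ y z, (y.1.1 = z.1.1 ↔ (Φ y).1.2 = (Φ z).1.2) ∧
      (y.1.2 = z.1.2 ↔ (Φ y).1.1 = (Φ z).1.1)) := by
  classical
  have hext : ∀ y z : {y : P × H // I y.1 y.2}, y.1.1 = z.1.1 → y.1.2 = z.1.2 → y = z :=
    fun y z a b => Subtype.ext (Prod.ext a b)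
  have hinj : ∀ y z, (Φ y).1.1 = (Φ z).1.1 → (Φ y).1.2 = (Φ z).1.2 → y = z :=
    fun y z a b => hΦ (hext _ _ a b)
  -- other flags on the same point, on the same hyperplane
  have hp : ∀ y : {y : P × H // I y.1 y.2}, ∃ z : {y : P × H // I y.1 y.2},
      z.1.1 = y.1.1 ∧ z.1.2 ≠ y.1.2 := by
    intro y
    obtain ⟨a, b, _, hab, _, _, ha, hb, _⟩ := h3 y.1.1
    by_cases h : a = y.1.2
    · exact ⟨⟨(y.1.1, b), hb⟩, rfl, fun h' => hab (h.trans h'.symm)⟩
    · exact ⟨⟨(y.1.1, a), ha⟩, rfl, h⟩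
  have hh : ∀ y : {y : P × H // I y.1 y.2}, ∃ z : {y : P × H // I y.1 y.2},
      z.1.2 = y.1.2 ∧ z.1.1 ≠ y.1.1 := by
    intro y
    obtain ⟨a, b, _, hab, _, _, ha, hb, _⟩ := h4 y.1.2
    by_cases h : a = y.1.1
    · exact ⟨⟨(b, y.1.2), hb⟩, rfl, fun h' => hab (h.trans h'.symm)⟩
    · exact ⟨⟨(a, y.1.2), ha⟩, rfl, h⟩
  let S : {y : P × H // I y.1 y.2} → Prop := fun y => ∀ z, z.1.1 = y.1.1 → (Φ z).1.1 = (Φ y).1.1
  let S' : {y : P × H // I y.1 y.2} → Prop := fun y => ∀ z, z.1.1 = y.1.1 → (Φ z).1.2 = (Φ y).1.2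
  let R : {y : P × H // I y.1 y.2} → Prop := fun y => ∀ z, z.1.2 = y.1.2 → (Φ z).1.2 = (Φ y).1.2
  let R' : {y : P × H // I y.1 y.2} → Prop := fun y => ∀ z, z.1.2 = y.1.2 → (Φ z).1.1 = (Φ y).1.1
  have hSS : ∀ y, S y ∨ S' y := by
    intro y
    by_contra hcon
    rw [not_or] at hcon
    obtain ⟨hc1, hc2⟩ := hcon
    obtain ⟨z, hz, hz'⟩ : ∃ z, z.1.1 = y.1.1 ∧ (Φ z).1.1 ≠ (Φ y).1.1 := by
      by_contra h
      push Not at h
      exact hc1 h
    obtain ⟨w, hw, hw'⟩ : ∃ w, w.1.1 = y.1.1 ∧ (Φ w).1.2 ≠ (Φ y).1.2 := by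
      by_contra h
      push Not at h
      exact hc2 h
    have e1 := ((hadj z y).1 (Or.inl hz)).resolve_left hz'
    have e2 := ((hadj w y).1 (Or.inl hw)).resolve_right hw'
    rcases (hadj w z).1 (Or.inl (hw.trans hz.symm)) with h | h
    · exact hz' (h.symm.trans e2)
    · exact hw' (h.trans e1)
  have hRR : ∀ y, R y ∨ R' y := by
    intro y
    by_contra hcon
    rw [not_or] at hcon
    obtain ⟨hc1, hc2⟩ := hcon
    obtain ⟨z, hz, hz'⟩ : ∃ z, z.1.2 = y.1.2 ∧ (Φ z).1.2 ≠ (Φ y).1.2 := by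
      by_contra h
      push Not at h
      exact hc1 h
    obtain ⟨w, hw, hw'⟩ : ∃ w, w.1.2 = y.1.2 ∧ (Φ w).1.1 ≠ (Φ y).1.1 := by
      by_contra h
      push Not at h
      exact hc2 h
    have e1 := ((hadj z y).1 (Or.inr hz)).resolve_right hz'
    have e2 := ((hadj w y).1 (Or.inr hw)).resolve_left hw'
    rcases (hadj w z).1 (Or.inr (hw.trans hz.symm)) with h | h
    · exact hw' (h.trans e1)
    · exact hz' (h.symm.trans e2)
  have hSS' : ∀ y, S y → S' y → False := by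
    intro y a b
    obtain ⟨z, hz, hz'⟩ := hp y
    have := hinj z y (a z hz) (b z hz)
    exact hz' (by rw [this])
  have hRR' : ∀ y, R y → R' y → False := by
    intro y a b
    obtain ⟨z, hz, hz'⟩ := hh y
    have := hinj z y (b z hz) (a z hz)
    exact hz' (by rw [this])
  have hSR' : ∀ y, S y → R' y → False := by
    intro y a b
    obtain ⟨z, hz, hz'⟩ := hp y
    obtain ⟨w, hw, hw'⟩ := hh y
    rcases (hadj z w).2 (Or.inl ((a z hz).trans (b w hw).symm)) with h | h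
    · exact hw' (h.symm.trans hz)
    · exact hz' (h.trans hw)
  have hS'R : ∀ y, S' y → R y → False := by
    intro y a b
    obtain ⟨z, hz, hz'⟩ := hp y
    obtain ⟨w, hw, hw'⟩ := hh y
    rcases (hadj z w).2 (Or.inr ((a z hz).trans (b w hw).symm)) with h | h
    · exact hw' (h.symm.trans hz)
    · exact hz' (h.trans hw)
  have hkind : ∀ y, (S y ∧ R y) ∨ (S' y ∧ R' y) := by
    intro y
    rcases hSS y with a | a
    · rcases hRR y with b | b
      · exact Or.inl ⟨a, b⟩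
      · exact (hSR' y a b).elim
    · rcases hRR y with b | b
      · exact (hS'R y a b).elim
      · exact Or.inr ⟨a, b⟩
  have hstepP : ∀ y z, z.1.1 = y.1.1 → S y → S z := by
    intro y z hz a w hw
    rw [a w (hw.trans hz), a z hz]
  have hstepR : ∀ y z, z.1.2 = y.1.2 → R y → R z := by
    intro y z hz a w hw
    rw [a w (hw.trans hz), a z hz]
  have hSR : ∀ y, S y → R y := by
    intro y a
    rcases hRR y with b | b
    · exact b
    · exact (hSR' y a b).elim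
  have hRS : ∀ y, R y → S y := by
    intro y a
    rcases hSS y with b | b
    · exact b
    · exact (hS'R y b a).elim
  have hall : ∀ y z, S y → S z := by
    intro y z a
    obtain ⟨l, hl, hl'⟩ := h1 y.1.1 z.1.1
    have a1 : S ⟨(y.1.1, l), hl⟩ := hstepP y _ rfl a
    have a2 : R ⟨(z.1.1, l), hl'⟩ := hstepR ⟨(y.1.1, l), hl⟩ _ rfl (hSR _ a1)
    exact hstepP ⟨(z.1.1, l), hl'⟩ z rfl (hRS _ a2)
  by_cases hex : ∃ y, S y
  · obtain ⟨y0, hy0⟩ := hex
    left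
    intro y z
    have a := hall y0 y hy0
    have b := hSR y a
    refine ⟨⟨fun h => (a z h.symm).symm, fun h => ?_⟩, ⟨fun h => (b z h.symm).symm, fun h => ?_⟩⟩
    · rcases (hadj y z).2 (Or.inl h) with h' | h'
      · exact h'
      · rw [hinj y z h (b z h'.symm).symm]
    · rcases (hadj y z).2 (Or.inr h) with h' | h'
      · rw [hinj y z (a z h'.symm).symm h]
      · exact h'
  · right
    push Not at hex
    intro y z
    obtain ⟨a, b⟩ := (hkind y).resolve_left (fun h => hex y h.1)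
    refine ⟨⟨fun h => (a z h.symm).symm, fun h => ?_⟩, ⟨fun h => (b z h.symm).symm, fun h => ?_⟩⟩
    · rcases (hadj y z).2 (Or.inr h) with h' | h'
      · exact h'
      · rw [hinj y z (b z h'.symm).symm h]
    · rcases (hadj y z).2 (Or.inl h) with h' | h'
      · rw [hinj y z h (a z h'.symm).symm]
      · exact h'

end PLN.S12
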