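import Mathlib

/-!
# PLN/CombS5: combinatorics of points and hyperplanes (helper5)

Two pairs `A`, `B` and `A'`, `B'` of equivalence relations on a set, two different elements are related
by at most one of `A`, `B` and by at most one of `A'`, `B'`, and `A ∨ B ↔ A' ∨ B'`.
-/

set_option autoImplicit false

namespace PLN.S5

universe u

/-- the classes of `A` have a type -/
theorem typ {Y : Type u} {A B A' B' : Y → Y → Prop} (eA : Equivalence A)
    (eA' : Equivalence A') (eB' : Equivalence B')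
    (hAB' : ∀ y z, A' y z → B' y z → y = z)
    (hadj : ∀ y z, (A y z ∨ B y z) ↔ (A' y z ∨ B' y z)) (y : Y)
    (hn : ¬ ∀ z, A y z → A' y z) : ∀ z, A y z → B' y z := by
  push Not at hn
  obtain ⟨w, hw, hw'⟩ := hn
  have hB : B' y w := ((hadj y w).1 (Or.inl hw)).resolve_left hw'
  intro z hz
  rcases (hadj y z).1 (Or.inl hz) with h | h
  · rcases (hadj w z).1 (Or.inl (eA.trans (eA.symm hw) hz)) with h' | h'
    · exact absurd (eA'.trans h (eA'.symm h')) hw'
    · have h5 : B' y z := eB'.trans hB h'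
      exact h5
  · exact h

theorem const {Y : Type u} {A A' : Y → Y → Prop} (eA : Equivalence A)
    (eA' : Equivalence A') {y w : Y} (hyw : A y w) (h : ∀ z, A y z → A' y z) :
    ∀ z, A w z → A' w z := fun z hz => eA'.trans (eA'.symm (h w hyw)) (h z (eA.trans hyw hz))

/-- a point and a hyperplane of the same flag have compatible types -/
theorem compat {Y : Type u} {A B A' B' : Y → Y → Prop} (eA : Equivalence A)
    (eB : Equivalence B) (eA' : Equivalence A') (eB' : Equivalence B')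
    (hAB : ∀ y z, A y z → B y z → y = z) (hAB' : ∀ y z, A' y z → B' y z → y = z)
    (hadj : ∀ y z, (A y z ∨ B y z) ↔ (A' y z ∨ B' y z))
    (h3 : ∀ y, ∃ z, A y z ∧ y ≠ z) (h4 : ∀ y, ∃ z, B y z ∧ y ≠ z) (y : Y)
    (h : ∀ z, A y z → A' y z) : ∀ z, B y z → B' y z := by
  by_contra hn
  have hB := typ (A := B) (B := A) (A' := B') (B' := A') eB eB' eA'
    (fun y z h1 h2 => hAB' y z h2 h1) (fun y z => (or_comm.trans (hadj y z)).trans or_comm) y hn
  obtain ⟨z, hz, hyz⟩ := h3 y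
  obtain ⟨w, hw, hyw⟩ := h4 y
  have h5 : A' z w := eA'.trans (eA'.symm (h z hz)) (hB w hw)
  rcases (hadj z w).2 (Or.inl h5) with h6 | h6
  · exact hyw (hAB y w (eA.trans hz h6) hw)
  · exact hyz (hAB y z hz (eB.trans hw (eB.symm h6)))

theorem same {Y : Type u} {A B A' B' : Y → Y → Prop} (eA : Equivalence A)
    (eB : Equivalence B)
    (hAB' : ∀ y z, A' y z → B' y z → y = z)
    (hadj : ∀ y z, (A y z ∨ B y z) ↔ (A' y z ∨ B' y z))
    (hA : ∀ y z, A y z → A' y z) (hB : ∀ y z, B y z → B' y z) :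
    (∀ y z, A y z ↔ A' y z) ∧ ∀ y z, B y z ↔ B' y z := by
  constructor
  · intro y z
    refine ⟨hA y z, fun h => ?_⟩
    rcases (hadj y z).2 (Or.inl h) with h1 | h1
    · exact h1
    · rw [hAB' y z h (hB y z h1)]
      exact eA.refl z
  · intro y z
    refine ⟨hB y z, fun h => ?_⟩
    rcases (hadj y z).2 (Or.inr h) with h1 | h1
    · rw [hAB' y z (hA y z h1) h]
      exact eB.refl z
    · exact h1

theorem abs_comb {Y : Type u} {A B A' B' : Y → Y → Prop} (eA : Equivalence A)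
    (eB : Equivalence B) (eA' : Equivalence A') (eB' : Equivalence B')
    (hAB : ∀ y z, A y z → B y z → y = z) (hAB' : ∀ y z, A' y z → B' y z → y = z)
    (hadj : ∀ y z, (A y z ∨ B y z) ↔ (A' y z ∨ B' y z))
    (h1 : ∀ y z, ∃ y' z', A y y' ∧ A z z' ∧ B y' z')
    (h3 : ∀ y, ∃ z, A y z ∧ y ≠ z) (h4 : ∀ y, ∃ z, B y z ∧ y ≠ z) :
    ((∀ y z, A y z ↔ A' y z) ∧ ∀ y z, B y z ↔ B' y z) ∨
      ((∀ y z, A y z ↔ B' y z) ∧ ∀ y z, B y z ↔ A' y z) := by
  have hadj' : ∀ y z, (B y z ∨ A y z) ↔ (B' y z ∨ A' y z) :=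
    fun y z => (or_comm.trans (hadj y z)).trans or_comm
  have c1 : ∀ y, (∀ z, A y z → A' y z) → ∀ z, B y z → B' y z :=
    compat eA eB eA' eB' hAB hAB' hadj h3 h4
  have c2 : ∀ y, (∀ z, B y z → B' y z) → ∀ z, A y z → A' y z :=
    compat (A := B) (B := A) (A' := B') (B' := A') eB eA eB' eA' (fun y z h5 h6 => hAB y z h6 h5)
      (fun y z h5 h6 => hAB' y z h6 h5) hadj' h4 h3
  have move : ∀ y z, (∀ w, A y w → A' y w) → ∀ w, A z w → A' z w := by
    intro y z h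
    obtain ⟨y', z', hy, hz, hyz⟩ := h1 y z
    have e1 := const eA eA' hy h
    have e2 := c1 y' e1
    have e3 := const eB eB' hyz e2
    have e4 := c2 z' e3
    exact const eA eA' (eA.symm hz) e4
  by_cases hs : ∃ y, ∀ z, A y z → A' y z
  · obtain ⟨y, hy⟩ := hs
    left
    have hA : ∀ z w, A z w → A' z w := fun z => move y z hy
    exact same eA eB hAB' hadj hA fun z => c1 z (hA z)
  · right
    push Not at hs
    have hA : ∀ y z, A y z → B' y z := by
      intro y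
      refine typ (B := B) eA eA' eB' hAB' hadj y ?_
      intro h
      obtain ⟨z, hz, hz'⟩ := hs y
      exact hz' (h z hz)
    have hB : ∀ y z, B y z → A' y z := by
      intro y
      refine typ (A := B) (B := A) (A' := B') (B' := A') eB eB' eA' (fun y z h5 h6 => hAB' y z h6 h5)
        hadj' y ?_
      intro h
      obtain ⟨z, hz, hz'⟩ := hs y
      exact hz' (c2 y h z hz)
    exact same (A' := B') (B' := A') eA eB (fun y z h5 h6 => hAB' y z h6 h5)
      (fun y z => (hadj y z).trans or_comm) hA hB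

theorem comb {P H : Type u} (I : P → H → Prop)
    (h1 : ∀ p q : P, ∃ h, I p h ∧ I q h) (h2 : ∀ h k : H, ∃ p, I p h ∧ I p k)
    (h3 : ∀ p : P, ∃ a b c : H, a ≠ b ∧ a ≠ c ∧ b ≠ c ∧ I p a ∧ I p b ∧ I p c)
    (h4 : ∀ h : H, ∃ a b c : P, a ≠ b ∧ a ≠ c ∧ b ≠ c ∧ I a h ∧ I b h ∧ I c h)
    (Φ : {y : P × H // I y.1 y.2} → {y : P × H // I y.1 y.2}) (hΦ : Function.Injective Φ)
    (hadj : ∀ y z, (y.1.1 = z.1.1 ∨ y.1.2 = z.1.2) ↔
      ((Φ y).1.1 = (Φ z).1.1 ∨ (Φ y).1.2 = (Φ z).1.2)) :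
    (∀ y z, (y.1.1 = z.1.1 ↔ (Φ y).1.1 = (Φ z).1.1) ∧ (y.1.2 = z.1.2 ↔ (Φ y).1.2 = (Φ z).1.2)) ∨
    (∀ y z, (y.1.1 = z.1.1 ↔ (Φ y).1.2 = (Φ z).1.2) ∧
      (y.1.2 = z.1.2 ↔ (Φ y).1.1 = (Φ z).1.1)) := by
  have ext : ∀ y z : {y : P × H // I y.1 y.2}, y.1.1 = z.1.1 → y.1.2 = z.1.2 → y = z :=
    fun y z e1 e2 => Subtype.ext (Prod.ext e1 e2)
  have key := abs_comb (Y := {y : P × H // I y.1 y.2})
    (A := fun y z => y.1.1 = z.1.1) (B := fun y z => y.1.2 = z.1.2)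
    (A' := fun y z => (Φ y).1.1 = (Φ z).1.1) (B' := fun y z => (Φ y).1.2 = (Φ z).1.2)
    ⟨fun _ => rfl, fun h => h.symm, fun h h' => h.trans h'⟩
    ⟨fun _ => rfl, fun h => h.symm, fun h h' => h.trans h'⟩
    ⟨fun _ => rfl, fun h => h.symm, fun h h' => h.trans h'⟩
    ⟨fun _ => rfl, fun h => h.symm, fun h h' => h.trans h'⟩
    ext (fun y z e1 e2 => hΦ (ext _ _ e1 e2)) hadj
    (by
      intro y z
      obtain ⟨h, hy, hz⟩ := h1 y.1.1 z.1.1
      exact ⟨⟨(y.1.1, h), hy⟩, ⟨(z.1.1, h), hz⟩, rfl, rfl, rfl⟩)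
    (by
      intro y
      obtain ⟨a, b, c, hab, -, -, ha, hb, -⟩ := h3 y.1.1
      by_cases e : a = y.1.2
      · refine ⟨⟨(y.1.1, b), hb⟩, rfl, fun h => hab ?_⟩
        rw [e]
        exact congrArg (fun w : {y : P × H // I y.1 y.2} => w.1.2) h
      · refine ⟨⟨(y.1.1, a), ha⟩, rfl, fun h => e ?_⟩
        exact (congrArg (fun w : {y : P × H // I y.1 y.2} => w.1.2) h).symm)
    (by
      intro y
      obtain ⟨a, b, c, hab, -, -, ha, hb, -⟩ := h4 y.1.2
      by_cases e : a = y.1.1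
      · refine ⟨⟨(b, y.1.2), hb⟩, rfl, fun h => hab ?_⟩
        rw [e]
        exact congrArg (fun w : {y : P × H // I y.1 y.2} => w.1.1) h
      · refine ⟨⟨(a, y.1.2), ha⟩, rfl, fun h => e ?_⟩
        exact (congrArg (fun w : {y : P × H // I y.1 y.2} => w.1.1) h).symm)
  rcases key with ⟨k1, k2⟩ | ⟨k1, k2⟩
  · exact Or.inl fun y z => ⟨k1 y z, k2 y z⟩
  · exact Or.inr fun y z => ⟨k1 y z, k2 y z⟩

end PLN.S5
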