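import Mathlib

/-!
# PLN/Defs: transvections in the projective special linear group
-/

set_option autoImplicit false

namespace PLN

open Matrix

universe u

/-- The group `SL (n, F)`. -/
abbrev GS (n : ℕ) (F : Type u) [Field F] : Type u := Matrix.SpecialLinearGroup (Fin n) F

/-- The group `PSL (n, F)`. -/
abbrev PS (n : ℕ) (F : Type u) [Field F] : Type u := Matrix.ProjectiveSpecialLinearGroup (Fin n) F

section

variable {n : ℕ} {F : Type u} [Field F]

theorem det_tr {v φ : Fin n → F} (h : φ ⬝ᵥ v = 0) : (1 + vecMulVec v φ).det = 1 := by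
  rw [vecMulVec_eq Unit, det_one_add_replicateCol_mul_replicateRow, h, add_zero]

/-- the transvection `1 + v φᵀ` (if `φ v = 0`) -/
noncomputable def tM (v φ : Fin n → F) : GS n F := by
  classical
  exact if h : φ ⬝ᵥ v = 0 then ⟨1 + vecMulVec v φ, det_tr h⟩ else 1

/-- image of a transvection -/
noncomputable def t (v φ : Fin n → F) : PS n F := QuotientGroup.mk (tM v φ)

/-- image of the elementary matrix `1 + c E i j` (for `i ≠ j`) -/
noncomputable def x (i j : Fin n) (c : F) : PS n F := t (c • Pi.single i 1) (Pi.single j 1)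

/-- a point and a hyperplane that contains it -/
def Flag (v φ : Fin n → F) : Prop := v ≠ 0 ∧ φ ≠ 0 ∧ φ ⬝ᵥ v = 0

/-- parallel vectors -/
def Par (v w : Fin n → F) : Prop := ∃ c : F, c ≠ 0 ∧ w = c • v

/-- `α` maps the transvection group of `(v, φ)` to the one of `(w, ψ)` -/
def Img (α : MulAut (PS n F)) (v φ w ψ : Fin n → F) : Prop := ∀ c : F, ∃ d : F, α (t (c • v) φ) = t (d • w) ψ

/-- `α` preserves the types of points and hyperplanes -/
def Pres (α : MulAut (PS n F)) : Prop := ∀ v φ w ψ v' φ' w' ψ' : Fin n → F, Flag v φ → Flag w ψ →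
  Flag v' φ' → Flag w' ψ' → Img α v φ w ψ → Img α v' φ' w' ψ' →
  (Par v v' ↔ Par w w') ∧ (Par φ φ' ↔ Par ψ ψ')

/-- `α` interchanges the types of points and hyperplanes -/
def Swap (α : MulAut (PS n F)) : Prop := ∀ v φ w ψ v' φ' w' ψ' : Fin n → F, Flag v φ → Flag w ψ →
  Flag v' φ' → Flag w' ψ' → Img α v φ w ψ → Img α v' φ' w' ψ' →
  (Par v v' ↔ Par ψ ψ') ∧ (Par φ φ' ↔ Par w w')

/-- upper unitriangular matrices -/
def UT (g : GS n F) : Prop := (∀ i, g.1 i i = 1) ∧ ∀ i j, j < i → g.1 i j = 0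

/-- `α` maps every elementary group `X i j` to itself -/
def Good (α : MulAut (PS n F)) : Prop := ∀ i j : Fin n, i ≠ j → ∀ c, ∃ d, α (x i j c) = x i j d

end

end PLN
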