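import Pool.Agent.PLN.Tr

/-!
# PLN/DiagS14: diagonal automorphisms (helper14)
-/

set_option autoImplicit false

namespace PLN.S14

open Matrix PLN

universe u

variable {n : ℕ} {F : Type u} [Field F]

theorem det_diag (a : Fin n → Fˣ) (ha : ∏ i, a i = 1) :
    (Matrix.diagonal (fun i => (a i : F))).det = 1 := by
  rw [Matrix.det_diagonal]
  have h : ((∏ i, a i : Fˣ) : F) = ((1 : Fˣ) : F) := by rw [ha]
  rwa [Units.coe_prod, Units.val_one] at h

/-- the diagonal matrix of determinant 1 -/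
def dM (a : Fin n → Fˣ) (ha : ∏ i, a i = 1) : GS n F :=
  ⟨Matrix.diagonal (fun i => (a i : F)), det_diag a ha⟩

theorem dM_inv (a : Fin n → Fˣ) (ha : ∏ i, a i = 1) :
    ((dM a ha)⁻¹).1 = Matrix.diagonal (fun i => (((a i)⁻¹ : Fˣ) : F)) := by
  have hb : ∏ i, (a i)⁻¹ = 1 := by rw [Finset.prod_inv_distrib, ha, inv_one]
  have h : (dM a ha)⁻¹ = dM (fun i => (a i)⁻¹) hb := by
    apply inv_eq_of_mul_eq_one_right
    apply Subtype.ext
    show Matrix.diagonal (fun i => (a i : F)) * Matrix.diagonal (fun i => (((a i)⁻¹ : Fˣ) : F)) = 1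
    rw [Matrix.diagonal_mul_diagonal, ← Matrix.diagonal_one]
    congr 1
    funext i
    exact Units.mul_inv (a i)
  rw [h]
  rfl

theorem dM_conj (a : Fin n → Fˣ) (ha : ∏ i, a i = 1) {i j : Fin n} (hij : i ≠ j) (c : F) :
    (QuotientGroup.mk (dM a ha) : PS n F) * x i j c * (QuotientGroup.mk (dM a ha))⁻¹ =
      x i j (((a i * (a j)⁻¹ : Fˣ) : F) * c) := by
  have h0 : ∀ d : F, (Pi.single j 1 : Fin n → F) ⬝ᵥ (d • (Pi.single i 1 : Fin n → F)) = 0 := by
    intro d
    rw [dotProduct_smul, single_dotProduct, Pi.single_eq_of_ne (Ne.symm hij)]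
    simp
  unfold x
  rw [t_conj (dM a ha) (h0 c), dM_inv]
  have h1 : (dM a ha).1 *ᵥ (c • (Pi.single i 1 : Fin n → F)) =
      ((a i : F) * c) • (Pi.single i 1 : Fin n → F) := by
    funext k
    show ((Matrix.diagonal (fun i => (a i : F))) *ᵥ (c • (Pi.single i 1 : Fin n → F))) k = _
    rw [Matrix.mulVec_diagonal]
    by_cases hk : k = i
    · subst hk
      simp
    · simp [Pi.single_eq_of_ne hk]
  have h2 : (Pi.single j 1 : Fin n → F) ᵥ* Matrix.diagonal (fun i => (((a i)⁻¹ : Fˣ) : F)) =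
      (((a j)⁻¹ : Fˣ) : F) • (Pi.single j 1 : Fin n → F) := by
    funext k
    rw [Matrix.vecMul_diagonal]
    by_cases hk : k = j
    · subst hk
      simp
    · simp [Pi.single_eq_of_ne hk]
  rw [h1, h2, ← t_smul _ (h0 _), smul_smul]
  congr 2
  rw [Units.val_mul]
  ring

theorem diag_adjust (hn : 1 ≤ n) (R : Finset Fˣ) (hR : ∀ c : Fˣ, ∃ k : Fˣ, ∃ r ∈ R, c = k ^ n * r)
    (μ : Fin n → Fˣ) : ∃ s : PS n F, ∃ r ∈ R, ∀ i j : Fin n, i ≠ j → ∀ c : F,
      s * x i j (((μ i * (μ j)⁻¹ : Fˣ) : F) * c) * s⁻¹ =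
        x i j ((((if (i : ℕ) = 0 then r else 1) * (if (j : ℕ) = 0 then r else 1)⁻¹ : Fˣ) : F) * c) := by
  obtain ⟨k, r, hr, hk⟩ := hR (∏ i, μ i)
  have ha : ∏ i : Fin n, (k * (if (i : ℕ) = 0 then r else 1) * (μ i)⁻¹) = 1 := by
    rw [Finset.prod_mul_distrib, Finset.prod_mul_distrib, Finset.prod_inv_distrib,
      Finset.prod_const, Finset.card_univ, Fintype.card_fin]
    have h1 : ∏ i : Fin n, (if (i : ℕ) = 0 then r else 1) = r := by
      rw [Finset.prod_eq_single (⟨0, hn⟩ : Fin n)]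
      · simp
      · intro b _ hb
        rw [if_neg]
        intro h
        exact hb (Fin.ext h)
      · intro h
        exact absurd (Finset.mem_univ _) h
    rw [h1, ← hk, mul_inv_cancel]
  refine ⟨QuotientGroup.mk (dM _ ha), r, hr, fun i j hij c => ?_⟩
  rw [dM_conj _ ha hij, ← mul_assoc, ← Units.val_mul]
  congr 3
  generalize (if (i : ℕ) = 0 then r else 1) = ν
  generalize (if (j : ℕ) = 0 then r else 1) = ν'
  generalize μ i = m
  generalize μ j = m'
  apply Units.ext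
  have h1 := k.ne_zero
  have h2 := m.ne_zero
  have h3 := m'.ne_zero
  have h4 := ν'.ne_zero
  simp only [Units.val_mul, Units.val_inv_eq_inv_val, mul_inv, inv_inv]
  field_simp

end PLN.S14
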