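import Mathlib

/-!
# PLN/DiagS34: the units of a finite field modulo `n`-th powers (helper34)
-/

set_option autoImplicit false

namespace PLN.S34

universe u

variable {n : ℕ} {F : Type u} [Field F]

theorem pow_rep [Finite F] (hn : 1 ≤ n) : ∃ R : Finset Fˣ, R.card ≤ n ∧
    ∀ c : Fˣ, ∃ k : Fˣ, ∃ r ∈ R, c = k ^ n * r := by
  classical
  have : Finite Fˣ := inferInstance
  obtain ⟨g, hg⟩ := IsCyclic.exists_generator (α := Fˣ)
  refine ⟨(Finset.range n).image (fun m => g ^ m), ?_, fun c => ?_⟩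
  · exact le_trans Finset.card_image_le (by simp)
  · have h1 : c ∈ Submonoid.powers g := mem_powers_iff_mem_zpowers.2 (hg c)
    obtain ⟨m, hm⟩ := h1
    have hm' : g ^ m = c := hm
    refine ⟨g ^ (m / n), g ^ (m % n),
      Finset.mem_image.2 ⟨m % n, Finset.mem_range.2 (Nat.mod_lt _ hn), rfl⟩, ?_⟩
    rw [← pow_mul, ← pow_add, mul_comm (m / n) n, Nat.div_add_mod, hm']

end PLN.S34
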