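import Pool.Agent.PLN.Tr
import Pool.Agent.PLN.DiagS14
import Pool.Agent.PLN.DiagS34

/-!
# PLN/Diag (STUB): diagonal automorphisms
-/

set_option autoImplicit false

namespace PLN

open Matrix

universe u

variable {n : ℕ} {F : Type u} [Field F]

theorem pow_rep [Finite F] (hn : 1 ≤ n) : ∃ R : Finset Fˣ, R.card ≤ n ∧
    ∀ c : Fˣ, ∃ k : Fˣ, ∃ r ∈ R, c = k ^ n * r := S34.pow_rep hn

/-- PROOF. `∏ μ i = k ^ n * r`; `s` = image of the diagonal matrix with entries `a i = k * ν i / μ i`, of determinant 1. -/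
theorem diag_adjust (hn : 1 ≤ n) (R : Finset Fˣ) (hR : ∀ c : Fˣ, ∃ k : Fˣ, ∃ r ∈ R, c = k ^ n * r)
    (μ : Fin n → Fˣ) : ∃ s : PS n F, ∃ r ∈ R, ∀ i j : Fin n, i ≠ j → ∀ c : F,
      s * x i j (((μ i * (μ j)⁻¹ : Fˣ) : F) * c) * s⁻¹ =
        x i j ((((if (i : ℕ) = 0 then r else 1) * (if (j : ℕ) = 0 then r else 1)⁻¹ : Fˣ) : F) * c) :=
  S14.diag_adjust hn R hR μ

end PLN
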