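import Pool.Agent.PLN.Perm

/-!
# PLN/DichS19: the quotient of two automorphisms that interchange the types (helper19)
-/

set_option autoImplicit false

namespace PLN.S19

open Matrix

universe u

variable {n : ℕ} {F : Type u} [Field F]

theorem t_smul_inj (hn : 3 ≤ n) {v φ : Fin n → F} (h : Flag v φ) {c d : F}
    (e : t (c • v) φ = t (d • v) φ) : c = d := by
  obtain ⟨hv, hφ, h0⟩ := h
  have h1 := t_inj hn (by rw [dotProduct_smul, h0, smul_zero])
    (by rw [dotProduct_smul, h0, smul_zero]) e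
  obtain ⟨i, hi⟩ := Function.ne_iff.1 hv
  obtain ⟨j, hj⟩ := Function.ne_iff.1 hφ
  have h2 := congrFun (congrFun h1 i) j
  simp only [vecMulVec_apply, Pi.smul_apply, smul_eq_mul] at h2
  exact mul_right_cancel₀ hi (mul_right_cancel₀ hj h2)

theorem img_of_mul [Finite F] (hn : 3 ≤ n) {α β : MulAut (PS n F)} {v φ w ψ a θ : Fin n → F}
    (h : Flag v φ) (h1 : Img (β⁻¹ * α) v φ w ψ) (h2 : Img α v φ a θ) : Img β w ψ a θ := by
  choose d hd using h1
  have hinj : Function.Injective d := by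
    intro c c' e
    apply t_smul_inj hn h
    apply (β⁻¹ * α).injective
    rw [hd, hd, e]
  have hsurj : Function.Surjective d := Finite.injective_iff_surjective.1 hinj
  intro c'
  obtain ⟨c, rfl⟩ := hsurj c'
  obtain ⟨e, he⟩ := h2 c
  refine ⟨e, ?_⟩
  rw [← hd, ← he, MulAut.mul_apply, MulAut.apply_inv_self]

theorem swap_mul [Finite F] (hn : 3 ≤ n) {α β : MulAut (PS n F)} (hα : Swap α) (hβ : Swap β) :
    Pres (β⁻¹ * α) := by
  intro v φ w ψ v' φ' w' ψ' hv hw hv' hw' h1 h2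
  obtain ⟨a, θ, ha, h3⟩ := perm hn α hv
  obtain ⟨a', θ', ha', h4⟩ := perm hn α hv'
  have h5 := img_of_mul hn hv h1 h3
  have h6 := img_of_mul hn hv' h2 h4
  have h7 := hα v φ a θ v' φ' a' θ' hv ha hv' ha' h3 h4
  have h8 := hβ w ψ a θ w' ψ' a' θ' hw ha hw' ha' h5 h6
  exact ⟨h7.1.trans h8.1.symm, h7.2.trans h8.2.symm⟩

end PLN.S19
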