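import Pool.Agent.PLN.Perm
import Pool.Agent.PLN.Adj
import Pool.Agent.PLN.Comb

set_option autoImplicit false

namespace PLN.S26

open Matrix

universe u

variable {n : ℕ} {F : Type u} [Field F]

theorem par_refl (v : Fin n → F) : Par v v := ⟨1, one_ne_zero, by rw [one_smul]⟩

theorem par_symm {v w : Fin n → F} (h : Par v w) : Par w v := by
  obtain ⟨c, hc, rfl⟩ := h
  exact ⟨c⁻¹, inv_ne_zero hc, by rw [smul_smul, inv_mul_cancel₀ hc, one_smul]⟩

theorem par_trans {v w z : Fin n → F} (h : Par v w) (h' : Par w z) : Par v z := by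
  obtain ⟨c, hc, rfl⟩ := h
  obtain ⟨d, hd, rfl⟩ := h'
  exact ⟨d * c, mul_ne_zero hd hc, by rw [smul_smul]⟩

theorem par_iff {v w : Fin n → F} (hv : v ≠ 0) (hw : w ≠ 0) :
    Par v w ↔ Projectivization.mk F v hv = Projectivization.mk F w hw := by
  rw [Projectivization.mk_eq_mk_iff']
  constructor
  · rintro ⟨c, hc, rfl⟩
    exact ⟨c⁻¹, by rw [smul_smul, inv_mul_cancel₀ hc, one_smul]⟩
  · rintro ⟨a, ha⟩
    have ha0 : a ≠ 0 := by
      rintro rfl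
      exact hv (by rw [← ha, zero_smul])
    exact ⟨a⁻¹, inv_ne_zero ha0, by rw [← ha, smul_smul, inv_mul_cancel₀ ha0, one_smul]⟩

theorem flag_par {v φ v' φ' : Fin n → F} (h : Flag v φ) (h1 : Par v v') (h2 : Par φ φ') :
    Flag v' φ' := by
  obtain ⟨a, ha, rfl⟩ := h1
  obtain ⟨b, hb, rfl⟩ := h2
  refine ⟨smul_ne_zero ha h.1, smul_ne_zero hb h.2.1, ?_⟩
  rw [smul_dotProduct, dotProduct_smul, h.2.2, smul_zero, smul_zero]

theorem flag_smul {v φ : Fin n → F} {c : F} (hc : c ≠ 0) (h : Flag v φ) : Flag (c • v) φ :=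
  flag_par h ⟨c, hc, rfl⟩ (par_refl φ)

theorem uniq (hn : 3 ≤ n) {α : MulAut (PS n F)} {v φ w ψ w' ψ' : Fin n → F} (h : Flag v φ)
    (hw : Flag w ψ) (hw' : Flag w' ψ') (e : Img α v φ w ψ) (e' : Img α v φ w' ψ') :
    Par w w' ∧ Par ψ ψ' := by
  obtain ⟨d, hd⟩ := e 1
  obtain ⟨d', hd'⟩ := e' 1
  have hne : t v φ ≠ 1 := t_ne_one hn h
  rw [one_smul] at hd hd'
  have hne' : α (t v φ) ≠ 1 := by
    intro h1
    apply hne
    apply α.injective
    rw [h1, map_one]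
  have hd0 : d ≠ 0 := by
    rintro rfl
    rw [zero_smul, t_zero] at hd
    exact hne' hd
  have hd'0 : d' ≠ 0 := by
    rintro rfl
    rw [zero_smul, t_zero] at hd'
    exact hne' hd'
  have h2 := t_inj_par hn (flag_smul hd0 hw) (flag_smul hd'0 hw') (hd.symm.trans hd')
  exact ⟨par_trans ⟨d, hd0, rfl⟩ (par_trans h2.1 (par_symm ⟨d', hd'0, rfl⟩)), h2.2⟩

theorem t_par {v φ v' φ' : Fin n → F} (h : φ ⬝ᵥ v = 0) (hv : Par v v') (hφ : Par φ φ') (c : F) :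
    ∃ d : F, t (c • v') φ' = t (d • v) φ := by
  obtain ⟨a, _, rfl⟩ := hv
  obtain ⟨b, _, rfl⟩ := hφ
  refine ⟨b * (c * a), ?_⟩
  have h1 : φ ⬝ᵥ ((c * a) • v) = 0 := by rw [dotProduct_smul, h, smul_zero]
  rw [smul_smul, ← t_smul b h1, smul_smul]

theorem img_source {α : MulAut (PS n F)} {v φ w ψ v' φ' : Fin n → F} (h : Flag v φ)
    (hv : Par v v') (hφ : Par φ φ') (e : Img α v φ w ψ) : Img α v' φ' w ψ := by
  intro c
  obtain ⟨d, hd⟩ := t_par h.2.2 hv hφ c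
  obtain ⟨d', hd'⟩ := e d
  exact ⟨d', by rw [hd]; exact hd'⟩

theorem img_target {α : MulAut (PS n F)} {v φ w ψ w' ψ' : Fin n → F} (hw : Flag w ψ)
    (h1 : Par w w') (h2 : Par ψ ψ') (e : Img α v φ w ψ) : Img α v φ w' ψ' := by
  intro c
  obtain ⟨d, hd⟩ := e c
  obtain ⟨d', hd'⟩ := t_par (flag_par hw h1 h2).2.2 (par_symm h1) (par_symm h2) d
  exact ⟨d', hd.trans hd'⟩

theorem img_inv [Finite F] (hn : 3 ≤ n) {α : MulAut (PS n F)} {v φ w ψ : Fin n → F}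
    (h : Flag v φ) (hw : Flag w ψ) (e : Img α v φ w ψ) : Img α⁻¹ w ψ v φ := by
  obtain ⟨v', φ', h', e'⟩ := perm hn α⁻¹ hw
  obtain ⟨d, hd⟩ := e 1
  obtain ⟨d', hd'⟩ := e' d
  have h1 : t v φ = t (d' • v') φ' := by
    have h2 : α⁻¹ (α (t ((1 : F) • v) φ)) = t (d' • v') φ' := by rw [hd]; exact hd'
    rwa [MulAut.inv_apply_self, one_smul] at h2
  have hd'0 : d' ≠ 0 := by
    rintro rfl
    rw [zero_smul, t_zero] at h1
    exact t_ne_one hn h h1
  obtain ⟨a1, a2⟩ := t_inj_par hn h (flag_smul hd'0 h') h1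
  exact img_target h' (par_trans ⟨d', hd'0, rfl⟩ (par_symm a1)) (par_symm a2) e'

def TT (g : PS n F) : Prop := ∃ w ψ : Fin n → F, ψ ⬝ᵥ w = 0 ∧ g = t w ψ

theorem t_right_zero (v : Fin n → F) : t v 0 = (1 : PS n F) := by
  have h := t_smul (0 : F) (v := v) (φ := 0) (by rw [zero_dotProduct])
  rw [zero_smul, t_zero, smul_zero] at h
  exact h.symm

theorem TT_map [Finite F] (hn : 3 ≤ n) (α : MulAut (PS n F)) {g : PS n F} (hg : TT g) :
    TT (α g) := by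
  obtain ⟨w, ψ, h, rfl⟩ := hg
  by_cases hw : w = 0
  · rw [hw]
    exact ⟨0, 0, by rw [zero_dotProduct], by rw [t_zero, map_one, t_zero]⟩
  · by_cases hψ : ψ = 0
    · rw [hψ]
      exact ⟨0, 0, by rw [zero_dotProduct], by rw [t_right_zero, map_one, t_zero]⟩
    · obtain ⟨w', ψ', hf, e⟩ := perm hn α (⟨hw, hψ, h⟩ : Flag w ψ)
      obtain ⟨d, hd⟩ := e 1
      rw [one_smul] at hd
      refine ⟨d • w', ψ', ?_, hd⟩
      rw [dotProduct_smul, hf.2.2, smul_zero]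

theorem adj_map [Finite F] (hn : 3 ≤ n) {α : MulAut (PS n F)}
    {v φ w ψ v' φ' w' ψ' : Fin n → F} (h : Flag v φ) (hw : Flag w ψ) (h' : Flag v' φ')
    (hw' : Flag w' ψ') (e : Img α v φ w ψ) (e' : Img α v' φ' w' ψ') (hh : Par v v' ∨ Par φ φ') :
    Par w w' ∨ Par ψ ψ' := by
  rw [← adj_iff hn hw hw']
  intro c d
  obtain ⟨c', hc'⟩ := img_inv hn h hw e c
  obtain ⟨d', hd'⟩ := img_inv hn h' hw' e' d
  obtain ⟨w1, ψ1, g1, g2⟩ := (adj_iff hn h h').mpr hh c' d'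
  have h3 := TT_map hn α (⟨w1, ψ1, g1, g2⟩ : TT (t (c' • v) φ * t (d' • v') φ'))
  rw [map_mul, ← hc', ← hd', MulAut.apply_inv_self, MulAut.apply_inv_self] at h3
  exact h3

theorem adj_map_iff [Finite F] (hn : 3 ≤ n) {α : MulAut (PS n F)}
    {v φ w ψ v' φ' w' ψ' : Fin n → F} (h : Flag v φ) (hw : Flag w ψ) (h' : Flag v' φ')
    (hw' : Flag w' ψ') (e : Img α v φ w ψ) (e' : Img α v' φ' w' ψ') :
    (Par v v' ∨ Par φ φ') ↔ (Par w w' ∨ Par ψ ψ') :=
  ⟨adj_map hn h hw h' hw' e e',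
    adj_map hn hw h hw' h' (img_inv hn h hw e) (img_inv hn h' hw' e')⟩

theorem exists2 (hn : 3 ≤ n) (a b : Fin n → F) :
    ∃ φ : Fin n → F, φ ≠ 0 ∧ φ ⬝ᵥ a = 0 ∧ φ ⬝ᵥ b = 0 := by
  have h := LinearMap.ker_ne_bot_of_finrank_lt (f := Matrix.mulVecLin (Matrix.of ![a, b]))
    (by simp only [Module.finrank_fin_fun]; omega)
  rw [Submodule.ne_bot_iff] at h
  obtain ⟨φ, h1, h2⟩ := h
  rw [LinearMap.mem_ker] at h1
  have e0 := congrFun h1 0
  have e1 := congrFun h1 1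
  simp only [Matrix.mulVecLin_apply, Matrix.mulVec, Matrix.of_apply, Pi.zero_apply] at e0 e1
  refine ⟨φ, h2, ?_, ?_⟩
  · rw [dotProduct_comm]; simpa using e0
  · rw [dotProduct_comm]; simpa using e1

theorem exists3 (hn : 3 ≤ n) (a : Fin n → F) : ∃ x y z : Fin n → F, x ≠ 0 ∧ y ≠ 0 ∧ z ≠ 0 ∧
    ¬ Par x y ∧ ¬ Par x z ∧ ¬ Par y z ∧ x ⬝ᵥ a = 0 ∧ y ⬝ᵥ a = 0 ∧ z ⬝ᵥ a = 0 := by
  obtain ⟨x, hx, hxa, _⟩ := exists2 hn a a
  obtain ⟨c, hc⟩ : ∃ c : Fin n → F, x ⬝ᵥ c ≠ 0 := by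
    by_contra hcon
    push Not at hcon
    apply hx
    funext i
    have := hcon (Pi.single i 1)
    rw [dotProduct_single, mul_one] at this
    exact this
  obtain ⟨y, hy, hya, hyc⟩ := exists2 hn a c
  have hxyc : (x + y) ⬝ᵥ c ≠ 0 := by rw [add_dotProduct, hyc, add_zero]; exact hc
  refine ⟨x, y, x + y, hx, hy, ?_, ?_, ?_, ?_, hxa, hya, ?_⟩
  · intro h
    rw [h, zero_dotProduct] at hxyc
    exact hxyc rfl
  · rintro ⟨k, hk, rfl⟩
    rw [smul_dotProduct, smul_eq_mul] at hyc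
    rcases mul_eq_zero.mp hyc with h | h
    · exact hk h
    · exact hc h
  · rintro ⟨k, hk, h⟩
    have h1 : y = (k - 1) • x := by
      rw [sub_smul, one_smul, ← h, add_sub_cancel_left]
    have hk1 : k - 1 ≠ 0 := by
      intro h2
      rw [h2, zero_smul] at h1
      exact hy h1
    rw [h1, smul_dotProduct, smul_eq_mul] at hyc
    rcases mul_eq_zero.mp hyc with h | h
    · exact hk1 h
    · exact hc h
  · rintro ⟨k, hk, h⟩
    apply hxyc
    rw [h, smul_dotProduct, hyc, smul_zero]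
  · rw [add_dotProduct, hxa, hya, add_zero]

open Projectivization in
theorem dich [Finite F] (hn : 3 ≤ n) (α : MulAut (PS n F)) : Pres α ∨ Swap α := by
  classical
  obtain ⟨I, hI⟩ : ∃ I : Projectivization F (Fin n → F) → Projectivization F (Fin n → F) → Prop,
      I = fun p h => h.rep ⬝ᵥ p.rep = 0 := ⟨_, rfl⟩
  have hIi : ∀ p h, I p h ↔ h.rep ⬝ᵥ p.rep = 0 := by
    intro p h
    rw [hI]
  have hpar : ∀ (v : Fin n → F) (hv : v ≠ 0), Par v (mk F v hv).rep := by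
    intro v hv
    rw [par_iff hv (rep_nonzero _), mk_rep]
  have hImk : ∀ (v φ : Fin n → F) (hv : v ≠ 0) (hφ : φ ≠ 0),
      I (mk F v hv) (mk F φ hφ) ↔ φ ⬝ᵥ v = 0 := by
    intro v φ hv hφ
    rw [hI]
    constructor
    · intro h
      exact (flag_par (⟨rep_nonzero _, rep_nonzero _, h⟩ : Flag (mk F v hv).rep (mk F φ hφ).rep)
        (par_symm (hpar v hv)) (par_symm (hpar φ hφ))).2.2
    · intro h
      exact (flag_par (⟨hv, hφ, h⟩ : Flag v φ) (hpar v hv) (hpar φ hφ)).2.2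
  have hfl : ∀ y : {y : Projectivization F (Fin n → F) × Projectivization F (Fin n → F) // I y.1 y.2},
      Flag y.1.1.rep y.1.2.rep := by
    intro y
    exact ⟨rep_nonzero _, rep_nonzero _, (hIi _ _).mp y.2⟩
  choose w ψ hwf hwe using fun y : {y : Projectivization F (Fin n → F) × Projectivization F (Fin n → F) // I y.1 y.2} =>
    perm hn α (hfl y)
  obtain ⟨Φ, hΦd⟩ : ∃ Φ : {y : Projectivization F (Fin n → F) × Projectivization F (Fin n → F) // I y.1 y.2} →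
      {y : Projectivization F (Fin n → F) × Projectivization F (Fin n → F) // I y.1 y.2},
      Φ = fun y => ⟨(mk F (w y) (hwf y).1, mk F (ψ y) (hwf y).2.1),
        (hImk _ _ _ _).mpr (hwf y).2.2⟩ := ⟨_, rfl⟩
  have hΦ1 : ∀ y, (Φ y).1.1 = mk F (w y) (hwf y).1 := by intro y; rw [hΦd]
  have hΦ2 : ∀ y, (Φ y).1.2 = mk F (ψ y) (hwf y).2.1 := by intro y; rw [hΦd]
  have eqP : ∀ p q : Projectivization F (Fin n → F), p = q ↔ Par p.rep q.rep := by
    intro p q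
    rw [par_iff (rep_nonzero p) (rep_nonzero q), mk_rep, mk_rep]
  have key := comb I
    (by
      intro p q
      obtain ⟨φ, h0, h1, h2⟩ := exists2 hn p.rep q.rep
      refine ⟨mk F φ h0, ?_, ?_⟩
      · have := (hImk p.rep φ (rep_nonzero p) h0).mpr h1
        rwa [mk_rep] at this
      · have := (hImk q.rep φ (rep_nonzero q) h0).mpr h2
        rwa [mk_rep] at this)
    (by
      intro h k
      obtain ⟨v, h0, h1, h2⟩ := exists2 hn h.rep k.rep
      refine ⟨mk F v h0, ?_, ?_⟩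
      · have := (hImk v h.rep h0 (rep_nonzero h)).mpr (by rw [dotProduct_comm]; exact h1)
        rwa [mk_rep] at this
      · have := (hImk v k.rep h0 (rep_nonzero k)).mpr (by rw [dotProduct_comm]; exact h2)
        rwa [mk_rep] at this)
    (by
      intro p
      obtain ⟨x, y, z, hx, hy, hz, a1, a2, a3, b1, b2, b3⟩ := exists3 hn p.rep
      refine ⟨mk F x hx, mk F y hy, mk F z hz, ?_, ?_, ?_, ?_, ?_, ?_⟩
      · rw [ne_eq, ← par_iff]; exact a1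
      · rw [ne_eq, ← par_iff]; exact a2
      · rw [ne_eq, ← par_iff]; exact a3
      · have := (hImk p.rep x (rep_nonzero p) hx).mpr b1
        rwa [mk_rep] at this
      · have := (hImk p.rep y (rep_nonzero p) hy).mpr b2
        rwa [mk_rep] at this
      · have := (hImk p.rep z (rep_nonzero p) hz).mpr b3
        rwa [mk_rep] at this)
    (by
      intro p
      obtain ⟨x, y, z, hx, hy, hz, a1, a2, a3, b1, b2, b3⟩ := exists3 hn p.rep
      refine ⟨mk F x hx, mk F y hy, mk F z hz, ?_, ?_, ?_, ?_, ?_, ?_⟩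
      · rw [ne_eq, ← par_iff]; exact a1
      · rw [ne_eq, ← par_iff]; exact a2
      · rw [ne_eq, ← par_iff]; exact a3
      · have := (hImk x p.rep hx (rep_nonzero p)).mpr (by rw [dotProduct_comm]; exact b1)
        rwa [mk_rep] at this
      · have := (hImk y p.rep hy (rep_nonzero p)).mpr (by rw [dotProduct_comm]; exact b2)
        rwa [mk_rep] at this
      · have := (hImk z p.rep hz (rep_nonzero p)).mpr (by rw [dotProduct_comm]; exact b3)
        rwa [mk_rep] at this)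
    Φ
    (by
      intro y z hyz
      have h1 : (Φ y).1.1 = (Φ z).1.1 := by rw [hyz]
      have h2 : (Φ y).1.2 = (Φ z).1.2 := by rw [hyz]
      rw [hΦ1, hΦ1, ← par_iff] at h1
      rw [hΦ2, hΦ2, ← par_iff] at h2
      have e1 := img_inv hn (hfl y) (hwf y) (hwe y)
      have e2 := img_inv hn (hfl z) (hwf z) (hwe z)
      have e3 := img_source (hwf y) h1 h2 e1
      have e4 := uniq hn (hwf z) (hfl y) (hfl z) e3 e2
      apply Subtype.ext
      apply Prod.ext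
      · exact (eqP _ _).mpr e4.1
      · exact (eqP _ _).mpr e4.2)
    (by
      intro y z
      rw [hΦ1, hΦ1, hΦ2, hΦ2, ← par_iff, ← par_iff, eqP y.1.1 z.1.1, eqP y.1.2 z.1.2]
      exact adj_map_iff hn (hfl y) (hwf y) (hfl z) (hwf z) (hwe y) (hwe z))
  have hΦmk : ∀ (v φ w' ψ' : Fin n → F) (hf : Flag v φ) (hf' : Flag w' ψ'), Img α v φ w' ψ' →
      (Φ ⟨(mk F v hf.1, mk F φ hf.2.1), (hImk _ _ _ _).mpr hf.2.2⟩).1.1 = mk F w' hf'.1 ∧
      (Φ ⟨(mk F v hf.1, mk F φ hf.2.1), (hImk _ _ _ _).mpr hf.2.2⟩).1.2 = mk F ψ' hf'.2.1 := by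
    intro v φ w' ψ' hf hf' e
    obtain ⟨y, hy⟩ : ∃ y : {y : Projectivization F (Fin n → F) × Projectivization F (Fin n → F) // I y.1 y.2},
        y = ⟨(mk F v hf.1, mk F φ hf.2.1), (hImk _ _ _ _).mpr hf.2.2⟩ := ⟨_, rfl⟩
    rw [← hy, hΦ1, hΦ2, ← par_iff, ← par_iff]
    have p1 : Par v y.1.1.rep := by rw [hy]; exact hpar v hf.1
    have p2 : Par φ y.1.2.rep := by rw [hy]; exact hpar φ hf.2.1
    exact uniq hn (hfl y) (hwf y) hf' (hwe y) (img_source hf p1 p2 e)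
  rcases key with key | key
  · left
    intro v φ w1 ψ1 v' φ' w1' ψ1' f1 f2 f3 f4 e e'
    obtain ⟨a1, a2⟩ := hΦmk v φ w1 ψ1 f1 f2 e
    obtain ⟨b1, b2⟩ := hΦmk v' φ' w1' ψ1' f3 f4 e'
    obtain ⟨k1, k2⟩ := key ⟨(mk F v f1.1, mk F φ f1.2.1), (hImk _ _ _ _).mpr f1.2.2⟩
      ⟨(mk F v' f3.1, mk F φ' f3.2.1), (hImk _ _ _ _).mpr f3.2.2⟩
    rw [a1, b1] at k1
    rw [a2, b2] at k2
    rw [par_iff f1.1 f3.1, par_iff f1.2.1 f3.2.1, par_iff f2.1 f4.1, par_iff f2.2.1 f4.2.1]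
    exact ⟨k1, k2⟩
  · right
    intro v φ w1 ψ1 v' φ' w1' ψ1' f1 f2 f3 f4 e e'
    obtain ⟨a1, a2⟩ := hΦmk v φ w1 ψ1 f1 f2 e
    obtain ⟨b1, b2⟩ := hΦmk v' φ' w1' ψ1' f3 f4 e'
    obtain ⟨k1, k2⟩ := key ⟨(mk F v f1.1, mk F φ f1.2.1), (hImk _ _ _ _).mpr f1.2.2⟩
      ⟨(mk F v' f3.1, mk F φ' f3.2.1), (hImk _ _ _ _).mpr f3.2.2⟩
    rw [a2, b2] at k1
    rw [a1, b1] at k2
    rw [par_iff f1.1 f3.1, par_iff f1.2.1 f3.2.1, par_iff f2.1 f4.1, par_iff f2.2.1 f4.2.1]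
    exact ⟨k1, k2⟩

end PLN.S26
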