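import Pool.Agent.PLN.Perm
import Pool.Agent.PLN.Adj
import Pool.Agent.PLN.Comb
import Pool.Agent.PLN.DichS26
import Pool.Agent.PLN.DichS19

/-!
# PLN/Dich (STUB): types are preserved or interchanged
-/

set_option autoImplicit false

namespace PLN

open Matrix

universe u

variable {n : ℕ} {F : Type u} [Field F] [Finite F]

/-- PROOF. `comb` with `P = H = ℙ F (Fin n → F)`, `I p h = (h.rep ⬝ᵥ p.rep = 0)`, `Φ` from `perm` (the pair `(w, ψ)` is unique up to parallels by `t_inj_par`; injective: apply
`perm` to `α⁻¹`), adjacency from `adj_iff` (the left side of `adj_iff` is preserved by `α`: products of elements of two groups are transvections; `perm` for `α` and `α⁻¹` maps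
transvections `t w ψ` to transvections). -/
theorem dich (hn : 3 ≤ n) (α : MulAut (PS n F)) : Pres α ∨ Swap α :=
  S26.dich hn α

/-- PROOF. `Img β` and `Img β⁻¹` (`perm`, `t_inj_par`, counting), composition. -/
theorem swap_mul (hn : 3 ≤ n) {α β : MulAut (PS n F)} (hα : Swap α) (hβ : Swap β) :
    Pres (β⁻¹ * α) := S19.swap_mul hn hα hβ

end PLN
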