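import Pool.Agent.PLN.Perm
import Pool.Agent.PLN.Adj
import Pool.Agent.PLN.Comb

/-!
# PLN/DichS86: types are preserved or interchanged (helper86)
-/

set_option autoImplicit false

namespace PLN.S86

open Matrix PLN
open scoped LinearAlgebra.Projectivization

universe u

section

variable {n : ℕ} {F : Type u} [Field F]

theorem par_iff {v w : Fin n → F} (hv : v ≠ 0) (hw : w ≠ 0) :
    Par v w ↔ Projectivization.mk F v hv = Projectivization.mk F w hw := by
  rw [Projectivization.mk_eq_mk_iff']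
  constructor
  · rintro ⟨c, hc, h⟩
    exact ⟨c⁻¹, by rw [h, smul_smul, inv_mul_cancel₀ hc, one_smul]⟩
  · rintro ⟨a, h⟩
    have ha : a ≠ 0 := by
      rintro rfl
      rw [zero_smul] at h
      exact hv h.symm
    exact ⟨a⁻¹, inv_ne_zero ha, by rw [← h, smul_smul, inv_mul_cancel₀ ha, one_smul]⟩

theorem par_refl (v : Fin n → F) : Par v v := ⟨1, one_ne_zero, (one_smul F v).symm⟩

theorem par_symm {v w : Fin n → F} (h : Par v w) : Par w v := by
  obtain ⟨c, hc, rfl⟩ := h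
  exact ⟨c⁻¹, inv_ne_zero hc, by rw [smul_smul, inv_mul_cancel₀ hc, one_smul]⟩

theorem par_trans {u v w : Fin n → F} (h : Par u v) (h' : Par v w) : Par u w := by
  obtain ⟨c, hc, rfl⟩ := h
  obtain ⟨d, hd, rfl⟩ := h'
  exact ⟨d * c, mul_ne_zero hd hc, smul_smul d c u⟩

theorem t_smul_eq (b : F) {v φ : Fin n → F} (h : φ ⬝ᵥ v = 0) : t v (b • φ) = t (b • v) φ :=
  (t_smul b h).symm

theorem dot_smul_zero {v φ : Fin n → F} (h : φ ⬝ᵥ v = 0) (c : F) : φ ⬝ᵥ (c • v) = 0 := by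
  rw [dotProduct_smul, h, smul_zero]

theorem par_of_smul {v w : Fin n → F} {d e : F} (hd : d ≠ 0) (he : e ≠ 0)
    (h : Par (d • v) (e • w)) : Par v w := by
  obtain ⟨c, hc, h⟩ := h
  refine ⟨e⁻¹ * (c * d), mul_ne_zero (inv_ne_zero he) (mul_ne_zero hc hd), ?_⟩
  rw [← smul_smul, ← smul_smul, ← h, smul_smul, inv_mul_cancel₀ he, one_smul]

/-- the image of a nontrivial element -/
theorem img_ne {α : MulAut (PS n F)} (hn : 3 ≤ n) {v φ w ψ : Fin n → F} (h : Flag v φ)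
    {d : F} (e : α (t v φ) = t (d • w) ψ) : d ≠ 0 := by
  rintro rfl
  rw [zero_smul, t_zero] at e
  exact t_ne_one hn h (by rw [← map_one α] at e; exact α.injective e)

theorem flag_smul {v φ : Fin n → F} (h : Flag v φ) {c : F} (hc : c ≠ 0) : Flag (c • v) φ :=
  ⟨smul_ne_zero hc h.1, h.2.1, dot_smul_zero h.2.2 c⟩

/-- the image is unique -/
theorem img_uniq {α : MulAut (PS n F)} (hn : 3 ≤ n) {v φ w ψ w' ψ' : Fin n → F} (h : Flag v φ)
    (hw : Flag w ψ) (hw' : Flag w' ψ') (i : Img α v φ w ψ) (i' : Img α v φ w' ψ') :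
    Par w w' ∧ Par ψ ψ' := by
  obtain ⟨d, hd⟩ := i 1
  obtain ⟨d', hd'⟩ := i' 1
  rw [one_smul] at hd hd'
  have k := img_ne hn h hd
  have k' := img_ne hn h hd'
  obtain ⟨a, b⟩ := t_inj_par hn (flag_smul hw k) (flag_smul hw' k') (hd.symm.trans hd')
  exact ⟨par_of_smul k k' a, b⟩

/-- parallel sources -/
theorem img_src {α : MulAut (PS n F)} {v φ v' φ' w ψ : Fin n → F} (h : φ ⬝ᵥ v = 0)
    (a : Par v v') (b : Par φ φ') (i : Img α v φ w ψ) : Img α v' φ' w ψ := by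
  obtain ⟨a, ha, rfl⟩ := a
  obtain ⟨b, hb, rfl⟩ := b
  intro c
  obtain ⟨d, hd⟩ := i (b * (c * a))
  refine ⟨d, ?_⟩
  rw [← hd, smul_smul c a, t_smul_eq b (dot_smul_zero h _), smul_smul]

/-- parallel images -/
theorem img_tgt {α : MulAut (PS n F)} {v φ w ψ w' ψ' : Fin n → F} (h : ψ' ⬝ᵥ w' = 0)
    (a : Par w' w) (b : Par ψ' ψ) (i : Img α v φ w ψ) : Img α v φ w' ψ' := by
  obtain ⟨a, ha, rfl⟩ := a
  obtain ⟨b, hb, rfl⟩ := b
  intro c
  obtain ⟨d, hd⟩ := i c
  refine ⟨b * (d * a), ?_⟩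
  rw [hd, smul_smul d a, t_smul_eq b (dot_smul_zero h _), smul_smul]

variable [Finite F]

theorem img_inv (hn : 3 ≤ n) {α : MulAut (PS n F)} {v φ w ψ : Fin n → F} (h : Flag v φ)
    (hw : Flag w ψ) (i : Img α v φ w ψ) : Img α⁻¹ w ψ v φ := by
  obtain ⟨v', φ', h', i'⟩ := perm hn α⁻¹ hw
  obtain ⟨d, hd⟩ := i 1
  rw [one_smul] at hd
  obtain ⟨e, he⟩ := i' d
  have hd2 : α⁻¹ (t (d • w) ψ) = t v φ := by
    rw [← hd]
    exact α.symm_apply_apply _
  have he2 : t v φ = t (e • v') φ' := hd2.symm.trans he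
  have hne : e ≠ 0 := by
    rintro rfl
    rw [zero_smul, t_zero] at he2
    exact t_ne_one hn h he2
  obtain ⟨a, b⟩ := t_inj_par hn h (flag_smul h' hne) he2
  have a' : Par v v' := by
    have : Par ((1 : F) • v) (e • v') := by rwa [one_smul]
    exact par_of_smul one_ne_zero hne this
  exact img_tgt h.2.2 a' b i'

/-- automorphisms map transvections to transvections -/
theorem trv (hn : 3 ≤ n) (α : MulAut (PS n F)) {v φ : Fin n → F} (h : φ ⬝ᵥ v = 0) :
    ∃ w ψ : Fin n → F, ψ ⬝ᵥ w = 0 ∧ α (t v φ) = t w ψ := by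
  by_cases hv : v = 0
  · refine ⟨0, 0, by simp, ?_⟩
    rw [hv, t_zero, t_zero, map_one]
  by_cases hφ : φ = 0
  · refine ⟨0, 0, by simp, ?_⟩
    have : t v φ = t 0 φ := by
      have h1 := t_smul (0 : F) h
      rw [zero_smul, zero_smul] at h1
      rw [hφ] at h1 ⊢
      exact h1.symm
    rw [this, t_zero, t_zero, map_one]
  obtain ⟨w, ψ, hw, i⟩ := perm hn α (v := v) (φ := φ) ⟨hv, hφ, h⟩
  obtain ⟨d, hd⟩ := i 1
  rw [one_smul] at hd
  exact ⟨d • w, ψ, dot_smul_zero hw.2.2 d, hd⟩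

theorem adj_back (hn : 3 ≤ n) {α : MulAut (PS n F)} {v φ w ψ v' φ' w' ψ' : Fin n → F}
    (h : Flag v φ) (hw : Flag w ψ) (h' : Flag v' φ') (hw' : Flag w' ψ')
    (i : Img α v φ w ψ) (i' : Img α v' φ' w' ψ') (a : Par w w' ∨ Par ψ ψ') :
    Par v v' ∨ Par φ φ' := by
  rw [← adj_iff hn h h']
  intro c d
  have k := (adj_iff hn hw hw').2 a
  obtain ⟨c', hc⟩ := i c
  obtain ⟨d', hd⟩ := i' d
  obtain ⟨u, χ, hu, e⟩ := k c' d'
  obtain ⟨u', χ', hu', e'⟩ := trv hn α⁻¹ hu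
  refine ⟨u', χ', hu', ?_⟩
  rw [← e', ← e, ← hc, ← hd, ← map_mul]
  exact (α.symm_apply_apply _).symm

theorem adj_img (hn : 3 ≤ n) {α : MulAut (PS n F)} {v φ w ψ v' φ' w' ψ' : Fin n → F}
    (h : Flag v φ) (hw : Flag w ψ) (h' : Flag v' φ') (hw' : Flag w' ψ')
    (i : Img α v φ w ψ) (i' : Img α v' φ' w' ψ') :
    (Par v v' ∨ Par φ φ') ↔ (Par w w' ∨ Par ψ ψ') :=
  ⟨adj_back hn hw h hw' h' (img_inv hn h hw i) (img_inv hn h' hw' i'),
    adj_back hn h hw h' hw' i i'⟩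

end

/-! ### Geometry -/

section

variable {n : ℕ} {F : Type u} [Field F]

/-- incidence -/
def Inc (p h : ℙ F (Fin n → F)) : Prop := h.rep ⬝ᵥ p.rep = 0

theorem inc_mk {v φ : Fin n → F} (hv : v ≠ 0) (hφ : φ ≠ 0) :
    Inc (Projectivization.mk F v hv) (Projectivization.mk F φ hφ) ↔ φ ⬝ᵥ v = 0 := by
  unfold Inc
  obtain ⟨a, ha⟩ := Projectivization.exists_smul_eq_mk_rep F v hv
  obtain ⟨b, hb⟩ := Projectivization.exists_smul_eq_mk_rep F φ hφ
  rw [← ha, ← hb, Units.smul_def, Units.smul_def, smul_dotProduct, dotProduct_smul]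
  simp

theorem inc_symm {p h : ℙ F (Fin n → F)} (i : Inc p h) : Inc h p := by
  unfold Inc at i ⊢
  rw [dotProduct_comm]
  exact i

theorem geo1 (hn : 3 ≤ n) (p q : ℙ F (Fin n → F)) : ∃ h, Inc p h ∧ Inc q h := by
  let L : (Fin n → F) →ₗ[F] (Fin 2 → F) := Matrix.mulVecLin (Matrix.of ![p.rep, q.rep])
  have hk : LinearMap.ker L ≠ ⊥ := by
    apply LinearMap.ker_ne_bot_of_finrank_lt
    rw [Module.finrank_fin_fun, Module.finrank_fin_fun]
    omega
  obtain ⟨u, hu, hu0⟩ := (Submodule.ne_bot_iff _).1 hk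
  have hu1 : L u = 0 := hu
  have e0 : p.rep ⬝ᵥ u = 0 := by
    have := congrFun hu1 0
    simpa [L, Matrix.mulVec] using this
  have e1 : q.rep ⬝ᵥ u = 0 := by
    have := congrFun hu1 1
    simpa [L, Matrix.mulVec] using this
  refine ⟨Projectivization.mk F u hu0, ?_, ?_⟩
  · have := (inc_mk p.rep_nonzero hu0).2 (by rw [dotProduct_comm]; exact e0)
    rwa [Projectivization.mk_rep] at this
  · have := (inc_mk q.rep_nonzero hu0).2 (by rw [dotProduct_comm]; exact e1)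
    rwa [Projectivization.mk_rep] at this

theorem geo3 (hn : 3 ≤ n) (p : ℙ F (Fin n → F)) :
    ∃ a b c : ℙ F (Fin n → F), a ≠ b ∧ a ≠ c ∧ b ≠ c ∧ Inc p a ∧ Inc p b ∧ Inc p c := by
  let L : (Fin n → F) →ₗ[F] (Fin 1 → F) := Matrix.mulVecLin (Matrix.of ![p.rep])
  have hrank : 1 < Module.finrank F (LinearMap.ker L) := by
    have h1 := LinearMap.finrank_range_add_finrank_ker L
    rw [Module.finrank_fin_fun] at h1
    have h2 : Module.finrank F (LinearMap.range L) ≤ 1 := by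
      have := Submodule.finrank_le (LinearMap.range L)
      rwa [Module.finrank_fin_fun] at this
    omega
  have hnt : Nontrivial (LinearMap.ker L) := Module.nontrivial_of_finrank_pos (R := F) (by omega)
  obtain ⟨x, hx⟩ := exists_ne (0 : LinearMap.ker L)
  obtain ⟨y, hy⟩ := exists_linearIndependent_pair_of_one_lt_finrank hrank hx
  have hinc : ∀ z : Fin n → F, z ∈ LinearMap.ker L → ∀ hz : z ≠ 0,
      Inc p (Projectivization.mk F z hz) := by
    intro z hzk hz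
    have e0 : p.rep ⬝ᵥ z = 0 := by
      have h0 : L z = 0 := hzk
      have := congrFun h0 0
      simpa [L, Matrix.mulVec] using this
    have := (inc_mk p.rep_nonzero hz).2 (by rw [dotProduct_comm]; exact e0)
    rwa [Projectivization.mk_rep] at this
  obtain ⟨x, hxk⟩ := x
  obtain ⟨y, hyk⟩ := y
  have hx0 : x ≠ 0 := fun h => hx (Subtype.ext h)
  have hlin : ∀ s t : F, s • x + t • y = 0 → s = 0 ∧ t = 0 := by
    intro s t h
    exact (LinearIndependent.pair_iff.1 hy) s t (Subtype.ext h)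
  have hy0 : y ≠ 0 := by
    intro h
    have := hlin 0 1 (by rw [h]; simp)
    exact one_ne_zero this.2
  have hxy0 : x + y ≠ 0 := by
    intro h
    have := hlin 1 1 (by rw [one_smul, one_smul]; exact h)
    exact one_ne_zero this.2
  refine ⟨Projectivization.mk F x hx0, Projectivization.mk F y hy0,
    Projectivization.mk F (x + y) hxy0, ?_, ?_, ?_, hinc _ hxk _, hinc _ hyk _,
    hinc _ (add_mem hxk hyk) _⟩
  · intro h
    rw [Projectivization.mk_eq_mk_iff'] at h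
    obtain ⟨a, ha⟩ := h
    have := hlin 1 (-a) (by rw [← ha, one_smul, neg_smul, add_neg_cancel])
    exact one_ne_zero this.1
  · intro h
    rw [Projectivization.mk_eq_mk_iff'] at h
    obtain ⟨a, ha⟩ := h
    have h1 : (a - 1) • x + a • y = 0 := by
      have h2 : (a - 1) • x + a • y = a • (x + y) - x := by
        rw [smul_add, sub_smul, one_smul]; abel
      rw [h2, ha, sub_self]
    have h3 := hlin _ _ h1
    have h4 := h3.1
    rw [h3.2, zero_sub, neg_eq_zero] at h4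
    exact one_ne_zero h4
  · intro h
    rw [Projectivization.mk_eq_mk_iff'] at h
    obtain ⟨a, ha⟩ := h
    have h1 : a • x + (a - 1) • y = 0 := by
      have h2 : a • x + (a - 1) • y = a • (x + y) - y := by
        rw [smul_add, sub_smul, one_smul]; abel
      rw [h2, ha, sub_self]
    have h3 := hlin _ _ h1
    have h4 := h3.2
    rw [h3.1, zero_sub, neg_eq_zero] at h4
    exact one_ne_zero h4

end

variable {n : ℕ} {F : Type u} [Field F] [Finite F]

theorem dich (hn : 3 ≤ n) (α : MulAut (PS n F)) : Pres α ∨ Swap α := by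
  classical
  have hfl : ∀ y : {y : ℙ F (Fin n → F) × ℙ F (Fin n → F) // Inc y.1 y.2},
      Flag y.1.1.rep y.1.2.rep := fun y =>
    ⟨y.1.1.rep_nonzero, y.1.2.rep_nonzero, y.2⟩
  choose W Ψ hW hI using fun y => perm hn α (hfl y)
  let Φ : {y : ℙ F (Fin n → F) × ℙ F (Fin n → F) // Inc y.1 y.2} →
      {y : ℙ F (Fin n → F) × ℙ F (Fin n → F) // Inc y.1 y.2} := fun y =>
    ⟨(Projectivization.mk F (W y) (hW y).1, Projectivization.mk F (Ψ y) (hW y).2.1),
      (inc_mk (hW y).1 (hW y).2.1).2 (hW y).2.2⟩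
  have hpar : ∀ p q : ℙ F (Fin n → F), p = q ↔ Par p.rep q.rep := by
    intro p q
    rw [par_iff p.rep_nonzero q.rep_nonzero, Projectivization.mk_rep, Projectivization.mk_rep]
  have hinj : Function.Injective Φ := by
    intro y z h
    have h1 := congrArg (fun w => w.1.1) h
    have h2 := congrArg (fun w => w.1.2) h
    have p1 : Par (W y) (W z) := (par_iff (hW y).1 (hW z).1).2 h1
    have p2 : Par (Ψ y) (Ψ z) := (par_iff (hW y).2.1 (hW z).2.1).2 h2
    have i1 := img_inv hn (hfl y) (hW y) (hI y)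
    have i2 := img_inv hn (hfl z) (hW z) (hI z)
    have i3 := img_src (hW y).2.2 p1 p2 i1
    obtain ⟨a, b⟩ := img_uniq hn (hW z) (hfl y) (hfl z) i3 i2
    apply Subtype.ext
    exact Prod.ext ((hpar _ _).2 a) ((hpar _ _).2 b)
  have hadj : ∀ y z : {y : ℙ F (Fin n → F) × ℙ F (Fin n → F) // Inc y.1 y.2},
      (y.1.1 = z.1.1 ∨ y.1.2 = z.1.2) ↔
      ((Φ y).1.1 = (Φ z).1.1 ∨ (Φ y).1.2 = (Φ z).1.2) := by
    intro y z
    have h := adj_img hn (hfl y) (hW y) (hfl z) (hW z) (hI y) (hI z)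
    rw [← hpar, ← hpar, par_iff (hW y).1 (hW z).1, par_iff (hW y).2.1 (hW z).2.1] at h
    exact h
  have hphi : ∀ {v φ w ψ : Fin n → F} (h : Flag v φ) (hw : Flag w ψ), Img α v φ w ψ →
      (Φ ⟨(Projectivization.mk F v h.1, Projectivization.mk F φ h.2.1),
        (inc_mk h.1 h.2.1).2 h.2.2⟩).1 =
        (Projectivization.mk F w hw.1, Projectivization.mk F ψ hw.2.1) := by
    intro v φ w ψ h hw i
    set y : {y : ℙ F (Fin n → F) × ℙ F (Fin n → F) // Inc y.1 y.2} :=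
      ⟨(Projectivization.mk F v h.1, Projectivization.mk F φ h.2.1),
        (inc_mk h.1 h.2.1).2 h.2.2⟩ with hy
    have p1 : Par y.1.1.rep v := by
      rw [par_iff y.1.1.rep_nonzero h.1, Projectivization.mk_rep]
    have p2 : Par y.1.2.rep φ := by
      rw [par_iff y.1.2.rep_nonzero h.2.1, Projectivization.mk_rep]
    have i3 := img_src (hfl y).2.2 p1 p2 (hI y)
    obtain ⟨a, b⟩ := img_uniq hn h (hW y) hw i3 i
    exact Prod.ext ((par_iff (hW y).1 hw.1).1 a) ((par_iff (hW y).2.1 hw.2.1).1 b)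
  have h3 := geo3 (F := F) hn
  rcases comb (Inc (n := n) (F := F)) (geo1 hn)
    (fun h k => by
      obtain ⟨p, a, b⟩ := geo1 hn h k
      exact ⟨p, inc_symm a, inc_symm b⟩)
    (geo3 hn)
    (fun h => by
      obtain ⟨a, b, c, k1, k2, k3, i1, i2, i3⟩ := geo3 hn h
      exact ⟨a, b, c, k1, k2, k3, inc_symm i1, inc_symm i2, inc_symm i3⟩)
    Φ hinj hadj with hc | hc
  · left
    intro v φ w ψ v' φ' w' ψ' h hw h' hw' i i'
    have c1 := hc ⟨(Projectivization.mk F v h.1, Projectivization.mk F φ h.2.1),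
        (inc_mk h.1 h.2.1).2 h.2.2⟩ ⟨(Projectivization.mk F v' h'.1, Projectivization.mk F φ' h'.2.1),
        (inc_mk h'.1 h'.2.1).2 h'.2.2⟩
    rw [hphi h hw i, hphi h' hw' i'] at c1
    rw [par_iff h.1 h'.1, par_iff hw.1 hw'.1, par_iff h.2.1 h'.2.1, par_iff hw.2.1 hw'.2.1]
    exact c1
  · right
    intro v φ w ψ v' φ' w' ψ' h hw h' hw' i i'
    have c1 := hc ⟨(Projectivization.mk F v h.1, Projectivization.mk F φ h.2.1),
        (inc_mk h.1 h.2.1).2 h.2.2⟩ ⟨(Projectivization.mk F v' h'.1, Projectivization.mk F φ' h'.2.1),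
        (inc_mk h'.1 h'.2.1).2 h'.2.2⟩
    rw [hphi h hw i, hphi h' hw' i'] at c1
    rw [par_iff h.1 h'.1, par_iff hw.1 hw'.1, par_iff h.2.1 h'.2.1, par_iff hw.2.1 hw'.2.1]
    exact c1

theorem swap_mul (hn : 3 ≤ n) {α β : MulAut (PS n F)} (hα : Swap α) (hβ : Swap β) :
    Pres (β⁻¹ * α) := by
  intro v φ w ψ v' φ' w' ψ' h hw h' hw' i i'
  obtain ⟨x, χ, hx, j⟩ := perm hn α h
  obtain ⟨x', χ', hx', j'⟩ := perm hn α h'
  have key : ∀ {v φ w ψ x χ : Fin n → F}, Flag v φ → Flag w ψ → Flag x χ →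
      Img (β⁻¹ * α) v φ w ψ → Img α v φ x χ → Img β w ψ x χ := by
    intro v φ w ψ x χ h hw hx i j
    obtain ⟨y, υ, hy, k⟩ := perm hn β⁻¹ hx
    have h1 : Img (β⁻¹ * α) v φ y υ := by
      intro c
      obtain ⟨d, hd⟩ := j c
      obtain ⟨e, he⟩ := k d
      refine ⟨e, ?_⟩
      rw [MulAut.mul_apply, hd, he]
    obtain ⟨a, b⟩ := img_uniq hn h hw hy i h1
    have h2 : Img β⁻¹ x χ w ψ := img_tgt hw.2.2 a b k
    have h3 := img_inv hn hx hw h2
    rwa [inv_inv] at h3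
  have k := key h hw hx i j
  have k' := key h' hw' hx' i' j'
  obtain ⟨a1, a2⟩ := hα _ _ _ _ _ _ _ _ h hx h' hx' j j'
  obtain ⟨b1, b2⟩ := hβ _ _ _ _ _ _ _ _ hw hx hw' hx' k k'
  exact ⟨a1.trans b1.symm, a2.trans b2.symm⟩

end PLN.S86
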