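import Pool.Agent.PLN.ExpS52

/-!
# PLN/Exp: orders of matrices
-/

set_option autoImplicit false

namespace PLN

open Matrix

universe u

/-- PROOF. `D` = set of the degrees of the irreducible factors of the characteristic polynomial; `X` is none of them; each factor of degree `d` divides
`X ^ (q ^ d - 1) - 1`, so `X ^ M - 1`, `M = ∏ d ∈ D, (q ^ d - 1)`; the characteristic polynomial divides `(X ^ M - 1) ^ n`, so `(X ^ M - 1) ^ (p ^ n) = X ^ (M p ^ n) - 1`; Cayley-Hamilton. -/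
theorem exp_dvd {n : ℕ} {F : Type u} [Field F] [Finite F] (g : GS n F) :
    ∃ D : Finset ℕ, (∀ d ∈ D, 1 ≤ d) ∧ ∑ d ∈ D, d ≤ n ∧
      g ^ ((∏ d ∈ D, (Nat.card F ^ d - 1)) * (ringChar F) ^ n) = 1 :=
  S52.exp_dvd g

end PLN
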