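import Pool.Agent.PLN.Defs

/-!
# PLN/ExpS52: orders of matrices
-/

set_option autoImplicit false

namespace PLN.S52

open Matrix Polynomial

universe u

theorem irr_dvd {F : Type u} [Field F] [Finite F] {P : F[X]} (hP : Irreducible P)
    (h0 : ¬ P ∣ X) {M : ℕ} (hM : Nat.card F ^ P.natDegree - 1 ∣ M) : P ∣ X ^ M - 1 := by
  classical
  have := Fintype.ofFinite F
  have hf : Fact (Irreducible P) := ⟨hP⟩
  have hfin : Module.Finite F (AdjoinRoot P) := (AdjoinRoot.powerBasis hP.ne_zero).finite
  have hfin2 : Finite (AdjoinRoot P) := Module.finite_of_finite F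
  have := Fintype.ofFinite (AdjoinRoot P)
  have hcard : Fintype.card (AdjoinRoot P) = Nat.card F ^ P.natDegree := by
    rw [Nat.card_eq_fintype_card, Module.card_eq_pow_finrank (K := F) (V := AdjoinRoot P),
      (AdjoinRoot.powerBasis hP.ne_zero).finrank, AdjoinRoot.powerBasis_dim]
  have hroot : AdjoinRoot.root P ≠ 0 := by
    intro h
    apply h0
    rw [← AdjoinRoot.mk_eq_zero, AdjoinRoot.mk_X]
    exact h
  have h1 := FiniteField.pow_card_sub_one_eq_one (AdjoinRoot.root P) hroot
  rw [hcard] at h1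
  obtain ⟨c, rfl⟩ := hM
  rw [← AdjoinRoot.mk_eq_zero, map_sub, map_pow, AdjoinRoot.mk_X, map_one, pow_mul, h1, one_pow,
    sub_self]

theorem exp_dvd {n : ℕ} {F : Type u} [Field F] [Finite F] (g : GS n F) :
    ∃ D : Finset ℕ, (∀ d ∈ D, 1 ≤ d) ∧ ∑ d ∈ D, d ≤ n ∧
      g ^ ((∏ d ∈ D, (Nat.card F ^ d - 1)) * (ringChar F) ^ n) = 1 := by
  classical
  have := Fintype.ofFinite F
  obtain ⟨χ, hχ⟩ : ∃ χ, χ = g.1.charpoly := ⟨_, rfl⟩
  have hmon : χ.Monic := by rw [hχ]; exact Matrix.charpoly_monic _
  have hne : χ ≠ 0 := hmon.ne_zero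
  have hdeg : χ.natDegree = n := by
    rw [hχ, Matrix.charpoly_natDegree_eq_dim, Fintype.card_fin]
  let S : Multiset F[X] := UniqueFactorizationMonoid.normalizedFactors χ
  have hprod : S.prod = χ := by
    have h1 := UniqueFactorizationMonoid.prod_normalizedFactors_eq hne
    rw [h1]
    exact hmon.normalize_eq_self
  have hirr : ∀ P ∈ S, Irreducible P := fun P hP =>
    UniqueFactorizationMonoid.irreducible_of_normalized_factor P hP
  have hdvd : ∀ P ∈ S, P ∣ χ := fun P hP =>
    UniqueFactorizationMonoid.dvd_of_mem_normalizedFactors hP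
  have hsum : (S.map natDegree).sum = n := by
    rw [← hdeg, ← hprod]
    refine (natDegree_multiset_prod S ?_).symm
    intro h
    exact (hirr 0 h).ne_zero rfl
  have hX : ∀ P ∈ S, ¬ P ∣ X := by
    intro P hP h
    have h1 : Associated P X := (hirr P hP).associated_of_dvd irreducible_X h
    have h2 : (X : F[X]) ∣ χ := h1.symm.dvd.trans (hdvd P hP)
    rw [X_dvd_iff] at h2
    have h3 := Matrix.det_eq_sign_charpoly_coeff g.1
    rw [← hχ, h2, mul_zero] at h3
    have h4 : g.1.det = 1 := g.2
    rw [h4] at h3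
    exact one_ne_zero h3
  refine ⟨(S.map natDegree).toFinset, ?_, ?_, ?_⟩
  · intro d hd
    rw [Multiset.mem_toFinset, Multiset.mem_map] at hd
    obtain ⟨P, hP, rfl⟩ := hd
    exact (hirr P hP).natDegree_pos
  · calc ∑ d ∈ (S.map natDegree).toFinset, d ≤
        ∑ d ∈ (S.map natDegree).toFinset, (S.map natDegree).count d * d := by
          refine Finset.sum_le_sum fun d hd => ?_
          rw [Multiset.mem_toFinset] at hd
          exact Nat.le_mul_of_pos_left d (Multiset.count_pos.2 hd)
      _ = (S.map natDegree).sum := by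
          rw [Finset.sum_multiset_count]
          simp
      _ ≤ n := hsum.le
  · obtain ⟨M, hM⟩ : ∃ M, M = ∏ d ∈ (S.map natDegree).toFinset, (Nat.card F ^ d - 1) := ⟨_, rfl⟩
    rw [← hM]
    have h1 : ∀ P ∈ S, P ∣ X ^ M - 1 := by
      intro P hP
      apply irr_dvd (hirr P hP) (hX P hP)
      rw [hM]
      exact Finset.dvd_prod_of_mem (fun d => Nat.card F ^ d - 1)
        (Multiset.mem_toFinset.2 (Multiset.mem_map_of_mem _ hP))
    have h2 : ∀ T : Multiset F[X], (∀ P ∈ T, P ∣ X ^ M - 1) →
        T.prod ∣ (X ^ M - 1) ^ (Multiset.card T) := by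
      intro T
      induction T using Multiset.induction_on with
      | empty => intro _; simp
      | cons a T ih =>
        intro hT
        rw [Multiset.prod_cons, Multiset.card_cons, pow_succ']
        exact mul_dvd_mul (hT a (Multiset.mem_cons_self a T))
          (ih fun P hP => hT P (Multiset.mem_cons_of_mem hP))
    have h3 : Multiset.card S ≤ n := by
      rw [← hsum, ← Multiset.card_map natDegree S]
      have h4 := Multiset.card_nsmul_le_sum (s := S.map natDegree) (a := 1) (by
        intro d hd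
        rw [Multiset.mem_map] at hd
        obtain ⟨P, hP, rfl⟩ := hd
        exact (hirr P hP).natDegree_pos)
      simpa using h4
    obtain ⟨p, hchar⟩ := CharP.exists F
    obtain ⟨f, hp, hf⟩ := FiniteField.card F p
    have hp' := Fact.mk hp
    have hrc : ringChar F = p := ringChar.eq F p
    have h5 : χ ∣ X ^ (M * p ^ n) - 1 := by
      have h6 : χ ∣ (X ^ M - 1) ^ (p ^ n) := by
        rw [← hprod]
        refine (h2 S h1).trans (pow_dvd_pow _ (h3.trans ?_))
        exact (Nat.lt_pow_self hp.one_lt).le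
      have h7 : ((X : F[X]) ^ M - 1) ^ (p ^ n) = X ^ (M * p ^ n) - 1 := by
        rw [sub_pow_char_pow, one_pow, pow_mul]
      rwa [h7] at h6
    rw [hrc]
    have h8 : aeval g.1 (X ^ (M * p ^ n) - 1 : F[X]) = 0 := by
      obtain ⟨c, hc⟩ := h5
      rw [hc, map_mul, hχ, Matrix.aeval_self_charpoly, zero_mul]
    rw [map_sub, map_pow, aeval_X, map_one, sub_eq_zero] at h8
    exact Subtype.ext ((Matrix.SpecialLinearGroup.coe_pow g (M * p ^ n)).trans h8)

end PLN.S52
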