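import Pool.Agent.PLN.Tr

/-!
# PLN/FormS37: automorphisms that fix the elementary groups (helper37)
-/

set_option autoImplicit false

namespace PLN.S37

open Matrix PLN

universe u

variable {n : ℕ} {F : Type u} [Field F] [Finite F]

theorem good_form (hn : 3 ≤ n) {α : MulAut (PS n F)} (hα : Good α) :
    ∃ σ : F ≃+* F, ∃ μ : Fin n → Fˣ, ∀ i j : Fin n, i ≠ j → ∀ c : F,
      α (x i j c) = x i j (((μ i * (μ j)⁻¹ : Fˣ) : F) * σ c) := by
  classical
  have h0 : ∀ (i j : Fin n) (c : F), ∃ d : F, i ≠ j → α (x i j c) = x i j d := by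
    intro i j c
    by_cases hij : i = j
    · exact ⟨0, fun h => absurd hij h⟩
    · obtain ⟨d, hd⟩ := hα i j hij c
      exact ⟨d, fun _ => hd⟩
  choose p hp using h0
  have hadd : ∀ i j : Fin n, i ≠ j → ∀ c d : F, p i j (c + d) = p i j c + p i j d := by
    intro i j hij c d
    apply x_inj hn hij
    rw [← hp i j (c + d) hij, x_add hij, map_mul, hp i j c hij, hp i j d hij, x_add hij]
  have hmul : ∀ i j k : Fin n, i ≠ j → j ≠ k → i ≠ k → ∀ c d : F,
      p i k (c * d) = p i j c * p j k d := by
    intro i j k hij hjk hik c d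
    apply x_inj hn hik
    rw [← hp i k (c * d) hik, ← x_comm hij hjk hik c d, map_mul, map_mul, map_mul, map_inv,
      map_inv, hp i j c hij, hp j k d hjk, x_comm hij hjk hik]
  have hinj : ∀ i j : Fin n, i ≠ j → ∀ c d : F, p i j c = p i j d → c = d := by
    intro i j hij c d h
    apply x_inj hn hij
    apply α.injective
    rw [hp i j c hij, hp i j d hij, h]
  have hzero : ∀ i j : Fin n, i ≠ j → p i j 0 = 0 := by
    intro i j hij
    have h := hadd i j hij 0 0
    rw [add_zero] at h
    exact left_eq_add.mp h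
  have hne : ∀ i j : Fin n, i ≠ j → p i j 1 ≠ 0 := by
    intro i j hij h
    exact one_ne_zero (hinj i j hij 1 0 (by rw [h, hzero i j hij]))
  have hl : ∀ i j k : Fin n, i ≠ j → j ≠ k → i ≠ k → p i k 1 = p i j 1 * p j k 1 := by
    intro i j k hij hjk hik
    have h := hmul i j k hij hjk hik 1 1
    rwa [mul_one] at h
  have hR1 : ∀ i j k : Fin n, i ≠ j → j ≠ k → i ≠ k → ∀ c : F,
      p i k c / p i k 1 = p i j c / p i j 1 := by
    intro i j k hij hjk hik c
    have h := hmul i j k hij hjk hik c 1
    rw [mul_one] at h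
    rw [h, hl i j k hij hjk hik, mul_div_mul_right _ _ (hne j k hjk)]
  have hR2 : ∀ i j k : Fin n, i ≠ j → j ≠ k → i ≠ k → ∀ c : F,
      p i k c / p i k 1 = p j k c / p j k 1 := by
    intro i j k hij hjk hik c
    have h := hmul i j k hij hjk hik 1 c
    rw [one_mul] at h
    rw [h, hl i j k hij hjk hik, mul_div_mul_left _ _ (hne i j hij)]
  let a : Fin n := ⟨0, by omega⟩
  let b : Fin n := ⟨1, by omega⟩
  let e : Fin n := ⟨2, by omega⟩
  have hab : a ≠ b := by simp [a, b]
  have hbe : b ≠ e := by simp [b, e]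
  have hae : a ≠ e := by simp [a, e]
  have hR3 : ∀ i j : Fin n, i ≠ j → j ≠ a → ∀ c : F, p i j c / p i j 1 = p a b c / p a b 1 := by
    intro i j hij hja c
    have h1 : p i j c / p i j 1 = p a j c / p a j 1 := by
      by_cases hia : i = a
      · rw [hia]
      · exact hR2 i a j hia (Ne.symm hja) hij c
    rw [h1]
    by_cases hjb : j = b
    · rw [hjb]
    · exact hR1 a b j hab (Ne.symm hjb) (Ne.symm hja) c
  have hR : ∀ i j : Fin n, i ≠ j → ∀ c : F, p i j c / p i j 1 = p a b c / p a b 1 := by
    intro i j hij c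
    by_cases hja : j = a
    · obtain ⟨k, hki, hka⟩ : ∃ k : Fin n, k ≠ i ∧ k ≠ a := by
        by_cases hib : i = b
        · exact ⟨e, by rw [hib]; exact Ne.symm hbe, Ne.symm hae⟩
        · exact ⟨b, Ne.symm hib, Ne.symm hab⟩
      rw [hR1 i k j (Ne.symm hki) (by rw [hja]; exact hka) hij c]
      exact hR3 i k (Ne.symm hki) hka c
    · exact hR3 i j hij hja c
  have hp1 : ∀ i j : Fin n, i ≠ j → ∀ c : F, p i j c = p i j 1 * (p a b c / p a b 1) := by
    intro i j hij c
    rw [← hR i j hij c, mul_div_cancel₀ _ (hne i j hij)]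
  let s : F →+* F :=
    { toFun := fun c => p a b c / p a b 1
      map_one' := div_self (hne a b hab)
      map_mul' := by
        intro c d
        have h := hmul a b e hab hbe hae c d
        rw [hp1 a e hae, hp1 a b hab c, hp1 b e hbe d, hl a b e hab hbe hae] at h
        have h1 := hne a b hab
        have h2 := hne b e hbe
        have h3 : (p a b 1 * p b e 1) * (p a b (c * d) / p a b 1) =
            (p a b 1 * p b e 1) * (p a b c / p a b 1 * (p a b d / p a b 1)) := by
          rw [h]; ring
        exact mul_left_cancel₀ (mul_ne_zero h1 h2) h3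
      map_zero' := by rw [hzero a b hab, zero_div]
      map_add' := by
        intro c d
        rw [hadd a b hab, add_div] }
  have hbij : Function.Bijective s := Finite.injective_iff_bijective.mp s.injective
  have hinv : ∀ i j : Fin n, i ≠ j → p i j 1 * p j i 1 = 1 := by
    intro i j hij
    obtain ⟨k, hki, hkj⟩ : ∃ k : Fin n, k ≠ i ∧ k ≠ j := by
      by_cases h1 : a = i ∨ a = j
      · by_cases h2 : b = i ∨ b = j
        · refine ⟨e, ?_, ?_⟩
          · rintro rfl
            rcases h1 with h1 | h1
            · exact hae h1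
            · rcases h2 with h2 | h2
              · exact hbe h2
              · exact hab (h1.trans h2.symm)
          · rintro rfl
            rcases h1 with h1 | h1
            · rcases h2 with h2 | h2
              · exact hab (h1.trans h2.symm)
              · exact hbe h2
            · exact hae h1
        · rw [not_or] at h2
          exact ⟨b, h2.1, h2.2⟩
      · rw [not_or] at h1
        exact ⟨a, h1.1, h1.2⟩
    have e1 := hl i j k hij (Ne.symm hkj) (Ne.symm hki)
    have e2 := hl j i k (Ne.symm hij) (Ne.symm hki) (Ne.symm hkj)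
    rw [e2] at e1
    have h3 : (p i j 1 * p j i 1) * p i k 1 = 1 * p i k 1 := by
      rw [one_mul, mul_assoc, ← e1]
    exact mul_right_cancel₀ (hne i k (Ne.symm hki)) h3
  have hm : ∀ i : Fin n, (if i = a then (1 : F) else p i a 1) ≠ 0 := by
    intro i
    by_cases hia : i = a
    · rw [if_pos hia]; exact one_ne_zero
    · rw [if_neg hia]; exact hne i a hia
  refine ⟨RingEquiv.ofBijective s hbij, fun i => Units.mk0 _ (hm i), ?_⟩
  intro i j hij c
  rw [hp i j c hij, hp1 i j hij c]
  have hlm : p i j 1 = (if i = a then (1 : F) else p i a 1) *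
      (if j = a then (1 : F) else p j a 1)⁻¹ := by
    rw [eq_mul_inv_iff_mul_eq₀ (hm j)]
    by_cases hja : j = a
    · have hia : i ≠ a := by rw [← hja]; exact hij
      rw [if_pos hja, if_neg hia, mul_one, hja]
    · rw [if_neg hja]
      by_cases hia : i = a
      · rw [if_pos hia, hia]
        exact hinv a j (Ne.symm hja)
      · rw [if_neg hia]
        exact (hl i j a hij hja hia).symm
  have hval : ((Units.mk0 _ (hm i) * (Units.mk0 _ (hm j))⁻¹ : Fˣ) : F) = p i j 1 := by
    rw [hlm, Units.val_mul, Units.val_inv_eq_inv_val, Units.val_mk0, Units.val_mk0]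
  rw [hval]
  rfl

end PLN.S37
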