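import Pool.Agent.PLN.Tr
import Pool.Agent.PLN.FormS37

/-!
# PLN/Form: automorphisms that fix the elementary groups
-/

set_option autoImplicit false

namespace PLN

open Matrix

universe u

variable {n : ℕ} {F : Type u} [Field F] [Finite F]

/-- PROOF. `α (x i j c) = x i j (φ i j c)`, `φ i j` additive and injective; `x_comm`: `φ i k (c d) = φ i j c * φ j k d`; `l i j = φ i j 1 ≠ 0`, `σ c = φ 0 1 c / l 0 1`: then
`φ i j c = l i j * σ c` for all `i ≠ j` and `σ` is multiplicative; `μ i = l i j0` (and suitable for `i = j0`). -/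
theorem good_form (hn : 3 ≤ n) {α : MulAut (PS n F)} (hα : Good α) :
    ∃ σ : F ≃+* F, ∃ μ : Fin n → Fˣ, ∀ i j : Fin n, i ≠ j → ∀ c : F,
      α (x i j c) = x i j (((μ i * (μ j)⁻¹ : Fˣ) : F) * σ c) := PLN.S37.good_form hn hα

end PLN
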