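import Pool.Agent.PLN.Tr

/-!
# PLN/FormS13: automorphisms that fix the elementary groups (helper13)
-/

set_option autoImplicit false

namespace PLN.S13

open Matrix

universe u

/-- maps with `φ i k (a b) = φ i j a * φ j k b` come from one automorphism of the field -/
theorem frame_field {ι : Type} {F : Type u} [Field F]
    (hι : ∀ i j : ι, ∃ k, k ≠ i ∧ k ≠ j) (o : ι) (φ : ι → ι → F → F)
    (hadd : ∀ i j, i ≠ j → ∀ a b, φ i j (a + b) = φ i j a + φ i j b)
    (hbij : ∀ i j, i ≠ j → Function.Bijective (φ i j))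
    (hmul : ∀ i j k, i ≠ j → j ≠ k → i ≠ k → ∀ a b, φ i k (a * b) = φ i j a * φ j k b) :
    ∃ σ : F ≃+* F, ∃ μ : ι → Fˣ, ∀ i j, i ≠ j → ∀ c : F,
      φ i j c = ((μ i * (μ j)⁻¹ : Fˣ) : F) * σ c := by
  classical
  have hz : ∀ i j, i ≠ j → φ i j 0 = 0 := by
    intro i j h
    have := hadd i j h 0 0
    rw [add_zero] at this
    exact (add_eq_left.1 this.symm)
  have hl : ∀ i j, i ≠ j → φ i j 1 ≠ 0 := by
    intro i j h h0
    have h1 : φ i j 1 = φ i j 0 := by rw [h0, hz i j h]
    exact one_ne_zero ((hbij i j h).1 h1)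
  -- the normalized maps
  let s : ι → ι → F → F := fun i j c => φ i j c / φ i j 1
  have hll : ∀ i j k, i ≠ j → j ≠ k → i ≠ k → φ i k 1 = φ i j 1 * φ j k 1 := by
    intro i j k h1 h2 h3
    have := hmul i j k h1 h2 h3 1 1
    rwa [mul_one] at this
  have hs1 : ∀ i j k, i ≠ j → j ≠ k → i ≠ k → s i k = s i j := by
    intro i j k h1 h2 h3
    funext c
    have e1 := hmul i j k h1 h2 h3 c 1
    rw [mul_one] at e1
    show φ i k c / φ i k 1 = φ i j c / φ i j 1
    rw [e1, hll i j k h1 h2 h3, mul_div_mul_right _ _ (hl j k h2)]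
  have hs2 : ∀ i j k, i ≠ j → j ≠ k → i ≠ k → s i k = s j k := by
    intro i j k h1 h2 h3
    funext c
    have e1 := hmul i j k h1 h2 h3 1 c
    rw [one_mul] at e1
    show φ i k c / φ i k 1 = φ j k c / φ j k 1
    rw [e1, hll i j k h1 h2 h3, mul_div_mul_left _ _ (hl i j h1)]
  obtain ⟨o', ho', -⟩ := hι o o
  -- all normalized maps are equal
  have hsrc : ∀ i j k, i ≠ j → i ≠ k → s i j = s i k := by
    intro i j k h1 h2
    by_cases h : j = k
    · rw [h]
    · exact (hs1 i j k h1 h h2).symm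
  have htgt : ∀ i j k, i ≠ k → j ≠ k → s i k = s j k := by
    intro i j k h1 h2
    by_cases h : i = j
    · rw [h]
    · exact hs2 i j k h h2 h1
  have hall : ∀ i j, i ≠ j → s i j = s o o' := by
    intro i j h
    by_cases hi : i = o
    · subst hi
      exact hsrc _ _ _ h ho'.symm
    · obtain ⟨k, hk1, hk2⟩ := hι i o
      rw [hsrc i j k h hk1.symm, htgt i o k hk1.symm hk2.symm, hsrc o k o' hk2.symm ho'.symm]
  set σ0 : F → F := s o o' with hσ0
  have hφ : ∀ i j, i ≠ j → ∀ c, φ i j c = φ i j 1 * σ0 c := by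
    intro i j h c
    rw [← hall i j h]
    show φ i j c = φ i j 1 * (φ i j c / φ i j 1)
    rw [mul_div_cancel₀ _ (hl i j h)]
  have hσadd : ∀ a b, σ0 (a + b) = σ0 a + σ0 b := by
    intro a b
    show φ o o' (a + b) / _ = φ o o' a / _ + φ o o' b / _
    rw [hadd o o' ho'.symm, add_div]
  obtain ⟨o'', h1'', h2''⟩ := hι o o'
  have hσmul : ∀ a b, σ0 (a * b) = σ0 a * σ0 b := by
    intro a b
    have e1 := hmul o o' o'' ho'.symm h2''.symm h1''.symm a b
    rw [hφ o o'' h1''.symm, hφ o o' ho'.symm a, hφ o' o'' h2''.symm b,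
      hll o o' o'' ho'.symm h2''.symm h1''.symm] at e1
    have h1 : φ o o' 1 * φ o' o'' 1 ≠ 0 := mul_ne_zero (hl o o' ho'.symm) (hl o' o'' h2''.symm)
    apply mul_left_cancel₀ h1
    rw [e1]
    ring
  have hσbij : Function.Bijective σ0 := by
    constructor
    · intro a b h
      apply (hbij o o' ho'.symm).1
      rw [hφ o o' ho'.symm a, hφ o o' ho'.symm b, h]
    · intro y
      obtain ⟨c, hc⟩ := (hbij o o' ho'.symm).2 (φ o o' 1 * y)
      refine ⟨c, ?_⟩
      rw [hφ o o' ho'.symm c] at hc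
      exact mul_left_cancel₀ (hl o o' ho'.symm) hc
  let σ : F ≃+* F := { Equiv.ofBijective σ0 hσbij with
    map_mul' := hσmul
    map_add' := hσadd }
  -- the multipliers
  have hinv : ∀ j, j ≠ o → φ o j 1 * φ j o 1 = 1 := by
    intro j hj
    obtain ⟨k, hk1, hk2⟩ := hι o j
    have e1 := hll o j k hj.symm hk2.symm hk1.symm
    have e2 := hll j o k hj hk1.symm hk2.symm
    rw [e2, ← mul_assoc] at e1
    have h3 := hl o k hk1.symm
    have : φ o k 1 * 1 = φ o k 1 * (φ o j 1 * φ j o 1) := by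
      rw [mul_one]
      linear_combination e1
    exact (mul_left_cancel₀ h3 this).symm
  let μ : ι → Fˣ := fun i => if h : i = o then 1 else Units.mk0 (φ i o 1) (hl i o h)
  have hμo : μ o = 1 := dif_pos rfl
  have hμ : ∀ i, i ≠ o → (μ i : F) = φ i o 1 := by
    intro i h
    show ((if h : i = o then 1 else Units.mk0 (φ i o 1) (hl i o h) : Fˣ) : F) = _
    rw [dif_neg h]
    rfl
  refine ⟨σ, μ, fun i j h c => ?_⟩
  have hσ : σ c = σ0 c := rfl
  rw [hφ i j h c, hσ]
  congr 1
  rw [Units.val_mul, Units.val_inv_eq_inv_val, eq_mul_inv_iff_mul_eq₀ (Units.ne_zero _)]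
  by_cases hj : j = o
  · subst hj
    rw [hμo, Units.val_one, mul_one, hμ i h]
  · by_cases hi : i = o
    · subst hi
      rw [hμo, Units.val_one, hμ j hj]
      exact hinv j hj
    · rw [hμ i hi, hμ j hj, hll i j o h hj hi]

variable {n : ℕ} {F : Type u} [Field F] [Finite F]

theorem good_form (hn : 3 ≤ n) {α : MulAut (PS n F)} (hα : Good α) :
    ∃ σ : F ≃+* F, ∃ μ : Fin n → Fˣ, ∀ i j : Fin n, i ≠ j → ∀ c : F,
      α (x i j c) = x i j (((μ i * (μ j)⁻¹ : Fˣ) : F) * σ c) := by
  classical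
  choose φ hφ using hα
  let ψ : Fin n → Fin n → F → F := fun i j c => if h : i ≠ j then φ i j h c else 0
  have hψ : ∀ i j, i ≠ j → ∀ c, α (x i j c) = x i j (ψ i j c) := by
    intro i j h c
    have : ψ i j c = φ i j h c := dif_pos h
    rw [this]
    exact hφ i j h c
  have hadd : ∀ i j, i ≠ j → ∀ a b, ψ i j (a + b) = ψ i j a + ψ i j b := by
    intro i j h a b
    apply x_inj hn h
    rw [← hψ i j h, x_add h, x_add h, map_mul, hψ i j h, hψ i j h]
  have hinj : ∀ i j, i ≠ j → Function.Injective (ψ i j) := by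
    intro i j h a b e
    apply x_inj hn h
    apply α.injective
    rw [hψ i j h, hψ i j h, e]
  have hmul : ∀ i j k, i ≠ j → j ≠ k → i ≠ k → ∀ a b, ψ i k (a * b) = ψ i j a * ψ j k b := by
    intro i j k h1 h2 h3 a b
    apply x_inj hn h3
    rw [← hψ i k h3, ← x_comm h1 h2 h3, ← x_comm h1 h2 h3, map_mul, map_mul, map_mul, map_inv,
      map_inv, hψ i j h1, hψ j k h2]
  have hι : ∀ i j : Fin n, ∃ k, k ≠ i ∧ k ≠ j := by
    intro i j
    by_contra hcon
    push Not at hcon
    have h1 : (Finset.univ : Finset (Fin n)) ⊆ {i, j} := by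
      intro k _
      simp only [Finset.mem_insert, Finset.mem_singleton]
      by_cases hk : k = i
      · exact Or.inl hk
      · exact Or.inr (hcon k hk)
    have h2 := Finset.card_le_card h1
    rw [Finset.card_univ, Fintype.card_fin] at h2
    have h3 : ({i, j} : Finset (Fin n)).card ≤ 2 := Finset.card_le_two
    omega
  obtain ⟨σ, μ, h⟩ := frame_field hι ⟨0, by omega⟩ ψ hadd
    (fun i j h => ⟨hinj i j h, Finite.injective_iff_surjective.1 (hinj i j h)⟩) hmul
  exact ⟨σ, μ, fun i j hij c => by rw [hψ i j hij c, h i j hij c]⟩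

end PLN.S13
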