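import Mathlib

/-!
# PLN/FormS81: root maps that respect the commutator relations
-/

set_option autoImplicit false

namespace PLN.S81

universe u

variable {F : Type u} [Field F]

theorem phi_form {n : ℕ} (hn : 3 ≤ n) (φ : Fin n → Fin n → F → F)
    (hadd : ∀ i j, i ≠ j → ∀ a b, φ i j (a + b) = φ i j a + φ i j b)
    (h1 : ∀ i j, i ≠ j → φ i j 1 ≠ 0)
    (hmul : ∀ i j k, i ≠ j → j ≠ k → i ≠ k → ∀ a b, φ i k (a * b) = φ i j a * φ j k b) :
    ∃ (s : F →+* F) (m : Fin n → Fˣ), ∀ i j, i ≠ j → ∀ c,
      φ i j c = (m i : F) * ((m j)⁻¹ : Fˣ) * s c := by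
  classical
  -- third index
  have third : ∀ i j : Fin n, ∃ k, k ≠ i ∧ k ≠ j := by
    intro i j
    have : ({i, j} : Finset (Fin n)).card < (Finset.univ : Finset (Fin n)).card := by
      rw [Finset.card_univ, Fintype.card_fin]
      exact lt_of_le_of_lt Finset.card_le_two (by omega)
    obtain ⟨k, -, hk⟩ := Finset.exists_mem_notMem_of_card_lt_card this
    simp only [Finset.mem_insert, Finset.mem_singleton, not_or] at hk
    exact ⟨k, hk⟩
  set l : Fin n → Fin n → F := fun i j => φ i j 1 with hl
  have hl1 : ∀ i j k, i ≠ j → j ≠ k → i ≠ k → l i k = l i j * l j k := by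
    intro i j k hij hjk hik
    have := hmul i j k hij hjk hik 1 1
    rwa [one_mul] at this
  -- rows and columns
  have hcol : ∀ i j k, i ≠ j → j ≠ k → i ≠ k → ∀ c, φ i k c * l j k = φ j k c * l i k := by
    intro i j k hij hjk hik c
    have e1 := hmul i j k hij hjk hik 1 c
    rw [one_mul] at e1
    rw [e1, hl1 i j k hij hjk hik]
    ring
  have hrow : ∀ i j k, i ≠ j → j ≠ k → i ≠ k → ∀ c, φ i k c * l i j = φ i j c * l i k := by
    intro i j k hij hjk hik c
    have e1 := hmul i j k hij hjk hik c 1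
    rw [mul_one] at e1
    rw [e1, hl1 i j k hij hjk hik]
    ring
  have hn0 : 0 < n := by omega
  let o : Fin n := ⟨0, hn0⟩
  let t : Fin n := ⟨1, by omega⟩
  have hot : o ≠ t := by
    intro h
    have := congrArg Fin.val h
    simp [o, t] at this
  -- σ i j c = φ i j c / l i j
  have hl0 : ∀ i j, i ≠ j → l i j ≠ 0 := h1
  set σ : Fin n → Fin n → F → F := fun i j c => φ i j c / l i j with hσ
  have scol : ∀ i j k, i ≠ k → j ≠ k → σ i k = σ j k := by
    intro i j k hik hjk
    by_cases hij : i = j
    · rw [hij]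
    funext c
    simp only [hσ]
    rw [div_eq_div_iff (hl0 i k hik) (hl0 j k hjk)]
    exact hcol i j k hij hjk hik c
  have srow : ∀ i j k, i ≠ j → i ≠ k → σ i j = σ i k := by
    intro i j k hij hik
    by_cases hjk : j = k
    · rw [hjk]
    funext c
    simp only [hσ]
    rw [div_eq_div_iff (hl0 i j hij) (hl0 i k hik)]
    exact (hrow i j k hij hjk hik c).symm
  have hall : ∀ i j, i ≠ j → σ i j = σ o t := by
    intro i j hij
    obtain ⟨k, hk1, hk2⟩ := third o j
    -- (i, j) → (k, j) → (k, ?) 
    by_cases hjo : j = o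
    · -- column o : go to row k' with k' ≠ o, t
      obtain ⟨r, hr1, hr2⟩ := third o t
      rw [scol i r j hij (by rw [hjo]; exact hr1), srow r j t (by rw [hjo]; exact hr1) hr2,
        scol r o t hr2 hot]
    · rw [scol i o j hij (fun h => hjo h.symm), srow o j t (fun h => hjo h.symm) hot]
  have hφ : ∀ i j, i ≠ j → ∀ c, φ i j c = l i j * σ o t c := by
    intro i j hij c
    rw [← hall i j hij]
    simp only [hσ]
    rw [mul_div_cancel₀ _ (hl0 i j hij)]
  obtain ⟨r, hr1, hr2⟩ := third o t
  have hs1 : σ o t 1 = 1 := by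
    simp only [hσ]
    exact div_self (hl0 o t hot)
  have hsmul : ∀ a b, σ o t (a * b) = σ o t a * σ o t b := by
    intro a b
    have e1 := hmul o t r hot hr2.symm hr1.symm a b
    rw [hφ o r hr1.symm, hφ o t hot, hφ t r hr2.symm, hl1 o t r hot hr2.symm hr1.symm] at e1
    have h2 : l o t * l t r ≠ 0 := mul_ne_zero (hl0 _ _ hot) (hl0 _ _ hr2.symm)
    apply mul_left_cancel₀ h2
    rw [e1]
    ring
  have hsadd : ∀ a b, σ o t (a + b) = σ o t a + σ o t b := by
    intro a b
    simp only [hσ]
    rw [hadd o t hot, add_div]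
  have hinv : ∀ j, j ≠ o → l o j * l j o = 1 := by
    intro j hj
    obtain ⟨k, hk1, hk2⟩ := third o j
    have e1 := hl1 o j k hj.symm hk2.symm hk1.symm
    have e2 := hl1 j o k hj hk1.symm hk2.symm
    rw [e2, ← mul_assoc] at e1
    have h3 := hl0 o k hk1.symm
    have : (l o j * l j o) * l o k = 1 * l o k := by rw [one_mul]; exact e1.symm
    exact mul_right_cancel₀ h3 this
  refine ⟨{ toFun := σ o t, map_one' := hs1, map_mul' := hsmul, map_zero' := ?_, map_add' := hsadd },
    fun j => if h : j = o then 1 else Units.mk0 (l j o) (hl0 j o h), ?_⟩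
  · have := hsadd 0 0
    rw [add_zero] at this
    simpa using this
  · intro i j hij c
    rw [hφ i j hij c]
    change l i j * σ o t c = _ * σ o t c
    congr 1
    by_cases hi : i = o
    · have hj : j ≠ o := fun h => hij (hi.trans h.symm)
      simp only [hi, hj, dif_pos, dif_neg, not_false_eq_true]
      rw [Units.val_one, one_mul, Units.val_inv_eq_inv_val, Units.val_mk0]
      exact eq_inv_of_mul_eq_one_left (hinv j hj)
    · by_cases hj : j = o
      · simp only [hi, hj, dif_pos, dif_neg, not_false_eq_true]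
        simp
      · simp only [hi, hj, dif_neg, not_false_eq_true]
        rw [Units.val_inv_eq_inv_val, Units.val_mk0, Units.val_mk0, hl1 i o j hi (Ne.symm hj) hij]
        congr 1
        exact eq_inv_of_mul_eq_one_left (hinv j hj)

end PLN.S81
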