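import Mathlib

/-!
# PLN/FwdS97: a system of matrices with the relations of elementary matrices (helper97)
-/

set_option autoImplicit false

namespace PLN.S97

open Matrix

variable {F : Type*} [Field F] {n : ℕ}

theorem fwd (hn : 3 ≤ n) (N : Fin n → Fin n → F → Matrix (Fin n) (Fin n) F)
    (hs : ∀ i j, i ≠ j → ∀ c, ∃ s : F, N i j c = s • N i j 1)
    (hadd : ∀ i j, i ≠ j → ∀ c d, N i j (c + d) = N i j c + N i j d)
    (hne : ∀ i j, i ≠ j → N i j 1 ≠ 0)
    (hmul : ∀ i j k, i ≠ j → j ≠ k → i ≠ k → ∀ c d, N i j c * N j k d = N i k (c * d))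
    (hzero : ∀ i j k l, i ≠ j → k ≠ l → j ≠ k → N i j 1 * N k l 1 = 0) :
    ∃ (g : GL (Fin n) F) (σ : F →+* F), ∀ i j, i ≠ j → ∀ c,
      N i j c = σ c • (g.1 * Matrix.single i j 1 * (g⁻¹).1) := by
  classical
  obtain ⟨o, ho⟩ : ∃ o : Fin n, o = ⟨0, by omega⟩ := ⟨_, rfl⟩
  obtain ⟨t, ht⟩ : ∃ t : Fin n, t = ⟨1, by omega⟩ := ⟨_, rfl⟩
  have hot : o ≠ t := by
    rw [ho, ht]
    intro h
    have := congrArg Fin.val h
    simp at this
  -- a third index
  have hthird : ∀ i j : Fin n, ∃ m : Fin n, m ≠ i ∧ m ≠ j := by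
    intro i j
    by_contra hcon
    push Not at hcon
    have h1 : (Finset.univ : Finset (Fin n)) ⊆ {i, j} := by
      intro m _
      rw [Finset.mem_insert, Finset.mem_singleton]
      by_contra h
      push Not at h
      exact h.2 (hcon m h.1)
    have h2 := Finset.card_le_card h1
    have h3 : ({i, j} : Finset (Fin n)).card ≤ 2 := Finset.card_le_two
    rw [Finset.card_univ, Fintype.card_fin] at h2
    omega
  have hmul1 : ∀ i j k, i ≠ j → j ≠ k → i ≠ k → N i j 1 * N j k 1 = N i k 1 := by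
    intro i j k h1 h2 h3
    rw [hmul i j k h1 h2 h3, mul_one]
  -- the first vector
  obtain ⟨u, hu⟩ : ∃ u : Fin n → F, N o t 1 *ᵥ u ≠ 0 := by
    by_contra hcon
    push Not at hcon
    apply hne o t hot
    ext a b
    have := congrFun (hcon (Pi.single b 1)) a
    rw [Matrix.mulVec_single_one] at this
    simpa using this
  obtain ⟨w0, hw0⟩ : ∃ w0, w0 = N o t 1 *ᵥ u := ⟨_, rfl⟩
  rw [← hw0] at hu
  have hrep : ∀ m, m ≠ o → ∃ u', w0 = N o m 1 *ᵥ u' := by
    intro m hm
    rcases eq_or_ne m t with h | h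
    · exact ⟨u, by rw [hw0, h]⟩
    · refine ⟨N m t 1 *ᵥ u, ?_⟩
      rw [Matrix.mulVec_mulVec, hmul1 o m t (Ne.symm hm) h hot, hw0]
  obtain ⟨w, hw⟩ : ∃ w : Fin n → Fin n → F, ∀ j, w j = if j = o then w0 else N j o 1 *ᵥ w0 :=
    ⟨_, fun _ => rfl⟩
  have hwo : w o = w0 := by rw [hw, if_pos rfl]
  have hwj : ∀ j, j ≠ o → w j = N j o 1 *ᵥ w0 := fun j hj => by rw [hw, if_neg hj]
  have c1 : ∀ i j, i ≠ j → N i j 1 *ᵥ w j = w i := by
    intro i j hij
    rcases eq_or_ne j o with h | h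
    · rw [h, hwo, hwj i (h ▸ hij)]
    · rw [hwj j h]
      rcases eq_or_ne i o with h' | h'
      · rw [h', hwo]
        obtain ⟨m, hmj, hmo⟩ := hthird j o
        obtain ⟨u', hu'⟩ := hrep m hmo
        rw [hu', Matrix.mulVec_mulVec, Matrix.mulVec_mulVec, mul_assoc,
          hmul1 j o m h (Ne.symm hmo) (Ne.symm hmj),
          hmul1 o j m (Ne.symm h) (Ne.symm hmj) (Ne.symm hmo)]
      · rw [Matrix.mulVec_mulVec, hmul1 i j o hij h h', hwj i h']
  have c2 : ∀ i j k, i ≠ j → k ≠ j → N i j 1 *ᵥ w k = 0 := by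
    intro i j k hij hkj
    rcases eq_or_ne k o with h | h
    · subst h
      rw [hwo]
      obtain ⟨m, hmo, _⟩ := hthird k k
      obtain ⟨u', hu'⟩ := hrep m hmo
      rw [hu', Matrix.mulVec_mulVec, hzero i j k m hij (Ne.symm hmo) (Ne.symm hkj),
        Matrix.zero_mulVec]
    · rw [hwj k h, Matrix.mulVec_mulVec, hzero i j k o hij h (Ne.symm hkj), Matrix.zero_mulVec]
  have hwne : ∀ i, w i ≠ 0 := by
    intro i h
    rcases eq_or_ne i o with h' | h'
    · rw [h', hwo] at h
      exact hu h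
    · have := c1 o i (Ne.symm h')
      rw [h, Matrix.mulVec_zero, hwo] at this
      exact hu this.symm
  obtain ⟨W, hW⟩ : ∃ W : Matrix (Fin n) (Fin n) F, W = Matrix.of (fun a k => w k a) := ⟨_, rfl⟩
  have hlin : LinearIndependent F W.col := by
    rw [Fintype.linearIndependent_iff]
    intro g hg j
    obtain ⟨i, hij, _⟩ := hthird j j
    have h1 := congrArg (fun z => N i j 1 *ᵥ z) hg
    have hcol : ∀ k, W.col k = w k := by
      intro k
      rw [hW]
      rfl
    simp only [hcol, Matrix.mulVec_zero] at h1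
    rw [Matrix.mulVec_sum] at h1
    rw [Finset.sum_eq_single j] at h1
    · rw [Matrix.mulVec_smul, c1 i j hij] at h1
      exact (smul_eq_zero.1 h1).resolve_right (hwne i)
    · intro k _ hk
      rw [Matrix.mulVec_smul, c2 i j k hij hk, smul_zero]
    · intro h
      exact absurd (Finset.mem_univ j) h
  have hunit : IsUnit W := Matrix.linearIndependent_cols_iff_isUnit.1 hlin
  obtain ⟨g, hg⟩ := hunit
  have key : ∀ i j, i ≠ j → N i j 1 * W = W * Matrix.single i j 1 := by
    intro i j hij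
    ext a k
    have e1 : (N i j 1 * W) a k = (N i j 1 *ᵥ w k) a := by
      rw [Matrix.mul_apply, Matrix.mulVec, dotProduct]
      rw [hW]
      rfl
    rw [e1]
    rcases eq_or_ne k j with h | h
    · rw [h, c1 i j hij, Matrix.mul_single_apply_same, mul_one, hW]
      rfl
    · rw [c2 i j k hij h, Matrix.mul_single_apply_of_ne _ _ _ _ _ h]
      rfl
  have key2 : ∀ i j, i ≠ j → N i j 1 = g.1 * Matrix.single i j 1 * (g⁻¹).1 := by
    intro i j hij
    have h1 := key i j hij
    rw [← hg] at h1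
    rw [← h1, mul_assoc, ← Units.val_mul, mul_inv_cancel, Units.val_one, mul_one]
  -- the scalars
  have hs' : ∀ i j : Fin n, ∃ s : F → F, i ≠ j → ∀ c, N i j c = s c • N i j 1 := by
    intro i j
    by_cases h : i = j
    · exact ⟨fun _ => 0, fun h' => absurd h h'⟩
    · choose s hs1 using hs i j h
      exact ⟨s, fun _ => hs1⟩
  choose s hs using hs'
  have hcancel : ∀ i j, i ≠ j → ∀ x y : F, x • N i j 1 = y • N i j 1 → x = y := by
    intro i j hij x y hxy
    have h1 : (x - y) • N i j 1 = 0 := by rw [sub_smul, hxy, sub_self]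
    exact sub_eq_zero.1 ((smul_eq_zero.1 h1).resolve_right (hne i j hij))
  have hs1 : ∀ i j, i ≠ j → s i j 1 = 1 := by
    intro i j hij
    apply hcancel i j hij
    rw [← hs i j hij, one_smul]
  have hsm : ∀ i j k, i ≠ j → j ≠ k → i ≠ k → ∀ c d, s i j c * s j k d = s i k (c * d) := by
    intro i j k h1 h2 h3 c d
    apply hcancel i k h3
    rw [← hs i k h3, ← hmul i j k h1 h2 h3, hs i j h1 c, hs j k h2 d, Matrix.smul_mul,
      Matrix.mul_smul, smul_smul, hmul1 i j k h1 h2 h3]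
  have r1 : ∀ i j k, i ≠ j → j ≠ k → i ≠ k → ∀ c, s i j c = s i k c := by
    intro i j k h1 h2 h3 c
    have := hsm i j k h1 h2 h3 c 1
    rwa [hs1 j k h2, mul_one, mul_one] at this
  have r2 : ∀ i j k, i ≠ j → j ≠ k → i ≠ k → ∀ c, s j k c = s i k c := by
    intro i j k h1 h2 h3 c
    have := hsm i j k h1 h2 h3 1 c
    rwa [hs1 i j h1, one_mul, one_mul] at this
  have ro : ∀ j, j ≠ o → ∀ c, s o j c = s o t c := by
    intro j hj c
    rcases eq_or_ne j t with h | h
    · rw [h]
    · exact r1 o j t (Ne.symm hj) h hot c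
  have rall' : ∀ i j, i ≠ j → j ≠ o → ∀ c, s i j c = s o t c := by
    intro i j hij hj c
    rcases eq_or_ne i o with h | h
    · rw [h]
      exact ro j hj c
    · rw [r2 o i j (Ne.symm h) hij (Ne.symm hj) c]
      exact ro j hj c
  have rall : ∀ i j, i ≠ j → ∀ c, s i j c = s o t c := by
    intro i j hij c
    rcases eq_or_ne j o with h | h
    · obtain ⟨m, hmi, hmo⟩ := hthird i o
      rw [h] at hij ⊢
      rw [r1 i o m hij (Ne.symm hmo) (Ne.symm hmi) c]
      exact rall' i m (Ne.symm hmi) hmo c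
    · exact rall' i j hij h c
  obtain ⟨m, hmo, hmt⟩ := hthird o t
  refine ⟨g, ⟨⟨⟨s o t, hs1 o t hot⟩, ?_⟩, ?_, ?_⟩, ?_⟩
  · intro c d
    show s o t (c * d) = s o t c * s o t d
    have h1 := hsm o m t (Ne.symm hmo) hmt hot c d
    rw [rall o m (Ne.symm hmo), rall m t hmt] at h1
    exact h1.symm
  · show s o t 0 = 0
    have h1 := hadd o t hot 0 0
    rw [add_zero, hs o t hot 0] at h1
    have h2 : s o t 0 • N o t 1 = 0 := by
      have h3 : s o t 0 • N o t 1 + s o t 0 • N o t 1 = s o t 0 • N o t 1 + 0 := by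
        rw [← h1, add_zero]
      exact add_left_cancel h3
    exact (smul_eq_zero.1 h2).resolve_right (hne o t hot)
  · intro c d
    show s o t (c + d) = s o t c + s o t d
    apply hcancel o t hot
    rw [← hs o t hot, hadd o t hot, add_smul, ← hs o t hot, ← hs o t hot]
  · intro i j hij c
    show N i j c = s o t c • (g.1 * Matrix.single i j 1 * (g⁻¹).1)
    rw [hs i j hij c, rall i j hij c, ← key2 i j hij]

end PLN.S97
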