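import Mathlib

/-!
# PLN/GalS14: automorphisms of a finite field (helper14)
-/

set_option autoImplicit false

namespace PLN.S14

universe u

theorem card_ringAut (F : Type u) [Field F] [Finite F] :
    Nat.card (F ≃+* F) ≤ Nat.log 2 (Nat.card F) := by
  classical
  obtain ⟨p, hp⟩ := CharP.exists F
  have hpp : Fact p.Prime := ⟨CharP.char_is_prime F p⟩
  letI : Algebra (ZMod p) F := ZMod.algebra F p
  haveI : Module.Finite (ZMod p) F := Module.Finite.of_finite
  have h1 : Nat.card (F ≃+* F) ≤ Nat.card (F ≃ₐ[ZMod p] F) := by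
    refine Nat.card_le_card_of_injective (fun f : F ≃+* F =>
      (AlgEquiv.ofRingEquiv (f := f) (fun r => by
        have h := Subsingleton.elim ((f : F →+* F).comp (algebraMap (ZMod p) F))
          (algebraMap (ZMod p) F)
        exact RingHom.congr_fun h r) : F ≃ₐ[ZMod p] F)) ?_
    intro f g hfg
    ext x
    have := AlgEquiv.congr_fun hfg x
    exact this
  have h2 : Nat.card (F ≃ₐ[ZMod p] F) ≤ Module.finrank (ZMod p) F := by
    have := AlgEquiv.card_le (F := ZMod p) (K := F)
    rw [Nat.card_eq_fintype_card]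
    exact this
  have h3 : Nat.card F = p ^ Module.finrank (ZMod p) F := by
    have := Module.natCard_eq_pow_finrank (K := ZMod p) (V := F)
    rwa [Nat.card_zmod] at this
  refine h1.trans (h2.trans ?_)
  rw [h3]
  calc Module.finrank (ZMod p) F = Nat.log 2 (2 ^ Module.finrank (ZMod p) F) :=
        (Nat.log_pow (by norm_num) _).symm
    _ ≤ Nat.log 2 (p ^ Module.finrank (ZMod p) F) :=
        Nat.log_mono_right (Nat.pow_le_pow_left hpp.1.two_le _)

end PLN.S14
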