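import Mathlib
import Pool.Agent.PLN.GalS14

/-!
# PLN/Gal (STUB): automorphisms of a finite field
-/

set_option autoImplicit false

namespace PLN

open Matrix

universe u

theorem card_ringAut (F : Type u) [Field F] [Finite F] :
    Nat.card (F ≃+* F) ≤ Nat.log 2 (Nat.card F) :=
  S14.card_ringAut F

end PLN
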