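import Pool.Agent.PLN.Defs

/-!
# PLN: injectivity of the parametrization of transvections
-/

set_option autoImplicit false

namespace PLN.S51

open Matrix

universe u

variable {n : ℕ} {F : Type u} [Field F]

theorem tM_coe {v φ : Fin n → F} (h : φ ⬝ᵥ v = 0) : (tM v φ).1 = 1 + vecMulVec v φ := by
  unfold tM
  rw [dif_pos h]

theorem mk_eq {A B : GS n F} (e : (QuotientGroup.mk A : PS n F) = QuotientGroup.mk B) :
    ∃ r : F, B.1 = r • A.1 := by
  rw [QuotientGroup.eq, Matrix.SpecialLinearGroup.mem_center_iff] at e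
  obtain ⟨r, -, hrA⟩ := e
  refine ⟨r, ?_⟩
  have h1 : B.1 = A.1 * (Matrix.scalar (Fin n) r) := by
    rw [hrA, ← Matrix.SpecialLinearGroup.coe_mul, mul_inv_cancel_left]
  rw [h1]
  ext i j
  rw [Matrix.scalar_apply, Matrix.mul_diagonal, Matrix.smul_apply, smul_eq_mul, mul_comm]

/-- some nonzero vector is annihilated by two given linear forms -/
theorem exists_perp (hn : 3 ≤ n) (φ φ' : Fin n → F) :
    ∃ x : Fin n → F, x ≠ 0 ∧ φ ⬝ᵥ x = 0 ∧ φ' ⬝ᵥ x = 0 := by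
  let f : (Fin n → F) →ₗ[F] (Fin 2 → F) := (Matrix.of ![φ, φ']).mulVecLin
  have hlt : Module.finrank F (Fin 2 → F) < Module.finrank F (Fin n → F) := by
    rw [Module.finrank_fin_fun, Module.finrank_fin_fun]
    omega
  have hk := LinearMap.ker_ne_bot_of_finrank_lt (f := f) hlt
  obtain ⟨x, hx, hx0⟩ := (Submodule.ne_bot_iff _).mp hk
  rw [LinearMap.mem_ker] at hx
  have h0 := congrFun hx 0
  have h1 := congrFun hx 1
  refine ⟨x, hx0, ?_, ?_⟩
  · simpa [f, Matrix.mulVec] using h0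
  · simpa [f, Matrix.mulVec] using h1

theorem vmv_mulVec (v φ x : Fin n → F) : vecMulVec v φ *ᵥ x = (φ ⬝ᵥ x) • v := by
  ext i
  simp only [Matrix.mulVec, dotProduct, vecMulVec_apply, Pi.smul_apply, smul_eq_mul,
    Finset.sum_mul]
  refine Finset.sum_congr rfl (fun j _ => ?_)
  ring

theorem t_inj (hn : 3 ≤ n) {v φ v' φ' : Fin n → F} (h : φ ⬝ᵥ v = 0) (h' : φ' ⬝ᵥ v' = 0)
    (e : t v φ = t v' φ') : vecMulVec v φ = vecMulVec v' φ' := by
  obtain ⟨r, hr⟩ := mk_eq e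
  rw [tM_coe h, tM_coe h'] at hr
  obtain ⟨x, hx, h1, h2⟩ := exists_perp hn φ φ'
  have h3 := congrArg (fun M => M *ᵥ x) hr
  simp only [Matrix.add_mulVec, Matrix.smul_mulVec, Matrix.one_mulVec, vmv_mulVec, h1, h2,
    zero_smul, add_zero] at h3
  have h4 : r = 1 := by
    have h5 : (1 - r) • x = 0 := by
      rw [sub_smul, one_smul, ← h3, sub_self]
    rcases smul_eq_zero.mp h5 with h6 | h6
    · exact (sub_eq_zero.mp h6).symm
    · exact absurd h6 hx
  rw [h4, one_smul] at hr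
  exact (add_left_cancel hr).symm

theorem vmv_ne_zero {v φ : Fin n → F} (hv : v ≠ 0) (hφ : φ ≠ 0) : vecMulVec v φ ≠ 0 := by
  obtain ⟨i, hi⟩ := Function.ne_iff.mp hv
  obtain ⟨j, hj⟩ := Function.ne_iff.mp hφ
  intro h
  have := congrFun (congrFun h i) j
  rw [vecMulVec_apply] at this
  exact mul_ne_zero hi hj this

theorem t_ne_one (hn : 3 ≤ n) {v φ : Fin n → F} (h : Flag v φ) : t v φ ≠ 1 := by
  intro e
  have h0 : φ ⬝ᵥ (0 : Fin n → F) = 0 := dotProduct_zero φ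
  have h1 : t (0 : Fin n → F) φ = 1 := by
    unfold t
    have : tM (0 : Fin n → F) φ = 1 := by
      apply Subtype.ext
      rw [tM_coe h0, zero_vecMulVec, add_zero]
      rfl
    rw [this]
    rfl
  have h2 := t_inj hn h.2.2 h0 (e.trans h1.symm)
  rw [zero_vecMulVec] at h2
  exact vmv_ne_zero h.1 h.2.1 h2

theorem par_of_eq {v φ v' φ' : Fin n → F} (hv : v ≠ 0) (hφ : φ ≠ 0)
    (e : vecMulVec v φ = vecMulVec v' φ') : Par v v' ∧ Par φ φ' := by
  obtain ⟨i, hi⟩ := Function.ne_iff.mp hv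
  obtain ⟨j, hj⟩ := Function.ne_iff.mp hφ
  have hi0 : v i ≠ 0 := hi
  have hj0 : φ j ≠ 0 := hj
  have hE : ∀ a b, v a * φ b = v' a * φ' b := by
    intro a b
    have := congrFun (congrFun e a) b
    rwa [vecMulVec_apply, vecMulVec_apply] at this
  have hij : v' i * φ' j ≠ 0 := by
    rw [← hE i j]
    exact mul_ne_zero hi0 hj0
  have hi' : v' i ≠ 0 := left_ne_zero_of_mul hij
  have hj' : φ' j ≠ 0 := right_ne_zero_of_mul hij
  refine ⟨⟨φ j / φ' j, div_ne_zero hj0 hj', ?_⟩, ⟨v i / v' i, div_ne_zero hi0 hi', ?_⟩⟩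
  · ext a
    rw [Pi.smul_apply, smul_eq_mul, div_mul_eq_mul_div, eq_div_iff hj', ← hE a j, mul_comm]
  · ext b
    rw [Pi.smul_apply, smul_eq_mul, div_mul_eq_mul_div, eq_div_iff hi', hE i b, mul_comm]

theorem t_inj_par (hn : 3 ≤ n) {v φ v' φ' : Fin n → F} (h : Flag v φ) (h' : Flag v' φ')
    (e : t v φ = t v' φ') : Par v v' ∧ Par φ φ' :=
  par_of_eq h.1 h.2.1 (t_inj hn h.2.2 h'.2.2 e)

end PLN.S51
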