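import Pool.Agent.PLN.Defs

/-!
# PLN/TrS63: transvections (helper63)
-/

set_option autoImplicit false

namespace PLN.S63

open Matrix PLN

universe u

variable {n : ℕ} {F : Type u} [Field F]

theorem tM_coe {v φ : Fin n → F} (h : φ ⬝ᵥ v = 0) : (tM v φ).1 = 1 + vecMulVec v φ := by
  have h1 : tM v φ = (⟨1 + vecMulVec v φ, det_tr h⟩ : GS n F) := dif_pos h
  rw [h1]

theorem tM_zero (φ : Fin n → F) : tM 0 φ = (1 : GS n F) := by
  apply Subtype.ext
  rw [tM_coe (dotProduct_zero φ)]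
  have h : vecMulVec (0 : Fin n → F) φ = 0 := by
    ext i j
    simp [vecMulVec_apply]
  rw [h, add_zero]
  rfl

theorem t_zero (φ : Fin n → F) : t 0 φ = 1 := by
  unfold t
  rw [tM_zero]
  rfl

theorem prod_zero {v v' φ φ' : Fin n → F} (h : φ ⬝ᵥ v' = 0) :
    vecMulVec v φ * vecMulVec v' φ' = 0 := by
  ext i j
  rw [Matrix.mul_apply]
  simp only [vecMulVec_apply, Matrix.zero_apply]
  have h1 : ∀ k, v i * φ k * (v' k * φ' j) = v i * φ' j * (φ k * v' k) := fun k => by ring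
  rw [Finset.sum_congr rfl fun k _ => h1 k, ← Finset.mul_sum]
  have h2 : ∑ k, φ k * v' k = 0 := h
  rw [h2, mul_zero]

theorem tM_add_left {v v' φ : Fin n → F} (h : φ ⬝ᵥ v = 0) (h' : φ ⬝ᵥ v' = 0) :
    tM (v + v') φ = tM v φ * tM v' φ := by
  apply Subtype.ext
  have h2 : φ ⬝ᵥ (v + v') = 0 := by rw [dotProduct_add, h, h', add_zero]
  rw [tM_coe h2]
  change _ = (tM v φ).1 * (tM v' φ).1
  rw [tM_coe h, tM_coe h', add_mul, mul_add, mul_add, one_mul, mul_one, prod_zero h', one_mul,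
    add_zero, add_assoc]
  congr 1
  ext i j
  simp only [vecMulVec_apply, Matrix.add_apply, Pi.add_apply]
  ring

theorem tM_add_right {v φ φ' : Fin n → F} (h : φ ⬝ᵥ v = 0) (h' : φ' ⬝ᵥ v = 0) :
    tM v (φ + φ') = tM v φ * tM v φ' := by
  apply Subtype.ext
  have h2 : (φ + φ') ⬝ᵥ v = 0 := by rw [add_dotProduct, h, h', add_zero]
  rw [tM_coe h2]
  change _ = (tM v φ).1 * (tM v φ').1
  rw [tM_coe h, tM_coe h', add_mul, mul_add, mul_add, one_mul, mul_one, prod_zero h, one_mul,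
    add_zero, add_assoc]
  congr 1
  ext i j
  simp only [vecMulVec_apply, Matrix.add_apply, Pi.add_apply]
  ring

theorem t_add_left {v v' φ : Fin n → F} (h : φ ⬝ᵥ v = 0) (h' : φ ⬝ᵥ v' = 0) :
    t (v + v') φ = t v φ * t v' φ := by
  unfold t
  rw [tM_add_left h h']
  rfl

theorem t_add_right {v φ φ' : Fin n → F} (h : φ ⬝ᵥ v = 0) (h' : φ' ⬝ᵥ v = 0) :
    t v (φ + φ') = t v φ * t v φ' := by
  unfold t
  rw [tM_add_right h h']
  rfl

theorem t_smul (c : F) {v φ : Fin n → F} (h : φ ⬝ᵥ v = 0) : t (c • v) φ = t v (c • φ) := by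
  unfold t
  congr 1
  apply Subtype.ext
  have h1 : φ ⬝ᵥ (c • v) = 0 := by rw [dotProduct_smul, h, smul_zero]
  have h2 : (c • φ) ⬝ᵥ v = 0 := by rw [smul_dotProduct, h, smul_zero]
  rw [tM_coe h1, tM_coe h2]
  congr 1
  ext i j
  simp only [vecMulVec_apply, Pi.smul_apply, smul_eq_mul]
  ring

end PLN.S63
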