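import Pool.Agent.PLN.TrS31
import Pool.Agent.PLN.TrS63
import Pool.Agent.PLN.Defs
import Pool.Agent.PLN.TrS51

/-!
# PLN/Tr (STUB): transvections
-/

set_option autoImplicit false

namespace PLN

open Matrix

universe u

variable {n : ℕ} {F : Type u} [Field F]

theorem tM_coe {v φ : Fin n → F} (h : φ ⬝ᵥ v = 0) : (tM v φ).1 = 1 + vecMulVec v φ := S63.tM_coe h

theorem t_zero (φ : Fin n → F) : t 0 φ = 1 := S63.t_zero φ

theorem t_add_left {v v' φ : Fin n → F} (h : φ ⬝ᵥ v = 0) (h' : φ ⬝ᵥ v' = 0) :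
    t (v + v') φ = t v φ * t v' φ := S63.t_add_left h h'

theorem t_add_right {v φ φ' : Fin n → F} (h : φ ⬝ᵥ v = 0) (h' : φ' ⬝ᵥ v = 0) :
    t v (φ + φ') = t v φ * t v φ' := S63.t_add_right h h'

theorem t_smul (c : F) {v φ : Fin n → F} (h : φ ⬝ᵥ v = 0) : t (c • v) φ = t v (c • φ) :=
  S63.t_smul c h

/-- PROOF. `1 + M = z (1 + M')` with a scalar `z`; `(1 - z) 1 = z M' - M` has rank at most `2 < n`, so `z = 1`. -/
theorem t_inj (hn : 3 ≤ n) {v φ v' φ' : Fin n → F} (h : φ ⬝ᵥ v = 0) (h' : φ' ⬝ᵥ v' = 0)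
    (e : t v φ = t v' φ') : vecMulVec v φ = vecMulVec v' φ' := S51.t_inj hn h h' e

theorem t_ne_one (hn : 3 ≤ n) {v φ : Fin n → F} (h : Flag v φ) : t v φ ≠ 1 := S51.t_ne_one hn h

/-- PROOF. From `t_inj`: equal matrices of rank one. -/
theorem t_inj_par (hn : 3 ≤ n) {v φ v' φ' : Fin n → F} (h : Flag v φ) (h' : Flag v' φ')
    (e : t v φ = t v' φ') : Par v v' ∧ Par φ φ' := S51.t_inj_par hn h h' e

theorem t_conj (g : GS n F) {v φ : Fin n → F} (h : φ ⬝ᵥ v = 0) :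
    (QuotientGroup.mk g : PS n F) * t v φ * (QuotientGroup.mk g)⁻¹ =
      t (g.1 *ᵥ v) (φ ᵥ* (g⁻¹).1) := S31.t_conj g h

/-- commutator relation -/
theorem x_comm {i j k : Fin n} (hij : i ≠ j) (hjk : j ≠ k) (hik : i ≠ k) (c d : F) :
    x i j c * x j k d * (x i j c)⁻¹ * (x j k d)⁻¹ = x i k (c * d) := S31.x_comm hij hjk hik c d

theorem x_add {i j : Fin n} (hij : i ≠ j) (c d : F) : x i j (c + d) = x i j c * x i j d :=
  S31.x_add hij c d

theorem x_inj (hn : 3 ≤ n) {i j : Fin n} (hij : i ≠ j) {c d : F} (e : x i j c = x i j d) :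
    c = d := S31.x_inj hn hij e

end PLN
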