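import Pool.Agent.PLN.GenS90
import Pool.Agent.PLN.Tr

/-!
# PLN/Gen: generation
-/

set_option autoImplicit false

namespace PLN

open Matrix

universe u

variable {n : ℕ} {F : Type u} [Field F]

/-- PROOF. `Matrix.Pivot`: a matrix of determinant 1 is a product of transvections and a diagonal matrix of determinant 1, which is a product of transvections
(`diag (a, a⁻¹)` in two coordinates). -/
theorem gen (hn : 2 ≤ n) (K : Subgroup (PS n F)) (h : ∀ i j : Fin n, i ≠ j → ∀ c, x i j c ∈ K) :
    K = ⊤ := S90.gen hn K h

end PLN
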