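import Mathlib

/-!
# PLN/GenS52: generators of SL (n, F)
-/

set_option autoImplicit false

namespace PLN.S52

open Matrix Matrix.SpecialLinearGroup

universe u

variable {F : Type u} [Field F] {ι : Type*} [DecidableEq ι] [Fintype ι]

/-- the diagonal matrix `diag (a, a⁻¹)` as a product of transvections -/
theorem diag_eq {i j : ι} (hij : i ≠ j) (a : F) (ha : a ≠ 0) :
    diag2n hij a ha = SpecialLinearGroup.transvection hij a *
      SpecialLinearGroup.transvection hij.symm (-a⁻¹) * SpecialLinearGroup.transvection hij a *
      (SpecialLinearGroup.transvection hij (-1) * SpecialLinearGroup.transvection hij.symm 1 *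
        SpecialLinearGroup.transvection hij (-1)) := by
  apply Subtype.ext
  ext k l
  simp only [coe_mul, transvection_coe, diag2n_coe]
  simp only [Matrix.mul_add, Matrix.add_mul, Matrix.mul_one, Matrix.one_mul,
    Matrix.single_mul_single_same, Matrix.single_mul_single_of_ne _ _ _ _ hij,
    Matrix.single_mul_single_of_ne _ _ _ _ hij.symm, Matrix.mul_assoc]
  rcases eq_or_ne k i with rfl | hk
  · rcases eq_or_ne l k with rfl | hl
    · simp [Matrix.single_apply, Matrix.diagonal_apply, Matrix.one_apply, hij, hij.symm]
      try field_simp
      try ring
    · rcases eq_or_ne l j with rfl | hl'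
      · simp [Matrix.single_apply, Matrix.diagonal_apply, Matrix.one_apply, hij, hij.symm]
        try field_simp
        try ring
      · simp [Matrix.single_apply, Matrix.diagonal_apply, Matrix.one_apply, hij, hij.symm, hl,
          hl.symm, hl', hl'.symm]
  · rcases eq_or_ne k j with rfl | hk'
    · rcases eq_or_ne l i with rfl | hl
      · simp [Matrix.single_apply, Matrix.diagonal_apply, Matrix.one_apply, hij, hij.symm]
        try field_simp
        try ring
      · rcases eq_or_ne l k with rfl | hl'
        · simp [Matrix.single_apply, Matrix.diagonal_apply, Matrix.one_apply, hij, hij.symm]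
          try field_simp
          try ring
        · simp [Matrix.single_apply, Matrix.diagonal_apply, Matrix.one_apply, hij, hij.symm, hl,
            hl.symm, hl', hl'.symm]
    · simp [Matrix.single_apply, Matrix.diagonal_apply, Matrix.one_apply, hk.symm, hk'.symm, hk, hk']

end PLN.S52
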