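import Pool.Agent.PLN.Defs
import Mathlib.LinearAlgebra.Matrix.SpecialLinearGroup

/-!
# PLN/GenS90: generation by elementary matrices
-/

set_option autoImplicit false

namespace PLN.S90

open Matrix

universe u

variable {n : ℕ} {F : Type u} [Field F]

theorem diag_prod {i j : Fin n} (hij : i ≠ j) {c : F} (hc : c ≠ 0) :
    SpecialLinearGroup.diag2n hij c hc =
      SpecialLinearGroup.transvection hij c * SpecialLinearGroup.transvection hij.symm (-c⁻¹) *
        SpecialLinearGroup.transvection hij (c - 1) * SpecialLinearGroup.transvection hij.symm 1 *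
        SpecialLinearGroup.transvection hij (-1) := by
  apply Subtype.ext
  show (diagonal fun k ↦ if k = i then c else if k = j then c⁻¹ else 1 : Matrix (Fin n) (Fin n) F) =
    (1 + single i j c) * (1 + single j i (-c⁻¹)) * (1 + single i j (c - 1)) *
      (1 + single j i 1) * (1 + single i j (-1))
  have s1 : (1 + single i j c) * (1 + single j i (-c⁻¹)) =
      1 + single i j c + single j i (-c⁻¹) + single i i (-1 : F) := by
    rw [mul_add, mul_one, add_mul, one_mul, single_mul_single_same, mul_neg, mul_inv_cancel₀ hc]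
    abel
  have s2 : (1 + single i j c + single j i (-c⁻¹) + single i i (-1 : F)) * (1 + single i j (c - 1)) =
      1 + single i j c + single j i (-c⁻¹) + single i i (-1 : F) + single j j (c⁻¹ - 1) := by
    rw [mul_add, mul_one, add_mul, add_mul, add_mul, one_mul, single_mul_single_same,
      single_mul_single_same, single_mul_single_of_ne _ _ _ _ hij.symm]
    have e1 : -c⁻¹ * (c - 1) = c⁻¹ - 1 := by
      field_simp
      ring
    have e2 : (-1 : F) * (c - 1) = -(c - 1) := by ring
    rw [e1, e2]
    have e3 : single i j (-(c - 1)) = -single i j (c - 1) := by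
      rw [← Matrix.single_neg]
    rw [e3]
    abel
  have s3 : (1 + single i j c + single j i (-c⁻¹) + single i i (-1 : F) + single j j (c⁻¹ - 1)) *
      (1 + single j i 1) = 1 + single i j c + single i i (c - 1) + single j j (c⁻¹ - 1) := by
    rw [mul_add, mul_one, add_mul, add_mul, add_mul, add_mul, one_mul, single_mul_single_same,
      single_mul_single_same, single_mul_single_of_ne _ _ _ _ hij,
      single_mul_single_of_ne _ _ _ _ hij]
    have e1 : single i i (c - 1) = single i i (-1 : F) + single i i (c * 1) := by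
      rw [← Matrix.single_add]
      congr 1
      ring
    have e2 : single j i (-c⁻¹) + single j i (1 : F) + single j i ((c⁻¹ - 1) * 1) = 0 := by
      rw [← Matrix.single_add, ← Matrix.single_add]
      have : -c⁻¹ + 1 + (c⁻¹ - 1) * 1 = 0 := by ring
      rw [this, Matrix.single_zero]
    rw [e1]
    calc _ = 1 + single i j c + (single i i (-1 : F) + single i i (c * 1)) + single j j (c⁻¹ - 1) +
        (single j i (-c⁻¹) + single j i (1 : F) + single j i ((c⁻¹ - 1) * 1)) := by abel
      _ = _ := by rw [e2, add_zero]
  have s4 : (1 + single i j c + single i i (c - 1) + single j j (c⁻¹ - 1)) *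
      (1 + single i j (-1 : F)) = 1 + single i i (c - 1) + single j j (c⁻¹ - 1) := by
    rw [mul_add, mul_one, add_mul, add_mul, add_mul, one_mul, single_mul_single_same,
      single_mul_single_of_ne _ _ _ _ hij.symm, single_mul_single_of_ne _ _ _ _ hij.symm]
    have e2 : single i j c + single i j (-1 : F) + single i j ((c - 1) * -1) = 0 := by
      rw [← Matrix.single_add, ← Matrix.single_add]
      have : c + -1 + (c - 1) * -1 = 0 := by ring
      rw [this, Matrix.single_zero]
    calc _ = 1 + single i i (c - 1) + single j j (c⁻¹ - 1) +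
        (single i j c + single i j (-1 : F) + single i j ((c - 1) * -1)) := by abel
      _ = _ := by rw [e2, add_zero]
  rw [s1, s2, s3, s4]
  ext k l
  rw [diagonal_apply, Matrix.add_apply, Matrix.add_apply, Matrix.one_apply, single_apply,
    single_apply]
  by_cases hkl : k = l
  · subst hkl
    by_cases hki : k = i
    · subst hki
      simp [Ne.symm hij]
    · by_cases hkj : k = j
      · subst hkj
        simp [hki, Ne.symm hki]
      · simp [hki, hkj, Ne.symm hki, Ne.symm hkj]
  · have h1 : ¬ (i = k ∧ i = l) := fun h => hkl (h.1.symm.trans h.2)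
    have h2 : ¬ (j = k ∧ j = l) := fun h => hkl (h.1.symm.trans h.2)
    simp [hkl, h1, h2]

theorem tM_eq {i j : Fin n} (hij : i ≠ j) (c : F) :
    tM (c • Pi.single i 1) (Pi.single j 1) = SpecialLinearGroup.transvection hij c := by
  have h : (Pi.single j 1 : Fin n → F) ⬝ᵥ (c • Pi.single i 1) = 0 := by
    rw [single_dotProduct, Pi.smul_apply, Pi.single_eq_of_ne hij.symm]
    simp
  unfold tM
  rw [dif_pos h]
  apply Subtype.ext
  show (1 + vecMulVec (c • Pi.single i 1) (Pi.single j 1) : Matrix (Fin n) (Fin n) F) =
    1 + single i j c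
  ext k l
  rw [Matrix.add_apply, Matrix.add_apply, vecMulVec_apply, single_apply]
  congr 1
  by_cases hk : i = k
  · subst hk
    by_cases hl : j = l
    · subst hl
      simp
    · simp [hl, Pi.single_eq_of_ne (Ne.symm hl)]
  · simp [hk, Pi.single_eq_of_ne (Ne.symm hk)]

theorem gen (hn : 2 ≤ n) (K : Subgroup (PS n F)) (h : ∀ i j : Fin n, i ≠ j → ∀ c, x i j c ∈ K) :
    K = ⊤ := by
  rw [Subgroup.eq_top_iff']
  intro g
  obtain ⟨A, rfl⟩ := QuotientGroup.mk_surjective g
  haveI : Nontrivial (Fin n) := Fin.nontrivial_iff_two_le.2 hn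
  have ht : ∀ (i j : Fin n) (hij : i ≠ j) (a : F),
      (QuotientGroup.mk (SpecialLinearGroup.transvection hij a) : PS n F) ∈ K := by
    intro i j hij a
    have h1 := h i j hij a
    unfold x t at h1
    rw [tM_eq hij a] at h1
    exact h1
  refine SpecialLinearGroup.diagonal_transvection_induction'
    (fun M => (QuotientGroup.mk M : PS n F) ∈ K) A ?_ ht ?_
  · intro i j hij c hc
    show (QuotientGroup.mk (SpecialLinearGroup.diag2n hij c hc) : PS n F) ∈ K
    rw [diag_prod hij hc, QuotientGroup.mk_mul, QuotientGroup.mk_mul, QuotientGroup.mk_mul,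
      QuotientGroup.mk_mul]
    exact K.mul_mem (K.mul_mem (K.mul_mem (K.mul_mem (ht _ _ _ _) (ht _ _ _ _)) (ht _ _ _ _))
      (ht _ _ _ _)) (ht _ _ _ _)
  · intro M N hM hN
    show (QuotientGroup.mk (M * N) : PS n F) ∈ K
    rw [QuotientGroup.mk_mul]
    exact K.mul_mem hM hN

end PLN.S90
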