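import Mathlib

/-!
# PLN/NumNS76: numbers (helper76)
-/

set_option autoImplicit false

namespace PLN.S76

theorem num_psln (L : ℕ) : ∃ ε : ℝ, 0 < ε ∧ ∀ K : ℝ, 1 ≤ K → ∃ N0 : ℕ, ∀ n q : ℕ, 3 ≤ n → 2 ≤ q →
    N0 ≤ q ^ (n ^ 2) → ∀ o : ℕ, (o : ℝ) ≤ K * ((q : ℝ) ^ n) ^ ε →
    (n * (2 * (n * Nat.log 2 q))) * ((2 * (n * Nat.log 2 q)) * o) ^ L ≤ q ^ (n - 1) := by
  have hL : (0 : ℝ) < (L : ℝ) + 1 := by positivity
  obtain ⟨ε, hεdef⟩ : ∃ ε : ℝ, ε = 1 / (12 * ((L : ℝ) + 1)) := ⟨_, rfl⟩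
  have hε : 0 < ε := by rw [hεdef]; positivity
  refine ⟨ε, hε, fun K hK => ?_⟩
  have hK0 : 0 < K := by linarith
  obtain ⟨A, hA⟩ : ∃ A : ℝ, A = 2 / ε := ⟨_, rfl⟩
  have hA0 : 0 < A := by rw [hA]; positivity
  obtain ⟨B, hB⟩ : ∃ B : ℝ, B = 2 * A ^ 2 * (2 * A * K) ^ L := ⟨_, rfl⟩
  have hB0 : 0 < B := by rw [hB]; positivity
  obtain ⟨Y, hY⟩ := exists_nat_ge (B ^ 2)
  refine ⟨(Y + 2) ^ (Y + 2), fun n q hn hq hN o ho => ?_⟩
  have hq1 : 1 ≤ q := by omega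
  obtain ⟨y, hy⟩ : ∃ y : ℕ, y = q ^ n := ⟨_, rfl⟩
  have hyn : q ^ (n ^ 2) = y ^ n := by rw [hy, ← pow_mul, sq]
  have h2n : 2 ^ n ≤ y := by rw [hy]; exact Nat.pow_le_pow_left hq n
  have hny : n < y := lt_of_lt_of_le Nat.lt_two_pow_self h2n
  have hyY : Y + 2 ≤ y := by
    by_contra hc
    have hc : y < Y + 2 := by omega
    have h1 : y ^ n < (Y + 2) ^ n := Nat.pow_lt_pow_left hc (by omega)
    have h2 : (Y + 2) ^ n ≤ (Y + 2) ^ (Y + 2) := Nat.pow_le_pow_right (by omega) (by omega)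
    rw [hyn] at hN
    omega
  have hy0 : y ≠ 0 := by omega
  obtain ⟨m, hm⟩ : ∃ m : ℕ, m = Nat.log 2 y := ⟨_, rfl⟩
  have hm1 : n ≤ m := by rw [hm]; exact Nat.le_log_of_pow_le (by norm_num) h2n
  have hm2 : n * Nat.log 2 q ≤ m := by
    rw [hm]
    apply Nat.le_log_of_pow_le (by norm_num)
    rw [mul_comm, pow_mul, hy]
    exact Nat.pow_le_pow_left (Nat.pow_log_le_self 2 (by omega)) n
  have hyr : (1 : ℝ) ≤ y := by exact_mod_cast (by omega : 1 ≤ y)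
  have hyr0 : (0 : ℝ) < y := by linarith
  have hmy : (m : ℝ) ≤ A * (y : ℝ) ^ ε := by
    have h1 : (2 : ℝ) ^ m ≤ y := by
      rw [hm]; exact_mod_cast Nat.pow_log_le_self 2 hy0
    have h2 : (m : ℝ) * Real.log 2 ≤ Real.log y := by
      rw [← Real.log_pow]; exact Real.log_le_log (by positivity) h1
    have h3 : Real.log y ≤ (y : ℝ) ^ ε / ε := Real.log_le_rpow_div hyr0.le hε
    have h4 : (1 / 2 : ℝ) < Real.log 2 := by have := Real.log_two_gt_d9; linarith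
    have h5 : (m : ℝ) * (1 / 2) ≤ (m : ℝ) * Real.log 2 :=
      mul_le_mul_of_nonneg_left h4.le (Nat.cast_nonneg m)
    have e : A * (y : ℝ) ^ ε = 2 * ((y : ℝ) ^ ε / ε) := by rw [hA]; ring
    rw [e]; linarith
  have hqy : ((q : ℝ) ^ n) = (y : ℝ) := by rw [hy]; push_cast; rfl
  rw [hqy] at ho
  obtain ⟨z, hz⟩ : ∃ z : ℝ, z = (y : ℝ) ^ ε := ⟨_, rfl⟩
  rw [← hz] at ho hmy
  have hz1 : 1 ≤ z := by rw [hz]; exact Real.one_le_rpow hyr hε.le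
  have hz0 : 0 < z := by linarith
  have hfin : (n * (2 * (n * Nat.log 2 q))) * ((2 * (n * Nat.log 2 q)) * o) ^ L ≤
      (m * (2 * m)) * (2 * m * o) ^ L := by gcongr
  have hreal : (((m * (2 * m)) * (2 * m * o) ^ L : ℕ) : ℝ) ≤ B * z ^ (2 * (L + 1)) := by
    push_cast
    calc (m : ℝ) * (2 * m) * (2 * m * o) ^ L
        ≤ (A * z) * (2 * (A * z)) * (2 * (A * z) * (K * z)) ^ L := by gcongr
      _ = B * z ^ (2 * (L + 1)) := by rw [hB]; ring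
  have hz6 : z ^ (2 * (L + 1)) = (y : ℝ) ^ ((1 : ℝ) / 6) := by
    rw [hz, ← Real.rpow_natCast, ← Real.rpow_mul hyr0.le]
    congr 1
    rw [hεdef]; push_cast; field_simp; norm_num
  have hT : (y : ℝ) ^ ((2 : ℝ) / 3) ≤ ((q ^ (n - 1) : ℕ) : ℝ) := by
    have h1 : y ^ 2 ≤ (q ^ (n - 1)) ^ 3 := by
      rw [hy, ← pow_mul, ← pow_mul]
      exact Nat.pow_le_pow_right hq1 (by omega)
    have h1' : ((y : ℝ)) ^ 2 ≤ (((q ^ (n - 1) : ℕ)) : ℝ) ^ 3 := by exact_mod_cast h1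
    have h2 := Real.rpow_le_rpow (by positivity) h1' (show (0 : ℝ) ≤ 1 / 3 by norm_num)
    rw [← Real.rpow_natCast, ← Real.rpow_natCast, ← Real.rpow_mul (by positivity),
      ← Real.rpow_mul (by positivity)] at h2
    have e1 : ((2 : ℕ) : ℝ) * (1 / 3) = 2 / 3 := by norm_num
    have e2 : ((3 : ℕ) : ℝ) * (1 / 3) = 1 := by norm_num
    rw [e1, e2, Real.rpow_one] at h2
    exact h2
  have hBy : B ≤ (y : ℝ) ^ ((1 : ℝ) / 2) := by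
    rw [← Real.sqrt_eq_rpow]
    apply Real.le_sqrt_of_sq_le
    have : (Y : ℝ) ≤ y := by exact_mod_cast (by omega : Y ≤ y)
    linarith
  have h4 : B * (y : ℝ) ^ ((1 : ℝ) / 6) ≤ (y : ℝ) ^ ((2 : ℝ) / 3) := by
    have e : (y : ℝ) ^ ((2 : ℝ) / 3) = (y : ℝ) ^ ((1 : ℝ) / 2) * (y : ℝ) ^ ((1 : ℝ) / 6) := by
      rw [← Real.rpow_add hyr0]; norm_num
    rw [e]
    exact mul_le_mul_of_nonneg_right hBy (by positivity)
  have h5 : (((m * (2 * m)) * (2 * m * o) ^ L : ℕ) : ℝ) ≤ ((q ^ (n - 1) : ℕ) : ℝ) := by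
    rw [hz6] at hreal
    linarith
  have h6 : (m * (2 * m)) * (2 * m * o) ^ L ≤ q ^ (n - 1) := by exact_mod_cast h5
  exact hfin.trans h6

end PLN.S76
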