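import Mathlib
import Pool.Agent.PLN.NumNS76

/-!
# PLN/NumN (STUB): numbers
-/

set_option autoImplicit false

namespace PLN

open Matrix

universe u

/-- PROOF. `y = q ^ n`; everything on the left is at most `K' y ^ (1/6)` (`n ≤ C y ^ ε`, `log2 q ≤ C y ^ ε`), and `q ^ (n - 1) ≥ y ^ (2/3)`; `y` is large because `y ^ n ≥ N0` and `2 ^ n ≤ y`. -/
theorem num_psln (L : ℕ) : ∃ ε : ℝ, 0 < ε ∧ ∀ K : ℝ, 1 ≤ K → ∃ N0 : ℕ, ∀ n q : ℕ, 3 ≤ n → 2 ≤ q →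
    N0 ≤ q ^ (n ^ 2) → ∀ o : ℕ, (o : ℝ) ≤ K * ((q : ℝ) ^ n) ^ ε →
    (n * (2 * (n * Nat.log 2 q))) * ((2 * (n * Nat.log 2 q)) * o) ^ L ≤ q ^ (n - 1) :=
  S76.num_psln L

end PLN
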