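import Pool.Agent.PLN.OrdNS3

/-!
# PLN/OrdN: the number of element orders
-/

set_option autoImplicit false

namespace PLN

open Matrix

universe u

theorem oo_le (ε : ℝ) (hε : 0 < ε) : ∃ K : ℝ, 1 ≤ K ∧ ∀ (n : ℕ) (F : Type u) [Field F] [Finite F],
    (SR32.oo (PS n F) : ℝ) ≤ K * ((Nat.card F : ℝ) ^ n) ^ ε := S3.oo_le ε hε

end PLN
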