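import Pool.Agent.PLN.Out
import Pool.Agent.PLN.OrdN
import Pool.Agent.PLN.ClsN
import Pool.Agent.PLN.NumN
import Pool.Agent.PL3.Main

/-!
# PLN/MainS92: the groups `PSL (n, F)` satisfy the condition
-/

set_option autoImplicit false

namespace PLN.S92

open Matrix

universe u

theorem finite_GS (n : ℕ) (F : Type u) [Field F] [Finite F] : Finite (GS n F) := by
  have : Finite (Matrix (Fin n) (Fin n) F) := inferInstanceAs (Finite (Fin n → Fin n → F))
  exact Subtype.finite

theorem finite_PS (n : ℕ) (F : Type u) [Field F] [Finite F] : Finite (PS n F) := by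
  have := finite_GS n F
  exact Quotient.finite _

theorem card_PS (n : ℕ) (F : Type u) [Field F] [Finite F] :
    Nat.card (PS n F) ≤ Nat.card F ^ (n ^ 2) := by
  have hf := finite_GS n F
  have hfm : Finite (Matrix (Fin n) (Fin n) F) := inferInstanceAs (Finite (Fin n → Fin n → F))
  have h1 : Nat.card (PS n F) ≤ Nat.card (GS n F) :=
    Nat.card_le_card_of_surjective _ (QuotientGroup.mk'_surjective _)
  have h2 : Nat.card (GS n F) ≤ Nat.card (Matrix (Fin n) (Fin n) F) :=
    Nat.card_le_card_of_injective (fun A => (A : Matrix (Fin n) (Fin n) F)) Subtype.val_injective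
  refine (h1.trans h2).trans (le_of_eq ?_)
  have : Fintype F := Fintype.ofFinite F
  rw [Nat.card_eq_fintype_card, Nat.card_eq_fintype_card]
  have : Fintype.card (Matrix (Fin n) (Fin n) F) = Fintype.card (Fin n → Fin n → F) := rfl
  rw [this]
  simp only [Fintype.card_pi, Finset.prod_const, Finset.card_univ, Fintype.card_fin]
  rw [← pow_mul, pow_two]

theorem card_small {n : ℕ} (hn : n ≤ 1) (F : Type u) [Field F] [Finite F] :
    Nat.card (PS n F) ≤ 1 := by
  have hs : Subsingleton (GS n F) := by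
    refine ⟨fun A B => ?_⟩
    apply Subtype.ext
    interval_cases n
    · ext i
      exact i.elim0
    · have hA := A.2
      have hB := B.2
      rw [Matrix.det_fin_one] at hA hB
      ext i j
      have hi : i = 0 := Subsingleton.elim _ _
      have hj : j = 0 := Subsingleton.elim _ _
      rw [hi, hj, hA, hB]
  have hs' : Subsingleton (PS n F) := by
    refine ⟨fun a b => ?_⟩
    obtain ⟨a, rfl⟩ := QuotientGroup.mk_surjective a
    obtain ⟨b, rfl⟩ := QuotientGroup.mk_surjective b
    rw [Subsingleton.elim a b]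
  exact Finite.card_le_one_iff_subsingleton.2 hs'

theorem psln_main (L : ℕ) : ∃ N0 : ℕ, ∀ (n : ℕ) (F : Type u) [Field F] [Finite F],
    N0 ≤ Nat.card (Matrix.ProjectiveSpecialLinearGroup (Fin n) F) →
    SR32.oo (MulAut (Matrix.ProjectiveSpecialLinearGroup (Fin n) F)) ^ L ≤
      SR32.om (Matrix.ProjectiveSpecialLinearGroup (Fin n) F) := by
  obtain ⟨q0, h2⟩ := PL3.psl_main.{u} L
  obtain ⟨ε, hε, hnum⟩ := num_psln L
  obtain ⟨K, hK1, hoo⟩ := oo_le.{u} ε hε
  obtain ⟨N1, hN1⟩ := hnum K hK1
  refine ⟨max 2 (max (q0 ^ 4 + 1) N1), fun n F _ _ hcard => ?_⟩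
  have c1 : 2 ≤ Nat.card (PS n F) := le_trans (le_max_left _ _) hcard
  have c2 : q0 ^ 4 + 1 ≤ Nat.card (PS n F) :=
    le_trans (le_trans (le_max_left _ _) (le_max_right _ _)) hcard
  have c3 : N1 ≤ Nat.card (PS n F) :=
    le_trans (le_trans (le_max_right _ _) (le_max_right _ _)) hcard
  have hP := card_PS n F
  have hfP := finite_PS n F
  rcases Nat.lt_or_ge n 3 with hn | hn
  · rcases Nat.lt_or_ge n 2 with hn1 | hn1
    · have := card_small (by omega : n ≤ 1) F
      omega
    · have hn2 : n = 2 := by omega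
      subst hn2
      refine h2 F ?_
      by_contra hlt
      have h4 : Nat.card F ^ 4 ≤ q0 ^ 4 := Nat.pow_le_pow_left (by omega) 4
      have h5 : Nat.card (PS 2 F) ≤ Nat.card F ^ 4 := hP
      omega
  · have hq : 2 ≤ Nat.card F := Finite.one_lt_card
    have e1 := out_index hn F
    have e3 := class_ge (by omega : 1 ≤ n) F
    have e4 := PL3.class_le (PS n F)
    have e5 := PL3.oo_aut_le (PS n F)
    have e6 := hN1 n (Nat.card F) hn hq (le_trans c3 hP) (SR32.oo (PS n F)) (hoo n F)
    have hlog : 1 ≤ Nat.log 2 (Nat.card F) := Nat.log_pos (by norm_num) hq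
    set q := Nat.card F with hqd
    set idx := (MulAut.conj : PS n F →* MulAut (PS n F)).range.index with hidx
    set I := 2 * (n * Nat.log 2 q) with hI
    have hIpos : 0 < n * I := by positivity
    have f1 : SR32.oo (MulAut (PS n F)) ≤ I * SR32.oo (PS n F) :=
      le_trans e5 (Nat.mul_le_mul_right _ e1)
    have f2 : SR32.oo (MulAut (PS n F)) ^ L ≤ (I * SR32.oo (PS n F)) ^ L :=
      Nat.pow_le_pow_left f1 L
    have f3 : q ^ (n - 1) ≤ n * (SR32.om (PS n F) * I) :=
      le_trans e3 (Nat.mul_le_mul_left n (le_trans e4 (Nat.mul_le_mul_left _ e1)))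
    have f4 : n * I * SR32.oo (MulAut (PS n F)) ^ L ≤ n * I * SR32.om (PS n F) := by
      calc n * I * SR32.oo (MulAut (PS n F)) ^ L
          ≤ n * I * (I * SR32.oo (PS n F)) ^ L := Nat.mul_le_mul_left _ f2
        _ ≤ q ^ (n - 1) := e6
        _ ≤ n * (SR32.om (PS n F) * I) := f3
        _ = n * I * SR32.om (PS n F) := by ring
    exact Nat.le_of_mul_le_mul_left f4 hIpos

end PLN.S92
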