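import Pool.Agent.PLN.Out
import Pool.Agent.PLN.OrdN
import Pool.Agent.PLN.ClsN
import Pool.Agent.PLN.NumN
import Pool.Agent.PL3.Main
import Pool.Agent.PLN.MainS92

/-!
# PLN/Main (STUB): the groups `PSL (n, F)` satisfy the condition
-/

set_option autoImplicit false

namespace PLN

open Matrix

universe u

/-- PROOF. `n ≤ 1`: the group has one element. `n = 2`: `PL3.psl_main`. `n ≥ 3`: `out_index`, `oo_le`, `class_ge`, `PL3.class_le`, `PL3.oo_aut_le`, `num_psln`;
`|PS n F| ≤ q ^ (n ^ 2)`. -/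
theorem psln_main (L : ℕ) : ∃ N0 : ℕ, ∀ (n : ℕ) (F : Type u) [Field F] [Finite F],
    N0 ≤ Nat.card (Matrix.ProjectiveSpecialLinearGroup (Fin n) F) →
    SR32.oo (MulAut (Matrix.ProjectiveSpecialLinearGroup (Fin n) F)) ^ L ≤
      SR32.om (Matrix.ProjectiveSpecialLinearGroup (Fin n) F) :=
  S92.psln_main L

end PLN
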