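import Mathlib

/-!
# PLN/NumNS41: numbers (shadow, helper41)
-/

set_option autoImplicit false

namespace PLN.S41

open Filter

theorem num_psln (L : ℕ) : ∃ ε : ℝ, 0 < ε ∧ ∀ K : ℝ, 1 ≤ K → ∃ N0 : ℕ, ∀ n q : ℕ, 3 ≤ n → 2 ≤ q →
    N0 ≤ q ^ (n ^ 2) → ∀ o : ℕ, (o : ℝ) ≤ K * ((q : ℝ) ^ n) ^ ε →
    (n * (2 * (n * Nat.log 2 q))) * ((2 * (n * Nat.log 2 q)) * o) ^ L ≤ q ^ (n - 1) := by
  refine ⟨1 / (6 * ((L : ℝ) + 1)), by positivity, fun K hK => ?_⟩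
  set ε : ℝ := 1 / (6 * ((L : ℝ) + 1)) with hε
  have hl := isLittleO_log_rpow_rpow_atTop ((L + 2 : ℕ) : ℝ) (show (0 : ℝ) < 1 / 6 by norm_num)
  have hlog2 : 0 < Real.log 2 := Real.log_pos (by norm_num)
  have hK0 : 0 < K := by linarith
  have hc : 0 < Real.log 2 ^ (L + 2) / (2 ^ (L + 1) * K ^ L) := by positivity
  obtain ⟨Y0, hY⟩ := eventually_atTop.1 (hl.def hc)
  set Y1 : ℕ := max ⌈Y0⌉₊ 1 with hY1
  have hY11 : 1 ≤ Y1 := le_max_right _ _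
  have hY01 : Y0 ≤ Y1 := (Nat.le_ceil Y0).trans (by exact_mod_cast le_max_left _ _)
  refine ⟨Y1 ^ Y1, fun n q hn hq hN o ho => ?_⟩
  set y : ℕ := q ^ n with hyd
  have hny : n < y := lt_of_lt_of_le (Nat.lt_two_pow_self) (Nat.pow_le_pow_left hq n)
  have hy : Y1 ≤ y := by
    by_contra hlt
    push Not at hlt
    have h1 : q ^ (n ^ 2) = y ^ n := by rw [hyd, ← pow_mul, pow_two]
    have h2 : y ^ n < Y1 ^ n := Nat.pow_lt_pow_left hlt (by omega)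
    have h3 : Y1 ^ n ≤ Y1 ^ Y1 := Nat.pow_le_pow_right hY11 (by omega)
    omega
  have hy0 : y ≠ 0 := by omega
  have hyR : (1 : ℝ) ≤ y := by exact_mod_cast (by omega : 1 ≤ y)
  have hyR0 : (0 : ℝ) < y := by linarith
  set ℓ : ℕ := Nat.log 2 y with hℓ
  have hnl : n ≤ ℓ := (Nat.le_log_iff_pow_le (by norm_num) hy0).2 (Nat.pow_le_pow_left hq n)
  have hnl2 : n * Nat.log 2 q ≤ ℓ := by
    refine (Nat.le_log_iff_pow_le (by norm_num) hy0).2 ?_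
    rw [mul_comm, pow_mul]
    exact Nat.pow_le_pow_left (Nat.pow_log_le_self 2 (by omega)) n
  have hℓR : (ℓ : ℝ) ≤ Real.log y / Real.log 2 := by
    rw [le_div_iff₀ hlog2]
    have h1 : 2 ^ ℓ ≤ y := Nat.pow_log_le_self 2 hy0
    have h2 : (2 : ℝ) ^ ℓ ≤ y := by exact_mod_cast h1
    have h3 := Real.log_le_log (by positivity) h2
    rwa [Real.log_pow] at h3
  have hlogy : 0 ≤ Real.log y := Real.log_nonneg hyR
  -- the logarithm
  have h1 : Real.log y ^ (L + 2) ≤ Real.log 2 ^ (L + 2) / (2 ^ (L + 1) * K ^ L) *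
      (y : ℝ) ^ (1 / 6 : ℝ) := by
    have h2 := hY y (hY01.trans (by exact_mod_cast hy))
    rw [Real.rpow_natCast, Real.norm_of_nonneg (by positivity),
      Real.norm_of_nonneg (by positivity)] at h2
    exact h2
  have h2 : (Real.log y / Real.log 2) ^ (L + 2) * (2 ^ (L + 1) * K ^ L) ≤ (y : ℝ) ^ (1 / 6 : ℝ) := by
    rw [div_pow, div_mul_eq_mul_div, div_le_iff₀ (by positivity)]
    have h3 := mul_le_mul_of_nonneg_right h1 (show (0 : ℝ) ≤ 2 ^ (L + 1) * K ^ L by positivity)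
    refine h3.trans (le_of_eq ?_)
    field_simp
  have h3 : ((y : ℝ) ^ ε) ^ L ≤ (y : ℝ) ^ (1 / 6 : ℝ) := by
    rw [← Real.rpow_natCast, ← Real.rpow_mul hyR0.le]
    refine Real.rpow_le_rpow_of_exponent_le hyR ?_
    rw [hε, div_mul_eq_mul_div, one_mul, div_le_div_iff₀ (by positivity) (by norm_num)]
    linarith
  have hyq : ((q : ℝ) ^ n) = (y : ℝ) := by rw [hyd]; push_cast; rfl
  rw [hyq] at ho
  -- the left side
  have h4 : (n * (2 * (n * Nat.log 2 q))) * ((2 * (n * Nat.log 2 q)) * o) ^ L ≤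
      (ℓ * (2 * ℓ)) * ((2 * ℓ) * o) ^ L := by
    gcongr
  have h5 : (((ℓ * (2 * ℓ)) * ((2 * ℓ) * o) ^ L : ℕ) : ℝ) ≤ (y : ℝ) ^ (1 / 6 : ℝ) *
      (y : ℝ) ^ (1 / 6 : ℝ) := by
    have e1 : (((ℓ * (2 * ℓ)) * ((2 * ℓ) * o) ^ L : ℕ) : ℝ) =
        (ℓ : ℝ) ^ (L + 2) * 2 ^ (L + 1) * (o : ℝ) ^ L := by
      push_cast
      ring
    rw [e1]
    calc (ℓ : ℝ) ^ (L + 2) * 2 ^ (L + 1) * (o : ℝ) ^ L
        ≤ (Real.log y / Real.log 2) ^ (L + 2) * 2 ^ (L + 1) * (K * (y : ℝ) ^ ε) ^ L := by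
          gcongr
      _ = ((Real.log y / Real.log 2) ^ (L + 2) * (2 ^ (L + 1) * K ^ L)) * ((y : ℝ) ^ ε) ^ L := by
          rw [mul_pow]
          ring
      _ ≤ _ := mul_le_mul h2 h3 (by positivity) (by positivity)
  have h6 : (y : ℝ) ^ (1 / 6 : ℝ) * (y : ℝ) ^ (1 / 6 : ℝ) ≤ ((q ^ (n - 1) : ℕ) : ℝ) := by
    rw [← Real.rpow_add hyR0, ← hyq, ← Real.rpow_natCast, ← Real.rpow_mul (by positivity)]
    push_cast
    rw [← Real.rpow_natCast (q : ℝ) (n - 1)]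
    refine Real.rpow_le_rpow_of_exponent_le (by exact_mod_cast (by omega : 1 ≤ q)) ?_
    rw [Nat.cast_sub (by omega)]
    push_cast
    have : (3 : ℝ) ≤ n := by exact_mod_cast hn
    linarith
  have h7 := h5.trans h6
  exact h4.trans (by exact_mod_cast h7)

end PLN.S41
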