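import Mathlib

/-!
# PLN/NumS32: the numbers for the projective special linear groups
-/

set_option autoImplicit false

namespace PLN.S32

theorem num_pln (L : ℕ) : ∃ ε : ℝ, 0 < ε ∧ ∀ C : ℝ, 1 ≤ C → ∃ N : ℕ,
    ∀ n q I k w a o : ℕ, 3 ≤ n → 2 ≤ q → (N ≤ n ∨ N ≤ q) →
      I ≤ 8 * Nat.log 2 q * n * q → q ^ (n - 1) ≤ n * k → k ≤ w * I →
      (a : ℝ) ≤ C * (I : ℝ) ^ ε → (o : ℝ) ≤ C * (q : ℝ) ^ (ε * n) → (a * o) ^ L ≤ w := by
  have hL1 : (0 : ℝ) < (L : ℝ) + 1 := by positivity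
  refine ⟨1 / (48 * ((L : ℝ) + 1)), by positivity, ?_⟩
  intro C hC
  set ε : ℝ := 1 / (48 * ((L : ℝ) + 1)) with hε
  have hε0 : 0 < ε := by positivity
  have hC0 : (0 : ℝ) < C := by linarith
  set K : ℝ := 8192 * C ^ (2 * L) with hK
  have hK0 : 0 < K := by positivity
  refine ⟨⌈K ^ 8⌉₊ + 1, ?_⟩
  intro n q I k w a o hn hq hN hI hk hkw ha ho
  set x : ℝ := (q : ℝ) ^ n with hx
  have hq2 : (2 : ℝ) ≤ (q : ℝ) := by exact_mod_cast hq
  have hq1 : (1 : ℝ) ≤ (q : ℝ) := by linarith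
  have hx8 : (8 : ℝ) ≤ x := by
    calc (8 : ℝ) = 2 ^ 3 := by norm_num
      _ ≤ (q : ℝ) ^ 3 := pow_le_pow_left₀ (by norm_num) hq2 3
      _ ≤ x := pow_le_pow_right₀ hq1 hn
  have hx0 : 0 < x := by linarith
  have hx1 : 1 ≤ x := by linarith
  set y : ℝ := x ^ ((1 : ℝ) / 48) with hy
  have hy0 : 0 < y := Real.rpow_pos_of_pos hx0 _
  have hy1 : 1 ≤ y := Real.one_le_rpow hx1 (by norm_num)
  have hypow : ∀ m : ℕ, y ^ m = x ^ ((m : ℝ) / 48) := by
    intro m
    rw [hy, ← Real.rpow_natCast, ← Real.rpow_mul hx0.le]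
    congr 1
    ring
  -- the size of `x`
  have hxK : K ^ 8 < x := by
    have h1 : K ^ 8 ≤ (⌈K ^ 8⌉₊ : ℝ) := Nat.le_ceil _
    rcases hN with hN | hN
    · have h2 : ((⌈K ^ 8⌉₊ + 1 : ℕ) : ℝ) ≤ (n : ℝ) := by exact_mod_cast hN
      have h3 : (n : ℝ) < x := by
        have h4 : n < q ^ n := Nat.lt_pow_self (by omega)
        rw [hx]
        exact_mod_cast h4
      push_cast at h2
      linarith
    · have h2 : ((⌈K ^ 8⌉₊ + 1 : ℕ) : ℝ) ≤ (q : ℝ) := by exact_mod_cast hN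
      have h3 : (q : ℝ) ≤ x := by
        calc (q : ℝ) = (q : ℝ) ^ 1 := (pow_one _).symm
          _ ≤ x := pow_le_pow_right₀ hq1 (by omega)
      push_cast at h2
      linarith
  have hKy : K ≤ y ^ 6 := by
    by_contra hcon
    push Not at hcon
    have h1 : (y ^ 6) ^ 8 < K ^ 8 := pow_lt_pow_left₀ hcon (by positivity) (by norm_num)
    have h2 : (y ^ 6) ^ 8 = x := by
      rw [← pow_mul, hypow]
      norm_num
    linarith
  -- the logarithm
  set l : ℝ := 32 * y ^ 3 with hl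
  have hfn : (Nat.log 2 q : ℝ) * n ≤ l := by
    have h1 : (Nat.log 2 q : ℝ) * Real.log 2 ≤ Real.log q := by
      have h2 : 2 ^ Nat.log 2 q ≤ q := Nat.pow_log_le_self 2 (by omega)
      have h3 : ((2 : ℝ) ^ Nat.log 2 q) ≤ (q : ℝ) := by exact_mod_cast h2
      have h4 := Real.log_le_log (by positivity) h3
      rwa [Real.log_pow] at h4
    have h2 : Real.log x ≤ x ^ ((1 : ℝ) / 16) / (1 / 16) :=
      Real.log_le_rpow_div hx0.le (by norm_num)
    have h3 : (1 : ℝ) / 2 ≤ Real.log 2 := by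
      have := Real.log_two_gt_d9
      linarith
    have h4 : Real.log x = n * Real.log q := by
      rw [hx, Real.log_pow]
    have h5 : x ^ ((1 : ℝ) / 16) = y ^ 3 := by
      rw [hypow]
      norm_num
    have h6 : (Nat.log 2 q : ℝ) * n * (1 / 2) ≤ Real.log x := by
      have h7 : (Nat.log 2 q : ℝ) * (1 / 2) ≤ (Nat.log 2 q : ℝ) * Real.log 2 :=
        mul_le_mul_of_nonneg_left h3 (Nat.cast_nonneg _)
      have h8 : (0 : ℝ) ≤ (n : ℝ) := Nat.cast_nonneg _
      rw [h4]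
      nlinarith [mul_le_mul_of_nonneg_left (h7.trans h1) h8]
    rw [h5] at h2
    rw [hl]
    linarith
  have hf1 : (1 : ℝ) ≤ (Nat.log 2 q : ℝ) := by
    have : 1 ≤ Nat.log 2 q := Nat.log_pos (by norm_num) hq
    exact_mod_cast this
  have hn0 : (0 : ℝ) ≤ (n : ℝ) := Nat.cast_nonneg _
  have hnl : (n : ℝ) ≤ l := by
    calc (n : ℝ) = 1 * n := (one_mul _).symm
      _ ≤ (Nat.log 2 q : ℝ) * n := mul_le_mul_of_nonneg_right hf1 hn0
      _ ≤ l := hfn
  have hl0 : 0 < l := by positivity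
  have hqx : (q : ℝ) ≤ x := by
    calc (q : ℝ) = (q : ℝ) ^ 1 := (pow_one _).symm
      _ ≤ x := pow_le_pow_right₀ hq1 (by omega)
  have hIr : (I : ℝ) ≤ 8 * ((Nat.log 2 q : ℝ) * n) * q := by
    have : (I : ℝ) ≤ 8 * (Nat.log 2 q : ℝ) * n * q := by exact_mod_cast hI
    linarith
  -- `w` is large
  have hw : y ^ 10 ≤ 8192 * (w : ℝ) := by
    have h1 : (q : ℝ) ^ (n - 1) ≤ n * (w * I) := by
      have h2 : q ^ (n - 1) ≤ n * (w * I) := hk.trans (Nat.mul_le_mul_left n hkw)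
      exact_mod_cast h2
    have h2 : (n : ℝ) * (w * I) ≤ l * (w * (8 * l * q)) := by
      have h3 : (I : ℝ) ≤ 8 * l * q := by
        refine hIr.trans ?_
        have : 8 * ((Nat.log 2 q : ℝ) * n) ≤ 8 * l := by linarith
        exact mul_le_mul_of_nonneg_right this (by linarith)
      have h4 : (w : ℝ) * I ≤ w * (8 * l * q) := mul_le_mul_of_nonneg_left h3 (Nat.cast_nonneg _)
      exact mul_le_mul hnl h4 (by positivity) hl0.le
    have h3 : (q : ℝ) ^ (n - 1) = (q : ℝ) ^ (n - 2) * q := by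
      rw [← pow_succ]
      congr 1
      omega
    have h4 : (q : ℝ) ^ (n - 2) ≤ 8 * l ^ 2 * w := by
      have h5 : (q : ℝ) ^ (n - 2) * q ≤ (8 * l ^ 2 * w) * q := by
        rw [← h3]
        refine h1.trans (h2.trans (le_of_eq ?_))
        ring
      exact le_of_mul_le_mul_right h5 (by linarith)
    have h5 : y ^ 16 ≤ (q : ℝ) ^ (n - 2) := by
      have h6 : x ≤ ((q : ℝ) ^ (n - 2)) ^ 3 := by
        rw [hx, ← pow_mul]
        exact pow_le_pow_right₀ hq1 (by omega)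
      by_contra hcon
      push Not at hcon
      have h7 : ((q : ℝ) ^ (n - 2)) ^ 3 < (y ^ 16) ^ 3 :=
        pow_lt_pow_left₀ hcon (by positivity) (by norm_num)
      have h8 : (y ^ 16) ^ 3 = x := by
        rw [← pow_mul, hypow]
        norm_num
      linarith
    have h6 : 8 * l ^ 2 * (w : ℝ) = y ^ 6 * (8192 * w) := by
      rw [hl]
      ring
    have h7 : y ^ 6 * y ^ 10 ≤ y ^ 6 * (8192 * w) := by
      rw [← h6, ← pow_add]
      exact h5.trans h4
    exact le_of_mul_le_mul_left h7 (by positivity)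
  -- the orders
  have hIx : (I : ℝ) ≤ x ^ 3 := by
    have h1 : (Nat.log 2 q : ℝ) * n ≤ x := by
      have h2 : Nat.log 2 q * n ≤ q ^ n := by
        have h3 : 2 ^ (Nat.log 2 q * n) ≤ q ^ n := by
          rw [pow_mul]
          exact Nat.pow_le_pow_left (Nat.pow_log_le_self 2 (by omega)) n
        exact (Nat.lt_pow_self (by norm_num)).le.trans h3
      rw [hx]
      exact_mod_cast h2
    calc (I : ℝ) ≤ 8 * ((Nat.log 2 q : ℝ) * n) * q := hIr
      _ ≤ 8 * x * x := by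
          apply mul_le_mul _ hqx (by linarith) (by positivity)
          linarith
      _ ≤ x * x * x := by nlinarith [mul_le_mul_of_nonneg_right hx8 (mul_nonneg hx0.le hx0.le)]
      _ = x ^ 3 := by ring
  have ha' : (a : ℝ) ≤ C * x ^ (3 * ε) := by
    refine ha.trans (mul_le_mul_of_nonneg_left ?_ hC0.le)
    calc (I : ℝ) ^ ε ≤ (x ^ 3) ^ ε := Real.rpow_le_rpow (Nat.cast_nonneg _) hIx hε0.le
      _ = x ^ (3 * ε) := by
          rw [← Real.rpow_natCast x 3, ← Real.rpow_mul hx0.le]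
          norm_num
  have ho' : (o : ℝ) ≤ C * x ^ ε := by
    refine ho.trans (mul_le_mul_of_nonneg_left (le_of_eq ?_) hC0.le)
    rw [hx, ← Real.rpow_natCast (q : ℝ) n, ← Real.rpow_mul (by linarith)]
    congr 1
    ring
  have hao : ((a : ℝ) * o) ^ L ≤ C ^ (2 * L) * y ^ 4 := by
    have h1 : (a : ℝ) * o ≤ C ^ 2 * x ^ (4 * ε) := by
      calc (a : ℝ) * o ≤ (C * x ^ (3 * ε)) * (C * x ^ ε) :=
            mul_le_mul ha' ho' (Nat.cast_nonneg _) (by positivity)
        _ = C ^ 2 * (x ^ (3 * ε) * x ^ ε) := by ring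
        _ = C ^ 2 * x ^ (4 * ε) := by
            rw [← Real.rpow_add hx0]
            congr 2
            ring
    calc ((a : ℝ) * o) ^ L ≤ (C ^ 2 * x ^ (4 * ε)) ^ L :=
          pow_le_pow_left₀ (by positivity) h1 L
      _ = C ^ (2 * L) * x ^ (4 * ε * L) := by
          rw [mul_pow, ← pow_mul, ← Real.rpow_natCast (x ^ (4 * ε)) L, ← Real.rpow_mul hx0.le]
      _ ≤ C ^ (2 * L) * y ^ 4 := by
          apply mul_le_mul_of_nonneg_left _ (by positivity)
          rw [hypow]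
          apply Real.rpow_le_rpow_of_exponent_le hx1
          rw [hε]
          rw [show (4 : ℝ) * (1 / (48 * ((L : ℝ) + 1))) * L = (4 * L) / (48 * ((L : ℝ) + 1)) by
            field_simp]
          rw [div_le_div_iff₀ (by positivity) (by norm_num)]
          push_cast
          nlinarith
  have hfin : ((a : ℝ) * o) ^ L ≤ (w : ℝ) := by
    refine hao.trans ?_
    have h1 : 8192 * (C ^ (2 * L) * y ^ 4) ≤ 8192 * (w : ℝ) := by
      refine le_trans ?_ hw
      calc 8192 * (C ^ (2 * L) * y ^ 4) = K * y ^ 4 := by rw [hK]; ring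
        _ ≤ y ^ 6 * y ^ 4 := mul_le_mul_of_nonneg_right hKy (by positivity)
        _ = y ^ 10 := by ring
    linarith
  exact_mod_cast hfin

end PLN.S32
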