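import Pool.Agent.PLN.OrdS19
import Pool.Agent.PLN.Defs

/-!
# PLN/OrdNS13: the number of element orders, from `OrdS19` (helper13)
-/

set_option autoImplicit false

namespace PLN.S13

open Matrix

universe u

theorem oo_le (ε : ℝ) (hε : 0 < ε) : ∃ K : ℝ, 1 ≤ K ∧ ∀ (n : ℕ) (F : Type u) [Field F] [Finite F],
    (SR32.oo (PS n F) : ℝ) ≤ K * ((Nat.card F : ℝ) ^ n) ^ ε := by
  obtain ⟨C, hC, h⟩ := S19.oo_le.{u} ε hε
  refine ⟨C, hC, fun n F _ _ => ?_⟩
  have : Finite (Matrix.SpecialLinearGroup (Fin n) F) :=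
    Finite.of_injective (fun A => (A : Matrix (Fin n) (Fin n) F)) Subtype.val_injective
  have : Finite (Matrix.ProjectiveSpecialLinearGroup (Fin n) F) :=
    Finite.of_surjective _ (QuotientGroup.mk'_surjective _)
  have e : ((Nat.card F : ℝ) ^ n) ^ ε = (Nat.card F : ℝ) ^ (ε * n) := by
    rw [← Real.rpow_natCast, ← Real.rpow_mul (by positivity), mul_comm]
  rw [e]
  apply h n F
  intro x
  obtain ⟨y, rfl⟩ := QuotientGroup.mk_surjective x
  refine ⟨y.1, by rw [y.2]; exact one_ne_zero, fun k hk => ?_⟩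
  have h1 : y ^ k = 1 := by
    apply Subtype.ext
    rw [Matrix.SpecialLinearGroup.coe_pow, Matrix.SpecialLinearGroup.coe_one]
    exact hk
  rw [← QuotientGroup.mk_pow, h1]
  rfl

end PLN.S13
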