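import Pool.Agent.PLN.Exp
import Pool.Agent.SR32.Defs
import Pool.Agent.Pal.Divisor

/-!
# PLN/OrdNS3: the number of element orders
-/

set_option autoImplicit false

namespace PLN.S3

open Matrix PLN
open scoped Pointwise

universe u

theorem div_mul_le (m n : ℕ) : (m * n).divisors.card ≤ m.divisors.card * n.divisors.card := by
  rw [Nat.divisors_mul]
  exact Finset.card_mul_le

theorem div_prod_le (f : ℕ → ℕ) (D : Finset ℕ) :
    (∏ d ∈ D, f d).divisors.card ≤ ∏ d ∈ D, (f d).divisors.card := by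
  classical
  induction D using Finset.induction_on with
  | empty => simp
  | insert a D ha ih =>
    rw [Finset.prod_insert ha, Finset.prod_insert ha]
    exact (div_mul_le _ _).trans (Nat.mul_le_mul_left _ ih)

theorem sum_exp_le {δ : ℝ} (n : ℕ) :
    δ * ∑ d ∈ Finset.Icc 1 n, Real.exp (-(δ * d)) ≤ 1 - Real.exp (-(δ * n)) := by
  induction n with
  | zero => simp
  | succ n ih =>
    rw [Finset.sum_Icc_succ_top (by omega), mul_add]
    have h1 : Real.exp (-(δ * n)) = Real.exp (-(δ * (n + 1 : ℕ))) * Real.exp δ := by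
      rw [← Real.exp_add]
      congr 1
      push_cast
      ring
    have h2 : δ + 1 ≤ Real.exp δ := Real.add_one_le_exp δ
    have h3 : 0 < Real.exp (-(δ * (n + 1 : ℕ))) := Real.exp_pos _
    rw [h1] at ih
    nlinarith

/-- Rankin's trick -/
theorem sets_le {C δ : ℝ} (hC : 1 ≤ C) (hδ : 0 < δ) (n : ℕ) :
    ∑ D ∈ (Finset.Icc 1 n).powerset.filter (fun D => ∑ d ∈ D, d ≤ n), C ^ D.card ≤
      Real.exp (C / δ) * Real.exp (δ * n) := by
  calc ∑ D ∈ (Finset.Icc 1 n).powerset.filter (fun D => ∑ d ∈ D, d ≤ n), C ^ D.card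
      ≤ ∑ D ∈ (Finset.Icc 1 n).powerset.filter (fun D => ∑ d ∈ D, d ≤ n),
          Real.exp (δ * n) * ∏ d ∈ D, (C * Real.exp (-(δ * d))) := by
        refine Finset.sum_le_sum fun D hD => ?_
        have hs : ∑ d ∈ D, d ≤ n := (Finset.mem_filter.1 hD).2
        rw [Finset.prod_mul_distrib, Finset.prod_const, ← Real.exp_sum]
        have h1 : 1 ≤ Real.exp (δ * n) * Real.exp (∑ d ∈ D, -(δ * (d : ℝ))) := by
          rw [← Real.exp_add]
          apply Real.one_le_exp
          rw [Finset.sum_neg_distrib, ← Finset.mul_sum]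
          have h2 : (∑ d ∈ D, (d : ℝ)) ≤ n := by
            rw [← Nat.cast_sum]
            exact Nat.cast_le.2 hs
          nlinarith
        calc C ^ D.card = C ^ D.card * 1 := (mul_one _).symm
          _ ≤ C ^ D.card * (Real.exp (δ * n) * Real.exp (∑ d ∈ D, -(δ * (d : ℝ)))) :=
              mul_le_mul_of_nonneg_left h1 (by positivity)
          _ = _ := by ring
    _ ≤ ∑ D ∈ (Finset.Icc 1 n).powerset,
          Real.exp (δ * n) * ∏ d ∈ D, (C * Real.exp (-(δ * d))) := by
        apply Finset.sum_le_sum_of_subset_of_nonneg (Finset.filter_subset _ _)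
        intro D _ _
        positivity
    _ = Real.exp (δ * n) * ∏ d ∈ Finset.Icc 1 n, (1 + C * Real.exp (-(δ * d))) := by
        rw [← Finset.mul_sum, Finset.prod_one_add]
    _ ≤ Real.exp (δ * n) * Real.exp (C / δ) := by
        apply mul_le_mul_of_nonneg_left _ (Real.exp_pos _).le
        calc ∏ d ∈ Finset.Icc 1 n, (1 + C * Real.exp (-(δ * d)))
            ≤ ∏ d ∈ Finset.Icc 1 n, Real.exp (C * Real.exp (-(δ * d))) := by
              apply Finset.prod_le_prod
              · intro d _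
                positivity
              · intro d _
                rw [add_comm]
                exact Real.add_one_le_exp _
          _ = Real.exp (C * ∑ d ∈ Finset.Icc 1 n, Real.exp (-(δ * d))) := by
              rw [← Real.exp_sum, Finset.mul_sum]
          _ ≤ Real.exp (C / δ) := by
              apply Real.exp_le_exp.2
              rw [le_div_iff₀ hδ]
              have h1 := sum_exp_le (δ := δ) n
              have h2 := Real.exp_pos (-(δ * (n : ℝ)))
              nlinarith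
    _ = _ := mul_comm _ _

theorem oo_sum (n : ℕ) (F : Type u) [Field F] [Finite F] :
    SR32.oo (PS n F) ≤ ∑ D ∈ (Finset.Icc 1 n).powerset.filter (fun D => ∑ d ∈ D, d ≤ n),
      ((∏ d ∈ D, (Nat.card F ^ d - 1)) * (ringChar F) ^ n).divisors.card := by
  classical
  have hq : 2 ≤ Nat.card F := by
    have := Finite.one_lt_card (α := F)
    omega
  have hp : 0 < ringChar F := by
    have := CharP.char_ne_zero_of_finite F (ringChar F)
    omega
  unfold SR32.oo
  refine le_trans ?_ Finset.card_biUnion_le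
  rw [← Set.ncard_coe_finset]
  apply Set.ncard_le_ncard _ (Finset.finite_toSet _)
  rintro _ ⟨s, rfl⟩
  obtain ⟨g, rfl⟩ := QuotientGroup.mk_surjective s
  obtain ⟨D, h1, h2, h3⟩ := exp_dvd g
  rw [Finset.mem_coe, Finset.mem_biUnion]
  refine ⟨D, ?_, ?_⟩
  · rw [Finset.mem_filter, Finset.mem_powerset]
    refine ⟨fun d hd => ?_, h2⟩
    rw [Finset.mem_Icc]
    exact ⟨h1 d hd, (Finset.single_le_sum (f := fun d => d) (fun _ _ => Nat.zero_le _) hd).trans h2⟩
  · rw [Nat.mem_divisors]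
    constructor
    · apply orderOf_dvd_of_pow_eq_one
      rw [← QuotientGroup.mk_pow, h3]
      rfl
    · apply Nat.mul_ne_zero
      · rw [Finset.prod_ne_zero_iff]
        intro d hd
        have h4 : 2 ^ 1 ≤ Nat.card F ^ d :=
          (Nat.pow_le_pow_left hq 1).trans (Nat.pow_le_pow_right (by omega) (h1 d hd))
        omega
      · exact pow_ne_zero _ hp.ne'

theorem oo_le (ε : ℝ) (hε : 0 < ε) : ∃ K : ℝ, 1 ≤ K ∧ ∀ (n : ℕ) (F : Type u) [Field F] [Finite F],
    (SR32.oo (PS n F) : ℝ) ≤ K * ((Nat.card F : ℝ) ^ n) ^ ε := by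
  classical
  have hε2 : 0 < ε / 2 := by positivity
  obtain ⟨C, hC1, hC⟩ := Pool.Agent.Pal.card_divisors_le_rpow hε2
  set δ : ℝ := ε / 8 with hδ
  have hδ0 : 0 < δ := by positivity
  refine ⟨(1 / δ + 1) * Real.exp (C / δ), ?_, ?_⟩
  · have h1 : 1 ≤ Real.exp (C / δ) := Real.one_le_exp (by positivity)
    have h2 : (1 : ℝ) ≤ 1 / δ + 1 := by
      have : 0 < 1 / δ := by positivity
      linarith
    nlinarith
  intro n F _ _
  set q := Nat.card F with hq
  have hq2 : 2 ≤ q := by
    have := Finite.one_lt_card (α := F)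
    omega
  have hqR : (2 : ℝ) ≤ q := by exact_mod_cast hq2
  have hqp : (0 : ℝ) < q := by linarith
  have hprime : (ringChar F).Prime := by
    rcases CharP.char_is_prime_or_zero F (ringChar F) with h | h
    · exact h
    · exact absurd h (CharP.char_ne_zero_of_finite F (ringChar F))
  have hterm : ∀ D ∈ (Finset.Icc 1 n).powerset.filter (fun D => ∑ d ∈ D, d ≤ n),
      ((((∏ d ∈ D, (q ^ d - 1)) * (ringChar F) ^ n).divisors.card : ℕ) : ℝ) ≤
        ((n : ℝ) + 1) * ((q : ℝ) ^ (ε / 2 * n)) * C ^ D.card := by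
    intro D hD
    have hs : ∑ d ∈ D, d ≤ n := (Finset.mem_filter.1 hD).2
    have hsub := Finset.mem_powerset.1 (Finset.mem_filter.1 hD).1
    have h1 : ((∏ d ∈ D, (q ^ d - 1)) * (ringChar F) ^ n).divisors.card ≤
        (∏ d ∈ D, (q ^ d - 1).divisors.card) * (n + 1) := by
      refine (div_mul_le _ _).trans ?_
      have h2 : ((ringChar F) ^ n).divisors.card = n + 1 := by
        rw [Nat.divisors_prime_pow hprime, Finset.card_map, Finset.card_range]
      rw [h2]
      exact Nat.mul_le_mul_right _ (div_prod_le _ _)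
    have h3 : (∏ d ∈ D, ((q ^ d - 1).divisors.card : ℝ)) ≤
        ∏ d ∈ D, (C * (q : ℝ) ^ (ε / 2 * d)) := by
      apply Finset.prod_le_prod
      · intro d _
        exact Nat.cast_nonneg _
      · intro d hd
        have hd1 : 1 ≤ d := (Finset.mem_Icc.1 (hsub hd)).1
        have h4 : 2 ^ 1 ≤ q ^ d :=
          (Nat.pow_le_pow_left hq2 1).trans (Nat.pow_le_pow_right (by omega) hd1)
        refine (hC (q ^ d - 1) (by omega)).trans ?_
        apply mul_le_mul_of_nonneg_left _ (by linarith)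
        have h5 : ((q ^ d - 1 : ℕ) : ℝ) ≤ (q : ℝ) ^ d := by
          have : q ^ d - 1 ≤ q ^ d := Nat.sub_le _ _
          exact_mod_cast this
        calc ((q ^ d - 1 : ℕ) : ℝ) ^ (ε / 2) ≤ ((q : ℝ) ^ d) ^ (ε / 2) :=
              Real.rpow_le_rpow (Nat.cast_nonneg _) h5 hε2.le
          _ = (q : ℝ) ^ (ε / 2 * d) := by
              rw [← Real.rpow_natCast, ← Real.rpow_mul hqp.le, mul_comm]
    have h6 : (∏ d ∈ D, (C * (q : ℝ) ^ (ε / 2 * d))) ≤ C ^ D.card * (q : ℝ) ^ (ε / 2 * n) := by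
      rw [Finset.prod_mul_distrib, Finset.prod_const]
      apply mul_le_mul_of_nonneg_left _ (by positivity)
      have h7 : (∏ d ∈ D, (q : ℝ) ^ (ε / 2 * d)) = (q : ℝ) ^ (ε / 2 * ∑ d ∈ D, (d : ℝ)) := by
        rw [Finset.mul_sum, Real.rpow_sum_of_pos hqp]
      rw [h7]
      apply Real.rpow_le_rpow_of_exponent_le (by linarith)
      have h8 : (∑ d ∈ D, (d : ℝ)) ≤ n := by
        rw [← Nat.cast_sum]
        exact Nat.cast_le.2 hs
      exact mul_le_mul_of_nonneg_left h8 hε2.le
    calc ((((∏ d ∈ D, (q ^ d - 1)) * (ringChar F) ^ n).divisors.card : ℕ) : ℝ)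
        ≤ (((∏ d ∈ D, (q ^ d - 1).divisors.card) * (n + 1) : ℕ) : ℝ) := by exact_mod_cast h1
      _ = (∏ d ∈ D, ((q ^ d - 1).divisors.card : ℝ)) * ((n : ℝ) + 1) := by push_cast; ring
      _ ≤ (C ^ D.card * (q : ℝ) ^ (ε / 2 * n)) * ((n : ℝ) + 1) := by
          apply mul_le_mul_of_nonneg_right (h3.trans h6) (by positivity)
      _ = _ := by ring
  have h1 := oo_sum n F
  have h2 : (SR32.oo (PS n F) : ℝ) ≤
      ∑ D ∈ (Finset.Icc 1 n).powerset.filter (fun D => ∑ d ∈ D, d ≤ n),
        ((((∏ d ∈ D, (q ^ d - 1)) * (ringChar F) ^ n).divisors.card : ℕ) : ℝ) := by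
    exact_mod_cast h1
  have h3 : (n : ℝ) + 1 ≤ (1 / δ + 1) * Real.exp (δ * n) := by
    have h4 := Real.add_one_le_exp (δ * n)
    have h5 : (1 : ℝ) ≤ Real.exp (δ * n) := Real.one_le_exp (by positivity)
    have h6 : (n : ℝ) ≤ 1 / δ * Real.exp (δ * n) := by
      rw [div_mul_eq_mul_div, one_mul, le_div_iff₀ hδ0]
      linarith
    linarith
  have h4 : Real.exp (δ * n) ≤ (q : ℝ) ^ (2 * δ * n) := by
    have h5 : Real.exp 1 ≤ (q : ℝ) ^ (2 : ℝ) := by
      have h6 := Real.exp_one_lt_d9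
      have h7 : (q : ℝ) ^ (2 : ℝ) = (q : ℝ) ^ 2 := by norm_num
      rw [h7]
      nlinarith
    calc Real.exp (δ * n) = (Real.exp 1) ^ (δ * n) := by
          rw [← Real.exp_mul, one_mul]
      _ ≤ ((q : ℝ) ^ (2 : ℝ)) ^ (δ * n) :=
          Real.rpow_le_rpow (Real.exp_pos _).le h5 (by positivity)
      _ = (q : ℝ) ^ (2 * δ * n) := by
          rw [← Real.rpow_mul hqp.le]
          congr 1
          ring
  have hset := sets_le hC1 hδ0 n
  calc (SR32.oo (PS n F) : ℝ)
      ≤ ∑ D ∈ (Finset.Icc 1 n).powerset.filter (fun D => ∑ d ∈ D, d ≤ n),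
        ((n : ℝ) + 1) * ((q : ℝ) ^ (ε / 2 * n)) * C ^ D.card := h2.trans (Finset.sum_le_sum hterm)
    _ = ((n : ℝ) + 1) * ((q : ℝ) ^ (ε / 2 * n)) *
        ∑ D ∈ (Finset.Icc 1 n).powerset.filter (fun D => ∑ d ∈ D, d ≤ n), C ^ D.card := by
        rw [Finset.mul_sum]
    _ ≤ ((1 / δ + 1) * Real.exp (δ * n)) * ((q : ℝ) ^ (ε / 2 * n)) *
        (Real.exp (C / δ) * Real.exp (δ * n)) := by
        apply mul_le_mul _ hset _ (by positivity)
        · exact mul_le_mul_of_nonneg_right h3 (by positivity)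
        · exact Finset.sum_nonneg fun _ _ => by positivity
    _ = ((1 / δ + 1) * Real.exp (C / δ)) *
        ((Real.exp (δ * n) * Real.exp (δ * n)) * (q : ℝ) ^ (ε / 2 * n)) := by ring
    _ ≤ ((1 / δ + 1) * Real.exp (C / δ)) *
        (((q : ℝ) ^ (2 * δ * n) * (q : ℝ) ^ (2 * δ * n)) * (q : ℝ) ^ (ε / 2 * n)) := by
        gcongr
    _ = ((1 / δ + 1) * Real.exp (C / δ)) * ((q : ℝ) ^ n) ^ ε := by
        congr 1
        rw [← Real.rpow_add hqp, ← Real.rpow_add hqp, ← Real.rpow_natCast (q : ℝ) n,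
          ← Real.rpow_mul hqp.le]
        congr 1
        rw [hδ]
        ring

end PLN.S3
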