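import Pool.Agent.Pal.Divisor
import Pool.Agent.SR32.Defs

/-!
# PLN/OrdS19: orders of elements of linear groups over finite fields
-/

set_option autoImplicit false

namespace PLN.S19

open Polynomial Finset

universe u

/-- the sets of positive integers with sum at most `n` -/
def DS (n : ℕ) : Finset (Finset ℕ) := ((Icc 1 n).powerset).filter (fun D => ∑ d ∈ D, d ≤ n)

/-- the product of the `q ^ d - 1` -/
def ND (q : ℕ) (D : Finset ℕ) : ℕ := ∏ d ∈ D, (q ^ d - 1)

theorem ND_pos {q n : ℕ} (hq : 2 ≤ q) {D : Finset ℕ} (hD : D ∈ DS n) : 1 ≤ ND q D := by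
  unfold ND
  apply Finset.one_le_prod'
  intro d hd
  have h1 : 1 ≤ d := (mem_Icc.1 (mem_powerset.1 (mem_filter.1 hD).1 hd)).1
  have h2 : 2 ^ 1 ≤ q ^ d := (Nat.pow_le_pow_left hq 1).trans (Nat.pow_le_pow_right (by omega) h1)
  omega

theorem ND_le {q n : ℕ} (hq : 2 ≤ q) {D : Finset ℕ} (hD : D ∈ DS n) : ND q D ≤ q ^ n := by
  unfold ND
  calc ∏ d ∈ D, (q ^ d - 1) ≤ ∏ d ∈ D, q ^ d := Finset.prod_le_prod' fun d _ => Nat.sub_le _ _
    _ = q ^ (∑ d ∈ D, d) := Finset.prod_pow_eq_pow_sum _ _ _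
    _ ≤ q ^ n := Nat.pow_le_pow_right (by omega) (mem_filter.1 hD).2

theorem toFinset_sum_le (m : Multiset ℕ) : ∑ d ∈ m.toFinset, d ≤ m.sum := by
  classical
  rw [Finset.sum_multiset_count m]
  apply Finset.sum_le_sum
  intro d hd
  have h1 : 1 ≤ m.count d := Multiset.one_le_count_iff_mem.2 (Multiset.mem_toFinset.1 hd)
  rw [smul_eq_mul]
  exact Nat.le_mul_of_pos_left _ h1

theorem irr_dvd {F : Type u} [Field F] [Finite F] {f : F[X]} (hf : Irreducible f)
    (hX : ¬ f ∣ X) : f ∣ X ^ (Nat.card F ^ f.natDegree - 1) - 1 := by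
  have : Fact (Irreducible f) := ⟨hf⟩
  have hf0 : f ≠ 0 := hf.ne_zero
  have : Module.Finite F (AdjoinRoot f) := (AdjoinRoot.powerBasis hf0).finite
  have : Finite (AdjoinRoot f) := Module.finite_of_finite F
  have : Fintype (AdjoinRoot f) := Fintype.ofFinite _
  have : Fintype F := Fintype.ofFinite F
  have hcard : Fintype.card (AdjoinRoot f) = Nat.card F ^ f.natDegree := by
    rw [Module.card_eq_pow_finrank (K := F) (V := AdjoinRoot f), (AdjoinRoot.powerBasis hf0).finrank,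
      AdjoinRoot.powerBasis_dim, Nat.card_eq_fintype_card]
  have h1 : (AdjoinRoot.mk f X) ≠ 0 := by
    intro h
    exact hX (AdjoinRoot.mk_eq_zero.1 h)
  have h2 := FiniteField.pow_card_sub_one_eq_one (AdjoinRoot.mk f X) h1
  rw [hcard] at h2
  rw [← AdjoinRoot.mk_eq_zero, map_sub, map_pow, h2, map_one, sub_self]

theorem prod_dvd {R : Type u} [CommRing R] (a : R) (s : Multiset R) (h : ∀ f ∈ s, f ∣ a) :
    s.prod ∣ a ^ s.card := by
  induction s using Multiset.induction_on with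
  | empty => simp
  | cons f s ih =>
    rw [Multiset.prod_cons, Multiset.card_cons, pow_succ']
    exact mul_dvd_mul (h f (Multiset.mem_cons_self f s))
      (ih fun g hg => h g (Multiset.mem_cons_of_mem hg))

theorem order_dvd {F : Type u} [Field F] [Finite F] {n : ℕ} (M : Matrix (Fin n) (Fin n) F)
    (hM : M.det ≠ 0) (p : ℕ) [hp : Fact p.Prime] [CharP F p] :
    ∃ D ∈ DS n, M ^ (ND (Nat.card F) D * p ^ (Nat.log 2 n + 1)) = 1 := by
  classical
  obtain ⟨χ, hχ⟩ : ∃ χ : F[X], χ = M.charpoly := ⟨_, rfl⟩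
  have hmon : χ.Monic := by rw [hχ]; exact M.charpoly_monic
  have hdeg : χ.natDegree = n := by
    rw [hχ, M.charpoly_natDegree_eq_dim, Fintype.card_fin]
  have hχ0 : χ ≠ 0 := hmon.ne_zero
  have hc0 : χ.coeff 0 ≠ 0 := by
    intro h
    apply hM
    rw [Matrix.det_eq_sign_charpoly_coeff, ← hχ, h, mul_zero]
  obtain ⟨s, hs⟩ : ∃ s : Multiset F[X], s = UniqueFactorizationMonoid.normalizedFactors χ :=
    ⟨_, rfl⟩
  have hirr : ∀ f ∈ s, Irreducible f := by
    intro f hf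
    rw [hs] at hf
    exact UniqueFactorizationMonoid.irreducible_of_normalized_factor f hf
  have hdvd : ∀ f ∈ s, f ∣ χ := by
    intro f hf
    rw [hs] at hf
    exact UniqueFactorizationMonoid.dvd_of_mem_normalizedFactors hf
  have hassoc : Associated s.prod χ := by
    rw [hs]
    exact UniqueFactorizationMonoid.prod_normalizedFactors hχ0
  have hsum : (s.map natDegree).sum = n := by
    have h0 : (0 : F[X]) ∉ s := by
      intro h
      exact (hirr 0 h).ne_zero rfl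
    rw [← hdeg, ← Polynomial.natDegree_multiset_prod s h0]
    exact Polynomial.natDegree_eq_of_degree_eq (Polynomial.degree_eq_degree_of_associated hassoc)
  obtain ⟨D, hD⟩ : ∃ D : Finset ℕ, D = (s.map natDegree).toFinset := ⟨_, rfl⟩
  have hDsum : ∑ d ∈ D, d ≤ n := by
    rw [hD, ← hsum]
    exact toFinset_sum_le _
  have hpos : ∀ f ∈ s, 1 ≤ f.natDegree := fun f hf => (hirr f hf).natDegree_pos
  have hDDS : D ∈ DS n := by
    unfold DS
    rw [mem_filter, mem_powerset]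
    refine ⟨fun d hd => ?_, hDsum⟩
    rw [mem_Icc]
    refine ⟨?_, (Finset.single_le_sum (f := fun d => d) (fun _ _ => Nat.zero_le _) hd).trans hDsum⟩
    rw [hD, Multiset.mem_toFinset, Multiset.mem_map] at hd
    obtain ⟨f, hf, rfl⟩ := hd
    exact hpos f hf
  refine ⟨D, hDDS, ?_⟩
  have hcard : s.card ≤ n := by
    rw [← hsum]
    have h1 : s.card • 1 ≤ (s.map natDegree).sum := by
      have h2 := Multiset.card_nsmul_le_sum (s := s.map natDegree) (a := 1) (by
        intro d hd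
        rw [Multiset.mem_map] at hd
        obtain ⟨f, hf, rfl⟩ := hd
        exact hpos f hf)
      rwa [Multiset.card_map] at h2
    simpa using h1
  have hfac : ∀ f ∈ s, f ∣ X ^ (ND (Nat.card F) D) - 1 := by
    intro f hf
    have hX : ¬ f ∣ X := by
      intro h
      have h1 : f ∣ χ := hdvd f hf
      have h2 : Associated f X := (hirr f hf).associated_of_dvd Polynomial.irreducible_X h
      have h3 : (X : F[X]) ∣ χ := h2.symm.dvd.trans h1
      exact hc0 (Polynomial.X_dvd_iff.1 h3)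
    refine (irr_dvd (hirr f hf) hX).trans ?_
    have h4 : Nat.card F ^ f.natDegree - 1 ∣ ND (Nat.card F) D := by
      unfold ND
      apply Finset.dvd_prod_of_mem (fun d => Nat.card F ^ d - 1)
      rw [hD, Multiset.mem_toFinset, Multiset.mem_map]
      exact ⟨f, hf, rfl⟩
    obtain ⟨c, hc⟩ := h4
    rw [hc, pow_mul]
    have h5 := sub_dvd_pow_sub_pow ((X : F[X]) ^ (Nat.card F ^ f.natDegree - 1)) 1 c
    rwa [one_pow] at h5
  have h1 : χ ∣ (X ^ (ND (Nat.card F) D) - 1) ^ s.card :=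
    hassoc.symm.dvd.trans (prod_dvd _ s hfac)
  have hn : s.card ≤ p ^ (Nat.log 2 n + 1) := by
    have h2 : n < 2 ^ (Nat.log 2 n + 1) := Nat.lt_pow_succ_log_self (by norm_num) n
    have h3 : 2 ^ (Nat.log 2 n + 1) ≤ p ^ (Nat.log 2 n + 1) :=
      Nat.pow_le_pow_left hp.out.two_le _
    omega
  have h2 : χ ∣ (X ^ (ND (Nat.card F) D) - 1) ^ (p ^ (Nat.log 2 n + 1)) :=
    h1.trans (pow_dvd_pow _ hn)
  have h3 : ((X : F[X]) ^ (ND (Nat.card F) D) - 1) ^ (p ^ (Nat.log 2 n + 1)) =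
      X ^ (ND (Nat.card F) D * p ^ (Nat.log 2 n + 1)) - 1 := by
    rw [sub_pow_char_pow, one_pow, ← pow_mul]
  rw [h3] at h2
  obtain ⟨ψ, hψ⟩ := h2
  have h4 : aeval M χ = 0 := by rw [hχ]; exact M.aeval_self_charpoly
  have h5 := congrArg (aeval M) hψ
  rw [map_mul, h4, zero_mul, map_sub, map_pow, aeval_X, map_one] at h5
  exact sub_eq_zero.1 h5

theorem card_DS {δ : ℝ} (hδ : 0 < δ) : ∃ C : ℝ, 1 ≤ C ∧ ∀ n : ℕ,
    ((DS n).card : ℝ) ≤ C * (2 : ℝ) ^ (δ * n) := by
  obtain ⟨x, hx⟩ : ∃ x : ℝ, x = (2 : ℝ) ^ (-δ) := ⟨_, rfl⟩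
  have hx0 : 0 < x := by rw [hx]; positivity
  have hx1 : x < 1 := by
    rw [hx]
    exact Real.rpow_lt_one_of_one_lt_of_neg (by norm_num) (by linarith)
  refine ⟨Real.exp (1 / (1 - x)), Real.one_le_exp (by
    apply div_nonneg zero_le_one
    linarith), fun n => ?_⟩
  have h1 : ∑ D ∈ (Icc 1 n).powerset, ∏ d ∈ D, x ^ d = ∏ d ∈ Icc 1 n, (1 + x ^ d) :=
    (Finset.prod_one_add (Icc 1 n)).symm
  have h2 : ∏ d ∈ Icc 1 n, (1 + x ^ d) ≤ Real.exp (1 / (1 - x)) := by
    have h3 : ∏ d ∈ Icc 1 n, (1 + x ^ d) ≤ Real.exp (∑ d ∈ Icc 1 n, x ^ d) := by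
      rw [Real.exp_sum]
      apply Finset.prod_le_prod
      · intro d _
        positivity
      · intro d _
        have := Real.add_one_le_exp (x ^ d)
        linarith
    refine h3.trans (Real.exp_le_exp.2 ?_)
    have h4 : ∑ d ∈ Icc 1 n, x ^ d ≤ ∑ d ∈ range (n + 1), x ^ d := by
      apply Finset.sum_le_sum_of_subset_of_nonneg
      · intro d hd
        rw [mem_Icc] at hd
        rw [mem_range]
        omega
      · intro d _ _
        positivity
    refine h4.trans ?_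
    have h5 := (summable_geometric_of_lt_one hx0.le hx1).sum_le_tsum (range (n + 1))
      (fun d _ => by positivity)
    rw [tsum_geometric_of_lt_one hx0.le hx1] at h5
    rwa [one_div]
  have h6 : ((DS n).card : ℝ) * x ^ n ≤ ∑ D ∈ (Icc 1 n).powerset, ∏ d ∈ D, x ^ d := by
    have h7 : ((DS n).card : ℝ) * x ^ n ≤ ∑ D ∈ DS n, ∏ d ∈ D, x ^ d := by
      rw [← nsmul_eq_mul]
      apply Finset.card_nsmul_le_sum
      intro D hD
      rw [Finset.prod_pow_eq_pow_sum]
      exact pow_le_pow_of_le_one hx0.le hx1.le (mem_filter.1 hD).2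
    refine h7.trans ?_
    unfold DS
    apply Finset.sum_le_sum_of_subset_of_nonneg (filter_subset _ _)
    intro D _ _
    exact Finset.prod_nonneg fun d _ => by positivity
  have h8 : x ^ n * (2 : ℝ) ^ (δ * n) = 1 := by
    rw [hx, ← Real.rpow_natCast, ← Real.rpow_mul (by norm_num), ← Real.rpow_add (by norm_num)]
    rw [show -δ * (n : ℝ) + δ * n = 0 by ring, Real.rpow_zero]
  have h9 : (0 : ℝ) < (2 : ℝ) ^ (δ * n) := by positivity
  calc ((DS n).card : ℝ) = (DS n).card * (x ^ n * (2 : ℝ) ^ (δ * n)) := by rw [h8, mul_one]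
    _ = ((DS n).card * x ^ n) * (2 : ℝ) ^ (δ * n) := by ring
    _ ≤ Real.exp (1 / (1 - x)) * (2 : ℝ) ^ (δ * n) :=
        mul_le_mul_of_nonneg_right (h6.trans (h1.le.trans h2)) h9.le

/-- A finite group, all of whose elements have an order that divides the order of an element of
`GL (n, F)`. -/
theorem oo_le (ε : ℝ) (hε : 0 < ε) : ∃ C : ℝ, 1 ≤ C ∧ ∀ (n : ℕ) (F : Type u) [Field F] [Finite F]
    (P : Type u) [Group P] [Finite P],
    (∀ x : P, ∃ M : Matrix (Fin n) (Fin n) F, M.det ≠ 0 ∧ ∀ k : ℕ, M ^ k = 1 → x ^ k = 1) →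
    (SR32.oo P : ℝ) ≤ C * (Nat.card F : ℝ) ^ (ε * n) := by
  obtain ⟨C1, hC1, h1⟩ := card_DS (δ := ε / 3) (by positivity)
  obtain ⟨C2, hC2, h2⟩ := Pool.Agent.Pal.card_divisors_le_rpow (η := ε / 3) (by positivity)
  refine ⟨C1 * C2, one_le_mul_of_one_le_of_one_le hC1 hC2, ?_⟩
  intro n F _ _ P _ _ hP
  obtain ⟨p, hpc⟩ := CharP.exists F
  have hpp : p.Prime := CharP.char_is_prime F p
  have : Fact p.Prime := ⟨hpp⟩
  have : Fintype F := Fintype.ofFinite F
  have hpq : p ≤ Nat.card F := by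
    obtain ⟨m, -, hm⟩ := FiniteField.card F p
    rw [Nat.card_eq_fintype_card, hm]
    exact Nat.le_self_pow m.pos.ne' p
  have hq2 : 2 ≤ Nat.card F := hpp.two_le.trans hpq
  have hqR : (1 : ℝ) ≤ (Nat.card F : ℝ) := by exact_mod_cast (by omega : 1 ≤ Nat.card F)
  have hq2R : (2 : ℝ) ≤ (Nat.card F : ℝ) := by exact_mod_cast hq2
  rcases Nat.eq_zero_or_pos n with rfl | hn
  · -- the trivial case
    have h3 : ∀ x : P, x = 1 := by
      intro x
      obtain ⟨M, -, hM⟩ := hP x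
      have := hM 1 (Subsingleton.elim _ _)
      simpa using this
    have h4 : SR32.oo P ≤ 1 := by
      unfold SR32.oo
      rw [Set.ncard_le_one]
      rintro _ ⟨x, rfl⟩ _ ⟨y, rfl⟩
      simp only [h3 x, h3 y]
    have h5 : (SR32.oo P : ℝ) ≤ 1 := by exact_mod_cast h4
    refine h5.trans ?_
    rw [Nat.cast_zero, mul_zero, Real.rpow_zero, mul_one]
    exact one_le_mul_of_one_le_of_one_le hC1 hC2
  obtain ⟨k, hk⟩ : ∃ k, k = Nat.log 2 n + 1 := ⟨_, rfl⟩
  have hkn : k ≤ n := by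
    rw [hk]
    have := Nat.log_lt_self 2 hn.ne'
    omega
  have hbound : ∀ D ∈ DS n, ((ND (Nat.card F) D * p ^ k).divisors.card : ℝ) ≤
      C2 * (Nat.card F : ℝ) ^ (ε / 3 * (2 * n)) := by
    intro D hD
    have h3 : 1 ≤ ND (Nat.card F) D * p ^ k :=
      Nat.mul_pos (ND_pos hq2 hD) (pow_pos hpp.pos _)
    refine (h2 _ h3).trans ?_
    apply mul_le_mul_of_nonneg_left _ (by linarith)
    have h4 : ND (Nat.card F) D * p ^ k ≤ Nat.card F ^ (2 * n) := by
      calc ND (Nat.card F) D * p ^ k ≤ Nat.card F ^ n * Nat.card F ^ n :=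
            Nat.mul_le_mul (ND_le hq2 hD) ((Nat.pow_le_pow_left hpq k).trans
              (Nat.pow_le_pow_right (by omega) hkn))
        _ = Nat.card F ^ (2 * n) := by rw [← pow_add, two_mul]
    have h5 : ((ND (Nat.card F) D * p ^ k : ℕ) : ℝ) ≤ (Nat.card F : ℝ) ^ (2 * n) := by
      exact_mod_cast h4
    calc ((ND (Nat.card F) D * p ^ k : ℕ) : ℝ) ^ (ε / 3) ≤
          ((Nat.card F : ℝ) ^ (2 * n)) ^ (ε / 3) :=
          Real.rpow_le_rpow (Nat.cast_nonneg _) h5 (by positivity)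
      _ = (Nat.card F : ℝ) ^ (ε / 3 * (2 * n)) := by
          rw [← Real.rpow_natCast, ← Real.rpow_mul (by linarith)]
          congr 1
          push_cast
          ring
  have hsub : Set.range (fun g : P => orderOf g) ⊆
      (((DS n).biUnion fun D => (ND (Nat.card F) D * p ^ k).divisors : Finset ℕ) : Set ℕ) := by
    rintro _ ⟨x, rfl⟩
    obtain ⟨M, hM0, hM⟩ := hP x
    obtain ⟨D, hD, h3⟩ := order_dvd M hM0 p
    rw [Finset.mem_coe, Finset.mem_biUnion]
    refine ⟨D, hD, ?_⟩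
    rw [Nat.mem_divisors]
    refine ⟨?_, (Nat.mul_pos (ND_pos hq2 hD) (pow_pos hpp.pos _)).ne'⟩
    rw [hk]
    exact orderOf_dvd_of_pow_eq_one (hM _ h3)
  have h3 : SR32.oo P ≤ ((DS n).biUnion fun D => (ND (Nat.card F) D * p ^ k).divisors).card := by
    unfold SR32.oo
    rw [← Set.ncard_coe_finset]
    exact Set.ncard_le_ncard hsub (Finset.finite_toSet _)
  have h4 : (SR32.oo P : ℝ) ≤ ∑ D ∈ DS n, ((ND (Nat.card F) D * p ^ k).divisors.card : ℝ) := by
    have h5 := h3.trans Finset.card_biUnion_le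
    exact_mod_cast h5
  refine h4.trans ((Finset.sum_le_sum hbound).trans ?_)
  rw [Finset.sum_const, nsmul_eq_mul]
  have h5 : ((DS n).card : ℝ) ≤ C1 * (Nat.card F : ℝ) ^ (ε / 3 * n) := by
    refine (h1 n).trans (mul_le_mul_of_nonneg_left ?_ (by linarith))
    exact Real.rpow_le_rpow (by norm_num) hq2R (by positivity)
  have hC2' : 0 ≤ C2 * (Nat.card F : ℝ) ^ (ε / 3 * (2 * n)) := by positivity
  refine (mul_le_mul_of_nonneg_right h5 hC2').trans (le_of_eq ?_)
  have h6 : (Nat.card F : ℝ) ^ (ε * n) =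
      (Nat.card F : ℝ) ^ (ε / 3 * n) * (Nat.card F : ℝ) ^ (ε / 3 * (2 * n)) := by
    rw [← Real.rpow_add (by linarith)]
    congr 1
    ring
  rw [h6]
  ring

theorem oo_SL (ε : ℝ) (hε : 0 < ε) : ∃ C : ℝ, 1 ≤ C ∧ ∀ (n : ℕ) (F : Type) [Field F] [Finite F],
    (SR32.oo (Matrix.SpecialLinearGroup (Fin n) F) : ℝ) ≤ C * (Nat.card F : ℝ) ^ (ε * n) := by
  obtain ⟨C, hC, h⟩ := oo_le.{0} ε hε
  refine ⟨C, hC, fun n F _ _ => ?_⟩
  have : Finite (Matrix.SpecialLinearGroup (Fin n) F) :=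
    Finite.of_injective (fun A => (A : Matrix (Fin n) (Fin n) F)) Subtype.val_injective
  apply h n F
  intro x
  refine ⟨x.1, by rw [x.2]; exact one_ne_zero, fun k hk => ?_⟩
  apply Subtype.ext
  rw [Matrix.SpecialLinearGroup.coe_pow, Matrix.SpecialLinearGroup.coe_one]
  exact hk

theorem oo_PSL (ε : ℝ) (hε : 0 < ε) : ∃ C : ℝ, 1 ≤ C ∧ ∀ (n : ℕ) (F : Type) [Field F] [Finite F],
    (SR32.oo (Matrix.ProjectiveSpecialLinearGroup (Fin n) F) : ℝ) ≤
      C * (Nat.card F : ℝ) ^ (ε * n) := by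
  obtain ⟨C, hC, h⟩ := oo_le.{0} ε hε
  refine ⟨C, hC, fun n F _ _ => ?_⟩
  have : Finite (Matrix.SpecialLinearGroup (Fin n) F) :=
    Finite.of_injective (fun A => (A : Matrix (Fin n) (Fin n) F)) Subtype.val_injective
  have : Finite (Matrix.ProjectiveSpecialLinearGroup (Fin n) F) :=
    Finite.of_surjective _ (QuotientGroup.mk'_surjective _)
  apply h n F
  intro x
  obtain ⟨y, rfl⟩ := QuotientGroup.mk_surjective x
  refine ⟨y.1, by rw [y.2]; exact one_ne_zero, fun k hk => ?_⟩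
  have h1 : y ^ k = 1 := by
    apply Subtype.ext
    rw [Matrix.SpecialLinearGroup.coe_pow, Matrix.SpecialLinearGroup.coe_one]
    exact hk
  rw [← QuotientGroup.mk_pow, h1]
  rfl

end PLN.S19
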