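import Mathlib

/-!
# Orders of the elements of `SL (n, F)` (helper62)
-/

set_option autoImplicit false

namespace PLN.S62

open Matrix Polynomial

/-- The degrees of the irreducible factors. -/
theorem exists_degrees {F : Type*} [Field F] (f : F[X]) (hf : f ≠ 0) :
    ∃ D : Finset ℕ, (∀ d ∈ D, 0 < d) ∧ ∑ d ∈ D, d ≤ f.natDegree ∧
      ∀ P : F[X], Irreducible P → P ∣ f → P.natDegree ∈ D := by
  classical
  induction f using WfDvdMonoid.induction_on_irreducible with
  | zero => exact absurd rfl hf
  | unit u hu =>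
    refine ⟨∅, by simp, by simp, fun P hP h => ?_⟩
    exact absurd (isUnit_of_dvd_unit h hu) hP.not_isUnit
  | mul a i ha hi ih =>
    obtain ⟨D, h1, h2, h3⟩ := ih ha
    refine ⟨insert i.natDegree D, ?_, ?_, ?_⟩
    · intro d hd
      rcases Finset.mem_insert.1 hd with rfl | hd
      · exact Irreducible.natDegree_pos hi
      · exact h1 d hd
    · rw [natDegree_mul hi.ne_zero ha]
      by_cases hm : i.natDegree ∈ D
      · rw [Finset.insert_eq_of_mem hm]; omega
      · rw [Finset.sum_insert hm]; omega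
    · intro P hP h
      rcases hP.prime.dvd_or_dvd h with h | h
      · have := hP.associated_of_dvd hi h
        rw [natDegree_eq_of_degree_eq (degree_eq_degree_of_associated this)]
        exact Finset.mem_insert_self _ _
      · exact Finset.mem_insert_of_mem (h3 P hP h)

/-- A polynomial divides a power of every polynomial that is divisible by its irreducible
factors. -/
theorem dvd_pow_natDegree {F : Type*} [Field F] (f g : F[X]) (hf : f ≠ 0)
    (h : ∀ P : F[X], Irreducible P → P ∣ f → P ∣ g) : f ∣ g ^ f.natDegree := by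
  induction f using WfDvdMonoid.induction_on_irreducible with
  | zero => exact absurd rfl hf
  | unit u hu => exact hu.dvd
  | mul a i ha hi ih =>
    have h1 := ih ha (fun P hP hPa => h P hP (dvd_mul_of_dvd_right hPa i))
    have h2 := h i hi (dvd_mul_right i a)
    have h3 : 0 < i.natDegree := Irreducible.natDegree_pos hi
    refine (mul_dvd_mul h2 h1).trans ?_
    rw [← pow_succ', natDegree_mul hi.ne_zero ha]
    exact pow_dvd_pow g (by omega)

/-- The orders of the elements of `SL (n, F)`. -/
theorem pow_eq_one {F : Type*} [Field F] [Finite F] {n : ℕ} (g : SpecialLinearGroup (Fin n) F)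
    {p k : ℕ} [hp : Fact p.Prime] [CharP F p] (hk : n ≤ p ^ k) :
    ∃ D : Finset ℕ, (∀ d ∈ D, 0 < d) ∧ ∑ d ∈ D, d ≤ n ∧
      g ^ (p ^ k * ∏ d ∈ D, (Nat.card F ^ d - 1)) = 1 := by
  classical
  set χ := (g : Matrix (Fin n) (Fin n) F).charpoly with hχ
  have hmon : χ.Monic := Matrix.charpoly_monic _
  have hdeg : χ.natDegree = n := by
    rw [hχ, Matrix.charpoly_natDegree_eq_dim, Fintype.card_fin]
  obtain ⟨D, h1, h2, h3⟩ := exists_degrees χ hmon.ne_zero
  refine ⟨D, h1, hdeg ▸ h2, ?_⟩
  set M := ∏ d ∈ D, (Nat.card F ^ d - 1) with hM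
  have hX : ∀ P : F[X], Irreducible P → P ∣ χ → P ∣ X ^ M - 1 := by
    intro P hP hPχ
    have hd := h3 P hP hPχ
    have h4 : P ∣ X ^ Nat.card F ^ P.natDegree - X :=
      hP.natDegree_dvd_iff_dvd_X_pow_card_pow_sub_X.1 dvd_rfl
    have hq : 1 ≤ Nat.card F ^ P.natDegree := Nat.one_le_pow _ _ Nat.card_pos
    have h5 : (X ^ Nat.card F ^ P.natDegree - X : F[X]) =
        X * (X ^ (Nat.card F ^ P.natDegree - 1) - 1) := by
      rw [mul_sub, mul_one, ← pow_succ', Nat.sub_add_cancel hq]
    rw [h5] at h4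
    rcases hP.prime.dvd_or_dvd h4 with h | h
    · exfalso
      have h6 : Associated P X := hP.associated_of_dvd irreducible_X h
      have h7 : (X : F[X]) ∣ χ := h6.symm.dvd.trans hPχ
      rw [X_dvd_iff, hχ] at h7
      have h8 := Matrix.det_eq_sign_charpoly_coeff (g : Matrix (Fin n) (Fin n) F)
      rw [h7, mul_zero, g.det_coe] at h8
      exact one_ne_zero h8
    · refine h.trans ?_
      rw [hM, ← Finset.mul_prod_erase D _ hd, pow_mul]
      have := sub_dvd_pow_sub_pow ((X : F[X]) ^ (Nat.card F ^ P.natDegree - 1)) 1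
        (∏ d ∈ D.erase P.natDegree, (Nat.card F ^ d - 1))
      rwa [one_pow] at this
  have h9 : χ ∣ X ^ (p ^ k * M) - 1 := by
    have h10 := dvd_pow_natDegree χ (X ^ M - 1) hmon.ne_zero hX
    rw [hdeg] at h10
    refine (h10.trans (pow_dvd_pow _ hk)).trans ?_
    rw [sub_pow_char_pow, one_pow, ← pow_mul, mul_comm]
  obtain ⟨R, hR⟩ := h9
  have h11 := congrArg (aeval (g : Matrix (Fin n) (Fin n) F)) hR
  rw [map_mul, hχ, Matrix.aeval_self_charpoly, zero_mul] at h11
  simp only [map_sub, map_pow, aeval_X, map_one] at h11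
  apply Subtype.ext
  have h12 := sub_eq_zero.1 h11
  rw [← Matrix.SpecialLinearGroup.coe_pow] at h12
  exact h12

end PLN.S62
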