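import Pool.Agent.PLN.Perm

/-!
# PLN/RepS32: representatives
-/

set_option autoImplicit false

namespace PLN.S32

open Matrix PLN

universe u

variable {n : ℕ} {F : Type u} [Field F]

theorem par_refl (v : Fin n → F) : Par v v := ⟨1, one_ne_zero, (one_smul _ _).symm⟩

theorem flag_e {i j : Fin n} (hij : i ≠ j) :
    Flag (Pi.single i 1 : Fin n → F) (Pi.single j 1) := by
  refine ⟨?_, ?_, ?_⟩
  · intro h
    have := congrFun h i
    simp at this
  · intro h
    have := congrFun h j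
    simp at this
  · rw [single_dotProduct, one_mul, Pi.single_eq_of_ne hij.symm]

theorem dot_smul_zero {v φ : Fin n → F} (h : φ ⬝ᵥ v = 0) (c : F) : φ ⬝ᵥ (c • v) = 0 := by
  rw [dotProduct_smul, h, smul_zero]

theorem t_move {v φ : Fin n → F} (h : φ ⬝ᵥ v = 0) (b c : F) :
    t (c • v) (b • φ) = t ((b * c) • v) φ := by
  rw [← t_smul b (dot_smul_zero h c), smul_smul]

theorem t_scal_inj (hn : 3 ≤ n) {w ψ : Fin n → F} (h : Flag w ψ) {c c' : F}
    (e : t (c • w) ψ = t (c' • w) ψ) : c = c' := by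
  have h1 := t_inj hn (dot_smul_zero h.2.2 c) (dot_smul_zero h.2.2 c') e
  obtain ⟨i, hi⟩ := Function.ne_iff.1 h.1
  obtain ⟨j, hj⟩ := Function.ne_iff.1 h.2.1
  have h2 := congrFun (congrFun h1 i) j
  simp only [vecMulVec_apply, Pi.smul_apply, smul_eq_mul, Pi.zero_apply] at h2 hi hj
  have h3 := mul_right_cancel₀ hj h2
  exact mul_right_cancel₀ hi h3

theorem img_par {α : MulAut (PS n F)} {v φ w ψ w' ψ' : Fin n → F} (hI : Img α v φ w ψ)
    (hw : Par w' w) (hψ : Par ψ' ψ) (h0 : ψ' ⬝ᵥ w' = 0) : Img α v φ w' ψ' := by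
  obtain ⟨a, ha, rfl⟩ := hw
  obtain ⟨b, hb, rfl⟩ := hψ
  intro c
  obtain ⟨d, hd⟩ := hI c
  refine ⟨b * (d * a), ?_⟩
  rw [hd, smul_smul, t_move h0]

theorem img_inv [Finite F] (hn : 3 ≤ n) {α : MulAut (PS n F)} {v φ w ψ : Fin n → F}
    (h : Flag w ψ) (_h' : Flag v φ) (hI : Img α⁻¹ w ψ v φ) : Img α v φ w ψ := by
  choose f hf using hI
  have hinj : Function.Injective f := by
    intro c c' hcc
    have h1 : α⁻¹ (t (c • w) ψ) = α⁻¹ (t (c' • w) ψ) := by rw [hf, hf, hcc]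
    exact t_scal_inj hn h (α⁻¹.injective h1)
  intro c
  obtain ⟨d, hd⟩ := (Finite.injective_iff_surjective.1 hinj) c
  refine ⟨d, ?_⟩
  rw [← hd, ← hf d]
  exact α.apply_symm_apply _

theorem rep_good [Finite F] (hn : 3 ≤ n) {α : MulAut (PS n F)} (hα : Pres α) :
    ∃ s : PS n F, Good (MulAut.conj s * α) := by
  classical
  let i0 : Fin n := ⟨0, by omega⟩
  let i1 : Fin n := ⟨1, by omega⟩
  have h01 : i0 ≠ i1 := by
    intro h
    have := congrArg Fin.val h
    simp [i0, i1] at this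
  -- another index
  obtain ⟨nx, hnx⟩ : ∃ nx : Fin n → Fin n, ∀ i, nx i ≠ i := by
    refine ⟨fun i => if i = i0 then i1 else i0, fun i => ?_⟩
    by_cases hi : i = i0
    · simp only [hi, if_true]
      exact h01.symm
    · simp only [hi, if_false]
      exact fun h => hi h.symm
  have hperm : ∀ i j : Fin n, ∃ w ψ : Fin n → F, i ≠ j →
      Flag w ψ ∧ Img α (Pi.single i 1) (Pi.single j 1) w ψ := by
    intro i j
    by_cases hij : i = j
    · exact ⟨0, 0, fun h => absurd hij h⟩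
    · obtain ⟨w, ψ, h1, h2⟩ := perm hn α (flag_e (F := F) hij)
      exact ⟨w, ψ, fun _ => ⟨h1, h2⟩⟩
  choose W Ψ hW using hperm
  let f : Fin n → (Fin n → F) := fun i => W i (nx i)
  let ψ : Fin n → (Fin n → F) := fun j => Ψ (nx j) j
  have hf : ∀ i j, i ≠ j → Par (f i) (W i j) := by
    intro i j hij
    have h1 := hW i (nx i) (hnx i).symm
    have h2 := hW i j hij
    exact ((hα _ _ _ _ _ _ _ _ (flag_e (hnx i).symm) h1.1 (flag_e hij) h2.1 h1.2 h2.2).1).1
      (par_refl _)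
  have hψ : ∀ i j, i ≠ j → Par (ψ j) (Ψ i j) := by
    intro i j hij
    have h1 := hW (nx j) j (hnx j)
    have h2 := hW i j hij
    exact ((hα _ _ _ _ _ _ _ _ (flag_e (hnx j)) h1.1 (flag_e hij) h2.1 h1.2 h2.2).2).1
      (par_refl _)
  have hf0 : ∀ i, f i ≠ 0 := fun i => (hW i (nx i) (hnx i).symm).1.1
  have hψ0 : ∀ j, ψ j ≠ 0 := fun j => (hW (nx j) j (hnx j)).1.2.1
  have hdot : ∀ i j, i ≠ j → ψ j ⬝ᵥ f i = 0 := by
    intro i j hij
    obtain ⟨a, ha, h1⟩ := hf i j hij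
    obtain ⟨b, hb, h2⟩ := hψ i j hij
    have h3 := (hW i j hij).1.2.2
    rw [h1, h2, dotProduct_smul, smul_dotProduct, smul_eq_mul, smul_eq_mul] at h3
    have h4 := (mul_eq_zero.1 h3).resolve_left ha
    exact (mul_eq_zero.1 h4).resolve_left hb
  have hflag : ∀ i j, i ≠ j → Flag (f i) (ψ j) := fun i j hij => ⟨hf0 i, hψ0 j, hdot i j hij⟩
  have himg : ∀ i j, i ≠ j → Img α (Pi.single i 1) (Pi.single j 1) (f i) (ψ j) :=
    fun i j hij => img_par (hW i j hij).2 (hf i j hij) (hψ i j hij) (hdot i j hij)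
  have hdiag : ∀ i, ψ i ⬝ᵥ f i ≠ 0 := by
    intro i h0
    have hfl : Flag (f i) (ψ i) := ⟨hf0 i, hψ0 i, h0⟩
    obtain ⟨v, φ, hvφ, hI⟩ := perm hn α⁻¹ hfl
    have hI' : Img α v φ (f i) (ψ i) := img_inv hn hfl hvφ hI
    have h1 : Par (Pi.single i 1 : Fin n → F) v :=
      ((hα _ _ _ _ _ _ _ _ (flag_e (hnx i).symm) (hflag i (nx i) (hnx i).symm) hvφ hfl
        (himg i (nx i) (hnx i).symm) hI').1).2 (par_refl _)
    have h2 : Par (Pi.single i 1 : Fin n → F) φ :=
      ((hα _ _ _ _ _ _ _ _ (flag_e (hnx i)) (hflag (nx i) i (hnx i)) hvφ hfl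
        (himg (nx i) i (hnx i)) hI').2).2 (par_refl _)
    obtain ⟨a, ha, h3⟩ := h1
    obtain ⟨b, hb, h4⟩ := h2
    have h5 := hvφ.2.2
    rw [h3, h4, dotProduct_smul, smul_dotProduct, single_dotProduct, Pi.single_eq_same, one_mul,
      smul_eq_mul, smul_eq_mul, mul_one] at h5
    exact (mul_ne_zero ha hb) h5
  -- the matrix
  let G : Matrix (Fin n) (Fin n) F := Matrix.of (fun a i => f i a)
  let P : Matrix (Fin n) (Fin n) F := Matrix.of (fun j a => ψ j a)
  have hPG : P * G = Matrix.diagonal (fun i => ψ i ⬝ᵥ f i) := by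
    ext j i
    rw [Matrix.mul_apply]
    have h1 : ∑ a, P j a * G a i = ψ j ⬝ᵥ f i := rfl
    rw [h1]
    by_cases hij : j = i
    · subst hij
      rw [Matrix.diagonal_apply_eq]
    · rw [Matrix.diagonal_apply_ne _ hij, hdot i j (Ne.symm hij)]
  have hdet : G.det ≠ 0 := by
    intro h0
    have h1 := congrArg Matrix.det hPG
    rw [Matrix.det_mul, h0, mul_zero, Matrix.det_diagonal] at h1
    exact (Finset.prod_ne_zero_iff.2 fun i _ => hdiag i) h1.symm
  let a : Fin n → F := fun i => if i = i0 then (G.det)⁻¹ else 1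
  have ha : ∀ i, a i ≠ 0 := by
    intro i
    by_cases hi : i = i0
    · simp only [a, hi, if_true]
      exact inv_ne_zero hdet
    · simp only [a, hi, if_false]
      exact one_ne_zero
  have hdet1 : (G * Matrix.diagonal a).det = 1 := by
    rw [Matrix.det_mul, Matrix.det_diagonal]
    have h1 : ∏ i, a i = (G.det)⁻¹ := by
      rw [Finset.prod_ite_eq' Finset.univ i0 (fun _ => (G.det)⁻¹)]
      simp
    rw [h1, mul_inv_cancel₀ hdet]
  let g : GS n F := ⟨G * Matrix.diagonal a, hdet1⟩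
  have hgv : ∀ i, g.1 *ᵥ (Pi.single i 1) = a i • f i := by
    intro i
    ext k
    rw [Matrix.mulVec_single_one]
    show (G * Matrix.diagonal a) k i = a i * f i k
    rw [Matrix.mul_diagonal]
    show f i k * a i = a i * f i k
    rw [mul_comm]
  have hgv' : ∀ i, (g⁻¹).1 *ᵥ (f i) = (a i)⁻¹ • (Pi.single i 1 : Fin n → F) := by
    intro i
    have h1 : f i = (a i)⁻¹ • (g.1 *ᵥ (Pi.single i 1)) := by
      rw [hgv, smul_smul, inv_mul_cancel₀ (ha i), one_smul]
    rw [h1, Matrix.mulVec_smul, Matrix.mulVec_mulVec]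
    have h2 : (g⁻¹).1 * g.1 = 1 := by
      have h3 : g⁻¹ * g = 1 := inv_mul_cancel g
      exact congrArg Subtype.val h3
    rw [h2, Matrix.one_mulVec]
  have hψg : ∀ j, ψ j ᵥ* g.1 = ((ψ j ⬝ᵥ f j) * a j) • (Pi.single j 1 : Fin n → F) := by
    intro j
    ext k
    show ψ j ⬝ᵥ (fun l => (G * Matrix.diagonal a) l k) = _
    have h1 : (fun l => (G * Matrix.diagonal a) l k) = a k • f k := by
      funext l
      rw [Matrix.mul_diagonal]
      show f k l * a k = a k * f k l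
      rw [mul_comm]
    rw [h1, dotProduct_smul, Pi.smul_apply, smul_eq_mul, smul_eq_mul]
    by_cases hjk : k = j
    · subst hjk
      rw [Pi.single_eq_same, mul_one, mul_comm]
    · rw [hdot k j hjk, Pi.single_eq_of_ne hjk, mul_zero, mul_zero]
  refine ⟨(QuotientGroup.mk g : PS n F)⁻¹, ?_⟩
  intro i j hij c
  obtain ⟨d, hd⟩ := himg i j hij c
  refine ⟨((ψ j ⬝ᵥ f j) * a j) * (d * (a i)⁻¹), ?_⟩
  have h1 : α (x i j c) = t (d • f i) (ψ j) := hd
  have h2 : (MulAut.conj ((QuotientGroup.mk g : PS n F)⁻¹) * α) (x i j c) =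
      (QuotientGroup.mk g⁻¹ : PS n F) * t (d • f i) (ψ j) * (QuotientGroup.mk g⁻¹ : PS n F)⁻¹ := by
    rw [MulAut.mul_apply, h1]
    rfl
  rw [h2, t_conj g⁻¹ (dot_smul_zero (hdot i j hij) d), inv_inv, Matrix.mulVec_smul, hgv', hψg,
    smul_smul]
  exact t_move (flag_e hij).2.2 _ _

end PLN.S32
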