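import Pool.Agent.PLN.Perm
import Pool.Agent.PLN.RepS32

/-!
# PLN/Rep (STUB): representatives
-/

set_option autoImplicit false

namespace PLN

open Matrix

universe u

variable {n : ℕ} {F : Type u} [Field F] [Finite F]

/-- PROOF. `α X i j` is the group of `(f i, ψ j)` by `Pres` (`n ≥ 3`), `ψ j ⬝ᵥ f i = 0` for `i ≠ j`, `ψ i ⬝ᵥ f i ≠ 0`: otherwise `(f i, ψ i)` is the image of a flag `(v, φ)` (`perm` for
`α⁻¹`) and `Pres` gives `Par e_i v`, `Par e_i φ`, but `φ ⬝ᵥ v = 0`. So the `f i` are independent; `g` = matrix with columns `f i`, one column scaled to determinant `1`;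
`s = (mk g)⁻¹`, `t_conj`. -/
theorem rep_good (hn : 3 ≤ n) {α : MulAut (PS n F)} (hα : Pres α) :
    ∃ s : PS n F, Good (MulAut.conj s * α) := S32.rep_good hn hα

end PLN
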