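import Pool.Agent.PLN.Dich
import Pool.Agent.PLN.Rep
import Pool.Agent.PLN.Form
import Pool.Agent.PLN.Gen
import Pool.Agent.PLN.Diag
import Pool.Agent.PLN.Gal

/-!
# PLN/OutS92: the outer automorphism group
-/

set_option autoImplicit false

namespace PLN.S92

open Matrix

universe u

variable {n : ℕ} {F : Type u} [Field F]

/-- the factor of a diagonal automorphism on the elementary group `(i, j)` -/
def dg (r : Fˣ) (i j : Fin n) : F :=
  (((if (i : ℕ) = 0 then r else 1) * (if (j : ℕ) = 0 then r else 1)⁻¹ : Fˣ) : F)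

theorem pres_rep [Finite F] (hn : 3 ≤ n) (R : Finset Fˣ)
    (hR : ∀ c : Fˣ, ∃ k : Fˣ, ∃ r ∈ R, c = k ^ n * r) (α : MulAut (PS n F)) (hα : Pres α) :
    ∃ (r : R) (σ : F ≃+* F) (s : PS n F), ∀ i j : Fin n, i ≠ j → ∀ c : F,
      (MulAut.conj s * α) (x i j c) = x i j (dg (r : Fˣ) i j * σ c) := by
  obtain ⟨s, hs⟩ := rep_good hn hα
  obtain ⟨σ, μ, hσ⟩ := good_form hn hs
  obtain ⟨s', r, hr, h⟩ := diag_adjust (by omega) R hR μ
  refine ⟨⟨r, hr⟩, σ, s' * s, fun i j hij c => ?_⟩
  have e1 := hσ i j hij c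
  have e2 := h i j hij (σ c)
  rw [← e1] at e2
  rw [map_mul, mul_assoc, MulAut.mul_apply, MulAut.conj_apply, e2]
  rfl

theorem eq_of_gen (hn : 2 ≤ n) (α β : MulAut (PS n F))
    (h : ∀ i j : Fin n, i ≠ j → ∀ c, α (x i j c) = β (x i j c)) : α = β := by
  have h1 := gen hn (MonoidHom.eqLocus α.toMonoidHom β.toMonoidHom)
    (fun i j hij c => h i j hij c)
  ext g
  have h2 : g ∈ MonoidHom.eqLocus α.toMonoidHom β.toMonoidHom := by
    rw [h1]
    exact Subgroup.mem_top g
  exact h2

theorem conj_aut {G : Type u} [Group G] (φ : MulAut G) (g : G) :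
    MulAut.conj (φ g) = φ * MulAut.conj g * φ⁻¹ := by
  ext y
  simp only [MulAut.conj_apply, MulAut.mul_apply, map_mul, map_inv, MulAut.apply_inv_self]

theorem out_index {n : ℕ} (hn : 3 ≤ n) (F : Type u) [Field F] [Finite F] :
    (MulAut.conj : PS n F →* MulAut (PS n F)).range.index ≤
      2 * (n * Nat.log 2 (Nat.card F)) := by
  classical
  obtain ⟨R, hR1, hR2⟩ := pow_rep (F := F) (n := n) (by omega)
  have hgal := card_ringAut F
  have hfin : Finite (F ≃+* F) :=
    Finite.of_injective (fun e : F ≃+* F => (e : F → F)) DFunLike.coe_injective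
  obtain ⟨β, hβ⟩ : ∃ β : MulAut (PS n F), ∀ α : MulAut (PS n F), ¬ Pres α → Pres (β⁻¹ * α) := by
    by_cases h : ∃ β : MulAut (PS n F), Swap β
    · obtain ⟨β, hβ⟩ := h
      refine ⟨β, fun α hα => ?_⟩
      rcases dich hn α with h1 | h1
      · exact absurd h1 hα
      · exact swap_mul hn h1 hβ
    · refine ⟨1, fun α hα => ?_⟩
      rcases dich hn α with h1 | h1
      · exact absurd h1 hα
      · exact absurd ⟨α, h1⟩ h
  have key : ∀ a : MulAut (PS n F), ∃ (b : Bool) (r : R) (σ : F ≃+* F) (s : PS n F),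
      ∀ i j : Fin n, i ≠ j → ∀ c : F,
        (MulAut.conj s * ((if b = true then 1 else β⁻¹) * a)) (x i j c) =
          x i j (dg (r : Fˣ) i j * σ c) := by
    intro a
    by_cases ha : Pres a
    · obtain ⟨r, σ, s, h⟩ := pres_rep hn R hR2 a ha
      refine ⟨true, r, σ, s, fun i j hij c => ?_⟩
      rw [if_pos rfl, one_mul]
      exact h i j hij c
    · obtain ⟨r, σ, s, h⟩ := pres_rep hn R hR2 _ (hβ a ha)
      refine ⟨false, r, σ, s, fun i j hij c => ?_⟩
      rw [if_neg Bool.false_ne_true]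
      exact h i j hij c
  choose b r σ s hk using key
  let f : MulAut (PS n F) ⧸ (MulAut.conj : PS n F →* MulAut (PS n F)).range →
      Bool × R × (F ≃+* F) := fun c => (b c.out, r c.out, σ c.out)
  have hf : Function.Injective f := by
    intro c1 c2 h
    have hb : b c1.out = b c2.out := congrArg Prod.fst h
    have hr : r c1.out = r c2.out := congrArg (fun z => z.2.1) h
    have hs : σ c1.out = σ c2.out := congrArg (fun z => z.2.2) h
    have e := eq_of_gen (by omega : 2 ≤ n) _ _ (fun i j hij c => by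
      rw [hk c1.out i j hij c, hr, hs, ← hk c2.out i j hij c, hb] :
      ∀ i j : Fin n, i ≠ j → ∀ c : F,
        (MulAut.conj (s c1.out) * ((if b c1.out = true then 1 else β⁻¹) * c1.out)) (x i j c) =
        (MulAut.conj (s c2.out) * ((if b c1.out = true then 1 else β⁻¹) * c2.out)) (x i j c))
    rw [← QuotientGroup.out_eq' c1, ← QuotientGroup.out_eq' c2, QuotientGroup.eq]
    set γ : MulAut (PS n F) := if b c1.out = true then 1 else β⁻¹
    refine ⟨(γ * c1.out)⁻¹ ((s c2.out)⁻¹ * s c1.out), ?_⟩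
    rw [conj_aut, map_mul, map_inv, inv_inv]
    have e' : γ * c2.out = (MulAut.conj (s c2.out))⁻¹ * (MulAut.conj (s c1.out) * (γ * c1.out)) := by
      rw [e, inv_mul_cancel_left]
    calc (γ * c1.out)⁻¹ * ((MulAut.conj (s c2.out))⁻¹ * MulAut.conj (s c1.out)) * (γ * c1.out)
        = (γ * c1.out)⁻¹ * (γ * c2.out) := by rw [e']; group
      _ = c1.out⁻¹ * c2.out := by group
  have h1 := Nat.card_le_card_of_injective f hf
  rw [Nat.card_prod, Nat.card_prod, Nat.card_eq_fintype_card (α := Bool), Fintype.card_bool,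
    Nat.card_eq_fintype_card (α := R), Fintype.card_coe] at h1
  exact le_trans h1 (Nat.mul_le_mul_left 2 (Nat.mul_le_mul hR1 hgal))

end PLN.S92
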