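import Pool.Agent.PLN.Dich
import Pool.Agent.PLN.Rep
import Pool.Agent.PLN.Form
import Pool.Agent.PLN.Gen
import Pool.Agent.PLN.Diag
import Pool.Agent.PLN.Gal
import Pool.Agent.PLN.OutS92

/-!
# PLN/Out (STUB): the outer automorphism group
-/

set_option autoImplicit false

namespace PLN

open Matrix

universe u

/-- PROOF. Map a coset of the inner automorphisms to `(Pres or not, r, σ)`: choose a representative `α`; if `Pres α`: `rep_good`, `good_form`, `diag_adjust` give an element of the coset
with `x i j c ↦ x i j (ν i / ν j * σ c)`, determined by `(r, σ)` (`gen`); if not, `Swap` (`dich`): use `β⁻¹ * α` for a fixed `β` with `Swap β` (`swap_mul`; the inner automorphisms are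
normal). -/
theorem out_index {n : ℕ} (hn : 3 ≤ n) (F : Type u) [Field F] [Finite F] :
    (MulAut.conj : PS n F →* MulAut (PS n F)).range.index ≤
      2 * (n * Nat.log 2 (Nat.card F)) := S92.out_index hn F

end PLN
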