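import Pool.Agent.PLN.Defs

/-!
# PLN/PermS34: transitivity on flags (helper34)
-/

set_option autoImplicit false

namespace PLN.S34

open Matrix

universe u

variable {n : ℕ} {F : Type u} [Field F]

theorem exists_dual {v v' : Fin n → F} (hv : v ≠ 0) (hv' : v' ≠ 0) :
    ∃ ψ : Fin n → F, ψ ⬝ᵥ v = 1 ∧ ψ ⬝ᵥ v' ≠ 0 := by
  classical
  have key : ∀ {z : Fin n → F}, z ≠ 0 → ∃ ψ : Fin n → F, ψ ⬝ᵥ z ≠ 0 := by
    intro z hz
    obtain ⟨i, hi⟩ := Function.ne_iff.1 hz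
    exact ⟨Pi.single i 1, by simpa using hi⟩
  have h2 : ∃ ψ : Fin n → F, ψ ⬝ᵥ v ≠ 0 ∧ ψ ⬝ᵥ v' ≠ 0 := by
    obtain ⟨p, hp⟩ := key hv
    obtain ⟨q, hq⟩ := key hv'
    by_cases h1 : p ⬝ᵥ v' = 0
    · by_cases h3 : q ⬝ᵥ v = 0
      · refine ⟨p + q, ?_, ?_⟩
        · rw [add_dotProduct, h3, add_zero]; exact hp
        · rw [add_dotProduct, h1, zero_add]; exact hq
      · exact ⟨q, h3, hq⟩
    · exact ⟨p, hp, h1⟩
  obtain ⟨ψ, h3, h4⟩ := h2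
  refine ⟨(ψ ⬝ᵥ v)⁻¹ • ψ, ?_, ?_⟩
  · rw [smul_dotProduct, smul_eq_mul, inv_mul_cancel₀ h3]
  · rw [smul_dotProduct, smul_eq_mul]
    exact mul_ne_zero (inv_ne_zero h3) h4

theorem det_one_add (a b : Fin n → F) : (1 + vecMulVec a b).det = 1 + b ⬝ᵥ a := by
  rw [vecMulVec_eq Unit, det_one_add_replicateCol_mul_replicateRow]

theorem mulVec_one_add (a b z : Fin n → F) : (1 + vecMulVec a b) *ᵥ z = z + (b ⬝ᵥ z) • a := by
  rw [add_mulVec, one_mulVec, vecMulVec_mulVec]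
  simp

theorem vecMul_one_add (a b z : Fin n → F) : z ᵥ* (1 + vecMulVec a b) = z + (z ⬝ᵥ a) • b := by
  rw [vecMul_add, vecMul_one, vecMul_vecMulVec]

/-- `SL (n, F)` is transitive on flags. -/
theorem flag_trans {v φ v' φ' : Fin n → F} (h : Flag v φ) (h' : Flag v' φ') :
    ∃ g : GS n F, ∃ a b : F, a ≠ 0 ∧ b ≠ 0 ∧ g.1 *ᵥ v = a • v' ∧ φ ᵥ* (g⁻¹).1 = b • φ' := by
  classical
  obtain ⟨hv, hφ, h0⟩ := h
  obtain ⟨hv', hφ', h0'⟩ := h'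
  obtain ⟨ψ, hψ1, hψ2⟩ := exists_dual hv hv'
  set d1 : F := ψ ⬝ᵥ v' with hd1
  set φ1 : Fin n → F := φ - ((φ ⬝ᵥ v') / d1) • ψ with hφ1
  set G1 : Matrix (Fin n) (Fin n) F := 1 + vecMulVec (v' - v) ψ with hG1
  have e1 : G1.det = d1 := by
    rw [hG1, det_one_add, dotProduct_sub, hψ1]; ring
  have e2 : G1 *ᵥ v = v' := by
    rw [hG1, mulVec_one_add, hψ1]; simp
  have e3 : φ1 ᵥ* G1 = φ := by
    have h3 : φ1 ⬝ᵥ (v' - v) = (φ ⬝ᵥ v') / d1 := by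
      rw [hφ1, sub_dotProduct, smul_dotProduct, dotProduct_sub, dotProduct_sub, h0, hψ1, ← hd1,
        smul_eq_mul]
      field_simp
      ring
    rw [hG1, vecMul_one_add, h3, hφ1]
    simp
  have e4 : φ1 ⬝ᵥ v' = 0 := by
    rw [hφ1, sub_dotProduct, smul_dotProduct, ← hd1, smul_eq_mul]
    field_simp
    ring
  have hφ1' : φ1 ≠ 0 := by
    intro hz
    rw [hz, zero_vecMul] at e3
    exact hφ e3.symm
  obtain ⟨w, hw1, hw2⟩ := exists_dual hφ' hφ1'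
  rw [dotProduct_comm] at hw1 hw2
  set d2 : F := φ1 ⬝ᵥ w with hd2
  set G2 : Matrix (Fin n) (Fin n) F := 1 + vecMulVec w (φ1 - φ') with hG2
  have f1 : G2.det = d2 := by
    rw [hG2, det_one_add, sub_dotProduct, hw1]; ring
  have f2 : G2 *ᵥ v' = v' := by
    rw [hG2, mulVec_one_add, sub_dotProduct, e4, h0']; simp
  have f3 : φ' ᵥ* G2 = φ1 := by
    rw [hG2, vecMul_one_add, hw1]; simp
  obtain ⟨θ, hθ1, -⟩ := exists_dual hv' hv'
  set c : F := (d1 * d2)⁻¹ with hc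
  have hc0 : c ≠ 0 := inv_ne_zero (mul_ne_zero hψ2 hw2)
  set T : Matrix (Fin n) (Fin n) F := 1 + vecMulVec ((c - 1) • v') θ with hT
  have g1 : T.det = c := by
    rw [hT, det_one_add, dotProduct_smul, hθ1, smul_eq_mul]; ring
  have g2 : T *ᵥ v' = c • v' := by
    rw [hT, mulVec_one_add, hθ1, one_smul, sub_smul, one_smul]; abel
  have g3 : φ' ᵥ* T = φ' := by
    rw [hT, vecMul_one_add, dotProduct_smul, h0']; simp
  have hdet : (T * (G2 * G1)).det = 1 := by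
    rw [det_mul, det_mul, g1, f1, e1, hc]
    field_simp
  refine ⟨⟨T * (G2 * G1), hdet⟩, c, 1, hc0, one_ne_zero, ?_, ?_⟩
  · show (T * (G2 * G1)) *ᵥ v = c • v'
    rw [← mulVec_mulVec, ← mulVec_mulVec, e2, f2, g2]
  · set g : GS n F := ⟨T * (G2 * G1), hdet⟩ with hg
    have h5 : φ' ᵥ* g.1 = φ := by
      show φ' ᵥ* (T * (G2 * G1)) = φ
      rw [← vecMul_vecMul, ← vecMul_vecMul, g3, f3, e3]
    have h6 : g.1 * (g⁻¹).1 = 1 := congrArg Subtype.val (mul_inv_cancel g)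
    rw [← h5, vecMul_vecMul, h6, vecMul_one, one_smul]

end PLN.S34
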