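import Pool.Agent.PLN.Defs

/-!
# PLN/PermS64: automorphisms permute the transvection groups
-/

set_option autoImplicit false

namespace PLN.S64

open Matrix PLN

universe u

variable {n : ℕ} {F : Type u} [Field F]

theorem perm_of (hn : 3 ≤ n) (α : MulAut (PS n F)) {v φ : Fin n → F} (h : Flag v φ)
    (flag_trans : ∀ {v φ v' φ' : Fin n → F} (_ : Flag v φ) (_ : Flag v' φ'),
      ∃ g : GS n F, ∃ a b : F, a ≠ 0 ∧ b ≠ 0 ∧ g.1 *ᵥ v = a • v' ∧ φ ᵥ* (g⁻¹).1 = b • φ')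
    (t_smul : ∀ (c : F) {v φ : Fin n → F} (_ : φ ⬝ᵥ v = 0), t (c • v) φ = t v (c • φ))
    (t_conj : ∀ (g : GS n F) {v φ : Fin n → F} (_ : φ ⬝ᵥ v = 0),
      (QuotientGroup.mk g : PS n F) * t v φ * (QuotientGroup.mk g)⁻¹ =
        t (g.1 *ᵥ v) (φ ᵥ* (g⁻¹).1))
    (syl_center : ∃ s : PS n F, ∀ c : F, ∃ d : F,
      s * α (x ⟨0, by omega⟩ ⟨n - 1, by omega⟩ c) * s⁻¹ = x ⟨0, by omega⟩ ⟨n - 1, by omega⟩ d) :
    ∃ w ψ : Fin n → F, Flag w ψ ∧ Img α v φ w ψ := by
  classical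
  obtain ⟨s, hs⟩ := syl_center
  set i0 : Fin n := ⟨0, by omega⟩ with hi0
  set i1 : Fin n := ⟨n - 1, by omega⟩ with hi1
  have hne : i1 ≠ i0 := by
    intro hc
    have := congrArg Fin.val hc
    simp only [hi0, hi1] at this
    omega
  set e0 : Fin n → F := Pi.single i0 1 with he0
  set e1 : Fin n → F := Pi.single i1 1 with he1
  have h01 : e1 ⬝ᵥ e0 = 0 := by
    rw [he1, single_dotProduct, he0, Pi.single_eq_of_ne hne, mul_zero]
  have hF : Flag e0 e1 := by
    refine ⟨?_, ?_, h01⟩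
    · intro hc
      have := congrFun hc i0
      rw [he0, Pi.single_eq_same] at this
      exact one_ne_zero this
    · intro hc
      have := congrFun hc i1
      rw [he1, Pi.single_eq_same] at this
      exact one_ne_zero this
  obtain ⟨g, a, b, ha, hb, hgv, hgφ⟩ := flag_trans h hF
  obtain ⟨k, hk⟩ := QuotientGroup.mk_surjective (s * α (QuotientGroup.mk g : PS n F))
  refine ⟨(k⁻¹).1 *ᵥ e0, e1 ᵥ* k.1, ?_, ?_⟩
  · have hk1 : k.1 * (k⁻¹).1 = 1 := by
      have := congrArg Subtype.val (mul_inv_cancel k)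
      exact this
    have hk2 : (k⁻¹).1 * k.1 = 1 := by
      have := congrArg Subtype.val (inv_mul_cancel k)
      exact this
    refine ⟨?_, ?_, ?_⟩
    · intro hc
      apply hF.1
      have : k.1 *ᵥ ((k⁻¹).1 *ᵥ e0) = 0 := by rw [hc, mulVec_zero]
      rwa [mulVec_mulVec, hk1, one_mulVec] at this
    · intro hc
      apply hF.2.1
      have : (e1 ᵥ* k.1) ᵥ* (k⁻¹).1 = 0 := by rw [hc, zero_vecMul]
      rwa [vecMul_vecMul, hk1, vecMul_one] at this
    · rw [← dotProduct_mulVec, mulVec_mulVec, hk1, one_mulVec]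
      exact h01
  · intro c
    obtain ⟨d, hd⟩ := hs (c * a * b)
    refine ⟨d, ?_⟩
    have h1 : φ ⬝ᵥ (c • v) = 0 := by rw [dotProduct_smul, h.2.2, smul_zero]
    have h2 := t_conj g h1
    have h3 : t (g.1 *ᵥ (c • v)) (φ ᵥ* (g⁻¹).1) = x i0 i1 (c * a * b) := by
      have h4 : e1 ⬝ᵥ (c • a • e0) = 0 := by
        rw [dotProduct_smul, dotProduct_smul, h01, smul_zero, smul_zero]
      rw [mulVec_smul, hgv, hgφ, ← t_smul b h4]
      show _ = t ((c * a * b) • e0) e1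
      congr 1
      rw [smul_smul, smul_smul]
      congr 1
      ring
    rw [h3] at h2
    have h5 : t (c • v) φ = (QuotientGroup.mk g : PS n F)⁻¹ * x i0 i1 (c * a * b) *
        QuotientGroup.mk g := by
      rw [← h2]
      group
    have h6 : α (x i0 i1 (c * a * b)) = s⁻¹ * x i0 i1 d * s := by
      rw [← hd]
      group
    have h7 : e1 ⬝ᵥ (d • e0) = 0 := by rw [dotProduct_smul, h01, smul_zero]
    have h8 := t_conj k⁻¹ h7
    rw [inv_inv, mulVec_smul] at h8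
    rw [h5, map_mul, map_mul, map_inv, h6]
    have h9 : (QuotientGroup.mk k⁻¹ : PS n F) = (s * α (QuotientGroup.mk g : PS n F))⁻¹ := by
      rw [← hk]
      rfl
    rw [h9] at h8
    show _ = t (d • ((k⁻¹).1 *ᵥ e0)) (e1 ᵥ* k.1)
    rw [← h8]
    show _ = _ * x i0 i1 d * _
    group

end PLN.S64
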