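import Pool.Agent.PLN.Syl
import Pool.Agent.PLN.PermS64
import Pool.Agent.PLN.PermS34

/-!
# PLN/Perm (STUB): automorphisms permute the transvection groups
-/

set_option autoImplicit false

namespace PLN

open Matrix

universe u

variable {n : ℕ} {F : Type u} [Field F]

/-- `SL (n, F)` is transitive on flags. PROOF. Extend `v` to a basis of the kernel of `φ` and of the space; scale for determinant 1 (`n ≥ 3`). -/
theorem flag_trans (hn : 3 ≤ n) {v φ v' φ' : Fin n → F} (h : Flag v φ) (h' : Flag v' φ') :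
    ∃ g : GS n F, ∃ a b : F, a ≠ 0 ∧ b ≠ 0 ∧ g.1 *ᵥ v = a • v' ∧ φ ᵥ* (g⁻¹).1 = b • φ' :=
  S34.flag_trans h h'

/-- PROOF. `flag_trans` to `(e_0, e_(n-1))`, `syl_center`, `t_conj`. -/
theorem perm [Finite F] (hn : 3 ≤ n) (α : MulAut (PS n F)) {v φ : Fin n → F} (h : Flag v φ) :
    ∃ w ψ : Fin n → F, Flag w ψ ∧ Img α v φ w ψ :=
  S64.perm_of hn α h (fun h h' => flag_trans hn h h') (fun c _ _ h => t_smul c h)
    (fun g _ _ h => t_conj g h) (syl_center hn α)

end PLN
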