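import Pool.Agent.PLN.Defs

/-!
# PLN/SylS64: the centre of a Sylow subgroup
-/

set_option autoImplicit false

namespace PLN.S64

open Matrix PLN

universe u

theorem syl_center_of {n : ℕ} (hn : 3 ≤ n) {F : Type u} [Field F] [Finite F] (α : MulAut (PS n F))
    (uni_sylow : ∃ s : PS n F, ∀ g : GS n F, UT g → ∃ g' : GS n F, UT g' ∧
      s * α (QuotientGroup.mk g) * s⁻¹ = QuotientGroup.mk g')
    (uni_center : ∀ (g : GS n F), UT g →
      (∀ g' : GS n F, UT g' → (QuotientGroup.mk g : PS n F) * QuotientGroup.mk g' =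
        QuotientGroup.mk g' * QuotientGroup.mk g) →
      ∃ c : F, (QuotientGroup.mk g : PS n F) = x ⟨0, by omega⟩ ⟨n - 1, by omega⟩ c)
    (center_uni : ∀ (c : F),
      ∃ g : GS n F, UT g ∧ (QuotientGroup.mk g : PS n F) = x ⟨0, by omega⟩ ⟨n - 1, by omega⟩ c ∧
        ∀ g' : GS n F, UT g' → (QuotientGroup.mk g : PS n F) * QuotientGroup.mk g' =
          QuotientGroup.mk g' * QuotientGroup.mk g) :
    ∃ s : PS n F, ∀ c : F, ∃ d : F,
      s * α (x ⟨0, by omega⟩ ⟨n - 1, by omega⟩ c) * s⁻¹ = x ⟨0, by omega⟩ ⟨n - 1, by omega⟩ d := by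
  classical
  obtain ⟨s, hs⟩ := uni_sylow
  refine ⟨s, fun c => ?_⟩
  obtain ⟨g, hg, hgx, hgc⟩ := center_uni c
  obtain ⟨g₁, hg₁, hsg⟩ := hs g hg
  rw [← hgx, hsg]
  apply uni_center g₁ hg₁
  let θ : PS n F → PS n F := fun y => s * α y * s⁻¹
  have hθm : ∀ y z, θ (y * z) = θ y * θ z := by
    intro y z
    show s * α (y * z) * s⁻¹ = s * α y * s⁻¹ * (s * α z * s⁻¹)
    rw [map_mul]
    group
  have hθi : Function.Injective θ := by
    intro y z h
    have h1 : s * α y * s⁻¹ = s * α z * s⁻¹ := h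
    exact α.injective (mul_left_cancel (mul_right_cancel h1))
  let U : Set (PS n F) := {y | ∃ g : GS n F, UT g ∧ y = QuotientGroup.mk g}
  have hmaps : ∀ y ∈ U, θ y ∈ U := by
    rintro _ ⟨k, hk, rfl⟩
    obtain ⟨k', hk', h⟩ := hs k hk
    exact ⟨k', hk', h⟩
  haveI : Finite (GS n F) := Subtype.finite
  haveI : Finite (PS n F) := Quotient.finite _
  have hsurj : Function.Surjective (fun y : U => (⟨θ y.1, hmaps y.1 y.2⟩ : U)) := by
    apply Finite.injective_iff_surjective.mp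
    intro y z h
    exact Subtype.ext (hθi (congrArg Subtype.val h))
  intro g' hg'
  obtain ⟨⟨y, k, hk, hy⟩, hyθ⟩ := hsurj ⟨QuotientGroup.mk g', g', hg', rfl⟩
  have h1 : θ y = QuotientGroup.mk g' := congrArg Subtype.val hyθ
  have h2 : θ (QuotientGroup.mk g) = QuotientGroup.mk g₁ := hsg
  rw [← h1, ← h2, ← hθm, ← hθm, hy, hgc k hk]

end PLN.S64
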