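import Pool.Agent.PLN.Defs
import Pool.Agent.PLN.CenS58
import Pool.Agent.PLN.ClsS13

/-!
# PLN/SylZS97: the centre of the unitriangular group (helper97)
-/

set_option autoImplicit false

namespace PLN.S97

open Matrix PLN

universe u

variable {n : ℕ} {F : Type u} [Field F]

theorem x_eq {i j : Fin n} (hij : i ≠ j) (c : F) :
    ∃ A : GS n F, A.1 = 1 + Matrix.single i j c ∧ x i j c = QuotientGroup.mk A := by
  have h0 : (Pi.single j 1 : Fin n → F) ⬝ᵥ (c • Pi.single i 1) = 0 := by
    rw [dotProduct_smul, single_dotProduct, one_mul, Pi.single_eq_of_ne (Ne.symm hij), smul_zero]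
  refine ⟨tM (c • Pi.single i 1) (Pi.single j 1), ?_, rfl⟩
  unfold tM
  rw [dif_pos h0]
  show 1 + vecMulVec (c • Pi.single i 1) (Pi.single j 1) = 1 + Matrix.single i j c
  congr 1
  ext a b
  rw [vecMulVec_apply, Pi.smul_apply, smul_eq_mul]
  rcases eq_or_ne a i with ha | ha
  · rcases eq_or_ne b j with hb | hb
    · rw [ha, hb, Pi.single_eq_same, Pi.single_eq_same, Matrix.single_apply_same]
      ring
    · rw [Pi.single_eq_of_ne hb, mul_zero, Matrix.single_apply_of_col_ne _ _ (Ne.symm hb)]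
  · rw [Pi.single_eq_of_ne ha, mul_zero, zero_mul, Matrix.single_apply_of_row_ne (Ne.symm ha)]

theorem UT_single {i j : Fin n} (hij : i < j) {A : GS n F} {c : F}
    (hA : A.1 = 1 + Matrix.single i j c) : UT A := by
  refine ⟨fun k => ?_, fun k l hlk => ?_⟩
  · rw [hA, Matrix.add_apply, Matrix.one_apply_eq]
    have : Matrix.single i j c k k = 0 := by
      rcases eq_or_ne k i with h | h
      · rw [h, Matrix.single_apply_of_col_ne _ _ (Ne.symm hij.ne)]
      · rw [Matrix.single_apply_of_row_ne (Ne.symm h)]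
    rw [this, add_zero]
  · rw [hA, Matrix.add_apply, Matrix.one_apply_ne (Ne.symm hlk.ne)]
    have : Matrix.single i j c k l = 0 := by
      rcases eq_or_ne k i with h | h
      · rw [h, Matrix.single_apply_of_col_ne]
        intro h2
        rw [h, ← h2] at hlk
        exact absurd hij (not_lt.2 hlk.le)
      · rw [Matrix.single_apply_of_row_ne (Ne.symm h)]
    rw [this, add_zero]

theorem UT_mul_diag {A B : GS n F} (hA : UT A) (hB : UT B) (i : Fin n) : (A.1 * B.1) i i = 1 := by
  rw [Matrix.mul_apply, Finset.sum_eq_single i]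
  · rw [hA.1, hB.1, one_mul]
  · intro k _ hk
    rcases lt_or_gt_of_ne hk with h | h
    · rw [hA.2 i k h, zero_mul]
    · rw [hB.2 k i h, mul_zero]
  · intro h
    exact absurd (Finset.mem_univ i) h

theorem comm_of_mk (hn : 0 < n) {A B : GS n F} (hA : UT A) (hB : UT B)
    (h : (QuotientGroup.mk A : PS n F) * QuotientGroup.mk B =
      QuotientGroup.mk B * QuotientGroup.mk A) : A.1 * B.1 = B.1 * A.1 := by
  have h1 : (QuotientGroup.mk (A * B) : PS n F) = QuotientGroup.mk (B * A) := h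
  obtain ⟨r, _, hr⟩ := PLN.S13.mk_eq h1
  have hr' : B.1 * A.1 = r • (A.1 * B.1) := hr
  have h2 := congrFun (congrFun hr' ⟨0, hn⟩) ⟨0, hn⟩
  rw [UT_mul_diag hB hA, Matrix.smul_apply, UT_mul_diag hA hB, smul_eq_mul, mul_one] at h2
  rw [hr', ← h2, one_smul]

theorem uni_center (hn : 2 ≤ n) (g : GS n F) (hg : UT g)
    (h : ∀ g' : GS n F, UT g' → (QuotientGroup.mk g : PS n F) * QuotientGroup.mk g' =
      QuotientGroup.mk g' * QuotientGroup.mk g) :
    ∃ c : F, (QuotientGroup.mk g : PS n F) = x ⟨0, by omega⟩ ⟨n - 1, by omega⟩ c := by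
  have hne : (⟨0, by omega⟩ : Fin n) ≠ ⟨n - 1, by omega⟩ := by
    intro h
    have := congrArg Fin.val h
    simp at this
    omega
  have hcomm : ∀ i j : Fin n, i < j → g.1 * Matrix.single i j 1 = Matrix.single i j 1 * g.1 := by
    intro i j hij
    obtain ⟨A, hA, _⟩ := x_eq (F := F) hij.ne 1
    have h1 := comm_of_mk (by omega) hg (UT_single hij hA) (h A (UT_single hij hA))
    rw [hA, mul_add, add_mul, mul_one, one_mul] at h1
    exact add_left_cancel h1
  obtain ⟨_, h2⟩ := PLN.S58.mat_center g.1 hcomm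
  refine ⟨g.1 ⟨0, by omega⟩ ⟨n - 1, by omega⟩, ?_⟩
  obtain ⟨A, hA, hx⟩ := x_eq hne (g.1 ⟨0, by omega⟩ ⟨n - 1, by omega⟩)
  rw [hx]
  congr 1
  apply Subtype.ext
  show g.1 = A.1
  rw [hA]
  ext k l
  rw [Matrix.add_apply]
  rcases eq_or_ne k l with hkl | hkl
  · rw [hkl, hg.1, Matrix.one_apply_eq]
    have : Matrix.single (⟨0, by omega⟩ : Fin n) ⟨n - 1, by omega⟩
        (g.1 ⟨0, by omega⟩ ⟨n - 1, by omega⟩) l l = 0 := by
      rcases eq_or_ne l ⟨0, by omega⟩ with h3 | h3
      · rw [h3, Matrix.single_apply_of_col_ne _ _ (Ne.symm hne)]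
      · rw [Matrix.single_apply_of_row_ne (Ne.symm h3)]
    rw [this, add_zero]
  · rw [Matrix.one_apply_ne hkl, zero_add]
    by_cases hz : g.1 k l = 0
    · by_cases hk : k = ⟨0, by omega⟩ ∧ l = ⟨n - 1, by omega⟩
      · rw [← hk.1, ← hk.2, hz, Matrix.single_apply_same]
      · rw [hz]
        rw [not_and_or] at hk
        rcases hk with hk | hk
        · rw [Matrix.single_apply_of_row_ne (Ne.symm hk)]
        · rw [Matrix.single_apply_of_col_ne _ _ (Ne.symm hk)]
    · obtain ⟨hk, hl⟩ := h2 k l hkl hz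
      have hk0 : k = ⟨0, by omega⟩ := le_antisymm (hk _) (Fin.mk_le_of_le_val (Nat.zero_le _))
      have hl0 : l = ⟨n - 1, by omega⟩ := by
        apply le_antisymm _ (hl _)
        rw [Fin.le_def]
        have := l.2
        show l.1 ≤ n - 1
        omega
      rw [hk0, hl0, Matrix.single_apply_same]

theorem center_uni (hn : 2 ≤ n) (c : F) :
    ∃ g : GS n F, UT g ∧ (QuotientGroup.mk g : PS n F) = x ⟨0, by omega⟩ ⟨n - 1, by omega⟩ c ∧
      ∀ g' : GS n F, UT g' → (QuotientGroup.mk g : PS n F) * QuotientGroup.mk g' =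
        QuotientGroup.mk g' * QuotientGroup.mk g := by
  have hlt : (⟨0, by omega⟩ : Fin n) < ⟨n - 1, by omega⟩ := by
    rw [Fin.lt_def]
    show 0 < n - 1
    omega
  obtain ⟨A, hA, hx⟩ := x_eq hlt.ne c
  refine ⟨A, UT_single hlt hA, hx.symm, fun g' hg' => ?_⟩
  have h1 : A * g' = g' * A := by
    apply Subtype.ext
    show A.1 * g'.1 = g'.1 * A.1
    rw [hA, mul_add, add_mul, mul_one, one_mul]
    congr 1
    ext k l
    rcases eq_or_ne k ⟨0, by omega⟩ with hk | hk
    · rw [hk, Matrix.single_mul_apply_same]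
      rcases eq_or_ne l ⟨n - 1, by omega⟩ with hl | hl
      · rw [hl, Matrix.mul_single_apply_same, hg'.1, hg'.1, mul_one, one_mul]
      · rw [Matrix.mul_single_apply_of_ne (hbj := hl), hg'.2, mul_zero]
        rw [Fin.lt_def]
        have h2 := l.2
        have h3 : l.1 ≠ n - 1 := fun h => hl (Fin.ext h)
        show l.1 < n - 1
        omega
    · rw [Matrix.single_mul_apply_of_ne (h := hk)]
      rcases eq_or_ne l ⟨n - 1, by omega⟩ with hl | hl
      · rw [hl, Matrix.mul_single_apply_same, hg'.2, zero_mul]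
        rw [Fin.lt_def]
        have h3 : k.1 ≠ 0 := fun h => hk (Fin.ext h)
        show 0 < k.1
        omega
      · rw [Matrix.mul_single_apply_of_ne (hbj := hl)]
  rw [← QuotientGroup.mk_mul, h1, QuotientGroup.mk_mul]

end PLN.S97
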