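import Pool.Agent.PLN.Tr
import Pool.Agent.PLN.SylZS97

/-!
# PLN/SylZ (STUB): the centre of the unitriangular group
-/

set_option autoImplicit false

namespace PLN

open Matrix

universe u

/-- PROOF. `g g' = z g' g` with a scalar `z`; the diagonal gives `z = 1`; commuting with all `1 + E i j`, `i < j`, gives `g = 1 + c E 0 (n-1)`. -/
theorem uni_center {n : ℕ} (hn : 2 ≤ n) {F : Type u} [Field F] (g : GS n F) (hg : UT g)
    (h : ∀ g' : GS n F, UT g' → (QuotientGroup.mk g : PS n F) * QuotientGroup.mk g' =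
      QuotientGroup.mk g' * QuotientGroup.mk g) :
    ∃ c : F, (QuotientGroup.mk g : PS n F) = x ⟨0, by omega⟩ ⟨n - 1, by omega⟩ c :=
  S97.uni_center hn g hg h

/-- the elements `x 0 (n-1) c` are unitriangular and central -/
theorem center_uni {n : ℕ} (hn : 2 ≤ n) {F : Type u} [Field F] (c : F) :
    ∃ g : GS n F, UT g ∧ (QuotientGroup.mk g : PS n F) = x ⟨0, by omega⟩ ⟨n - 1, by omega⟩ c ∧
      ∀ g' : GS n F, UT g' → (QuotientGroup.mk g : PS n F) * QuotientGroup.mk g' =
        QuotientGroup.mk g' * QuotientGroup.mk g :=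
  S97.center_uni hn c

end PLN
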