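import Pool.Agent.PLN.SylU
import Pool.Agent.PLN.SylZ
import Pool.Agent.PLN.SylS64

/-!
# PLN/Syl (STUB): the centre of a Sylow subgroup
-/

set_option autoImplicit false

namespace PLN

open Matrix

universe u

/-- PROOF. `s` from `uni_sylow`; `s * α (mk g) * s⁻¹` (`g` from `center_uni`) commutes with `s * α (mk g') * s⁻¹`, `g'` unitriangular, and these are the images of all unitriangular
matrices (finite, injective); `uni_center`. -/
theorem syl_center {n : ℕ} (hn : 3 ≤ n) {F : Type u} [Field F] [Finite F] (α : MulAut (PS n F)) :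
    ∃ s : PS n F, ∀ c : F, ∃ d : F,
      s * α (x ⟨0, by omega⟩ ⟨n - 1, by omega⟩ c) * s⁻¹ = x ⟨0, by omega⟩ ⟨n - 1, by omega⟩ d :=
  S64.syl_center_of hn α (uni_sylow (by omega) α) (fun g hg h => uni_center (by omega) g hg h)
    (fun c => center_uni (by omega) c)

end PLN
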