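import Pool.Agent.PLN.SylUS12

/-!
# PLN/SylU: a Sylow subgroup
-/

set_option autoImplicit false

namespace PLN

open Matrix

universe u

/-- PROOF. The unitriangular matrices form a Sylow `p`-subgroup of `SL (n, F)`: order `q ^ (n (n - 1) / 2)`, the `p`-part of `|SL (n, F)| = |GL (n, F)| / (q - 1)`
(`Matrix.card_GL_field`); its image in `PS n F` is a Sylow subgroup (the centre has order prime to `p`, or: image of a Sylow subgroup); Sylow subgroups are conjugate. -/
theorem uni_sylow {n : ℕ} (hn : 2 ≤ n) {F : Type u} [Field F] [Finite F] (α : MulAut (PS n F)) :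
    ∃ s : PS n F, ∀ g : GS n F, UT g → ∃ g' : GS n F, UT g' ∧
      s * α (QuotientGroup.mk g) * s⁻¹ = QuotientGroup.mk g' :=
  S12.uni_sylow hn α

end PLN
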