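import Mathlib

/-!
# A `p`-subgroup of `SL (n, F)` or `PSL (n, F)` is conjugate to a group of unitriangular matrices
-/

set_option autoImplicit false

namespace PLN.S12

open Matrix Module

universe u v

/-- A `p`-group that acts linearly on a vector space over a finite field of characteristic `p` is
unitriangular in some basis. -/
theorem flag {F : Type u} [Field F] [Finite F] {p : ℕ} [hp : Fact p.Prime] (hpF : p ∣ Nat.card F)
    {P : Type v} [Group P] [Finite P] (hP : IsPGroup p P) :
    ∀ (n : ℕ) (V : Type u) [AddCommGroup V] [Module F V] [FiniteDimensional F V]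
      (ρ : P →* Module.End F V), finrank F V = n →
      ∃ b : Basis (Fin n) F V, ∀ x i, ρ x (b i) - b i ∈ Submodule.span F (b '' {j | i < j}) := by
  intro n
  induction n with
  | zero =>
    intro V _ _ _ ρ hn
    exact ⟨finBasisOfFinrankEq F V hn, fun x i => i.elim0⟩
  | succ n ih =>
    intro V _ _ _ ρ hn
    have hmul : ∀ (x y : P) (w : V), ρ (x * y) w = ρ x (ρ y w) := by
      intro x y w
      rw [map_mul]
      rfl
    have hone : ∀ w : V, ρ 1 w = w := by
      intro w
      rw [map_one]
      rfl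
    letI : MulAction P (Dual F V) :=
      { smul := fun x φ => φ.comp (ρ x⁻¹)
        one_smul := by
          intro φ
          ext w
          show φ (ρ 1⁻¹ w) = φ w
          rw [inv_one, hone]
        mul_smul := by
          intro x y φ
          ext w
          show φ (ρ (x * y)⁻¹ w) = φ (ρ y⁻¹ (ρ x⁻¹ w))
          rw [_root_.mul_inv_rev, hmul] }
    have hsm : ∀ (x : P) (φ : Dual F V) (w : V), (x • φ) w = φ (ρ x⁻¹ w) := fun _ _ _ => rfl
    have hfin : Finite (Dual F V) := Module.finite_of_finite F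
    have hcard : p ∣ Nat.card (Dual F V) := by
      have h1 : Nat.card (Dual F V) = Nat.card F ^ finrank F (Dual F V) :=
        Module.natCard_eq_pow_finrank
      rw [h1, Subspace.dual_finrank_eq, hn]
      exact Dvd.dvd.pow hpF (Nat.succ_ne_zero n)
    have h0 : (0 : Dual F V) ∈ MulAction.fixedPoints P (Dual F V) := by
      intro x
      ext w
      rw [hsm]
      rfl
    obtain ⟨φ, hφ, hφ0⟩ :=
      hP.exists_fixed_point_of_prime_dvd_card_of_fixed_point (Dual F V) hcard h0
    have hφρ : ∀ (x : P) (w : V), φ (ρ x w) = φ w := by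
      intro x w
      have := congrArg (fun ψ : Dual F V => ψ w) (hφ x⁻¹)
      simp only [hsm, inv_inv] at this
      exact this
    set W := LinearMap.ker φ with hW
    have hWn : finrank F W = n := by
      have h1 := Module.Dual.finrank_ker_add_one_of_ne_zero (f := φ) (fun h => hφ0 h.symm)
      rw [hn] at h1
      exact Nat.succ_injective h1
    have hmem : ∀ (x : P), ∀ w ∈ W, ρ x w ∈ W := by
      intro x w hw
      rw [hW, LinearMap.mem_ker] at hw ⊢
      rw [hφρ, hw]
    let ρ' : P →* Module.End F W :=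
      { toFun := fun x => (ρ x).restrict (hmem x)
        map_one' := by
          ext w
          show ρ 1 (w : V) = w
          exact hone _
        map_mul' := by
          intro x y
          ext w
          show ρ (x * y) (w : V) = ρ x (ρ y (w : V))
          exact hmul _ _ _ }
    have hρ' : ∀ (x : P) (w : W), ((ρ' x w : W) : V) = ρ x (w : V) := fun _ _ => rfl
    obtain ⟨b', hb'⟩ := ih W ρ' hWn
    obtain ⟨y, hy⟩ : ∃ y, φ y ≠ 0 := by
      by_contra hcon
      push Not at hcon
      exact hφ0 (by ext w; rw [hcon w]; rfl)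
    have hli : ∀ (c : F), ∀ x ∈ W, c • y + x = 0 → c = 0 := by
      intro c x hx hc
      have := congrArg φ hc
      rw [map_add, map_smul, map_zero, smul_eq_mul] at this
      rw [hW, LinearMap.mem_ker] at hx
      rw [hx, add_zero] at this
      rcases mul_eq_zero.1 this with h | h
      · exact h
      · exact absurd h hy
    have hsp : ∀ z : V, ∃ c : F, z + c • y ∈ W := by
      intro z
      refine ⟨-(φ z / φ y), ?_⟩
      rw [hW, LinearMap.mem_ker, map_add, map_smul, smul_eq_mul]
      field_simp
      ring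
    refine ⟨Basis.mkFinCons y b' hli hsp, ?_⟩
    rw [Basis.coe_mkFinCons]
    intro x i
    refine Fin.cases ?_ (fun i => ?_) i
    · rw [Fin.cons_zero]
      have h1 : ρ x y - y ∈ W := by
        rw [hW, LinearMap.mem_ker, map_sub, hφρ, sub_self]
      have h2 : (⟨ρ x y - y, h1⟩ : W) ∈ Submodule.span F (Set.range b') := by
        rw [b'.span_eq]
        exact Submodule.mem_top
      have h3 := Submodule.mem_map_of_mem (f := W.subtype) h2
      rw [Submodule.map_span, ← Set.range_comp] at h3
      refine Submodule.span_mono ?_ h3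
      rintro _ ⟨j, rfl⟩
      exact ⟨j.succ, Fin.succ_pos j, by rw [Fin.cons_succ]; rfl⟩
    · rw [Fin.cons_succ]
      have h3 := Submodule.mem_map_of_mem (f := W.subtype) (hb' x i)
      rw [Submodule.map_span] at h3
      have h4 : W.subtype (ρ' x (b' i) - b' i) =
          ρ x ((((↑) : W → V) ∘ b') i) - (((↑) : W → V) ∘ b') i := rfl
      rw [h4] at h3
      refine Submodule.span_mono ?_ h3
      rintro _ ⟨_, ⟨j, hj, rfl⟩, rfl⟩
      exact ⟨j.succ, Fin.succ_lt_succ_iff.2 hj, by rw [Fin.cons_succ]; rfl⟩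

/-- upper unitriangular matrices of determinant one -/
def IsUni {F : Type u} [Field F] {n : ℕ} (A : SpecialLinearGroup (Fin n) F) : Prop :=
  ∀ i j, j ≤ i → A i j = if i = j then 1 else 0

theorem sl_unitri {F : Type u} [Field F] [Finite F] {p : ℕ} [hp : Fact p.Prime]
    (hpF : p ∣ Nat.card F) (n : ℕ) (P : Subgroup (SpecialLinearGroup (Fin n) F))
    (hP : IsPGroup p P) :
    ∃ g : SpecialLinearGroup (Fin n) F, ∀ x ∈ P, IsUni (g * x * g⁻¹) := by
  classical
  haveI : Finite (SpecialLinearGroup (Fin n) F) :=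
    Finite.of_injective (fun A : SpecialLinearGroup (Fin n) F => (A : Matrix (Fin n) (Fin n) F))
      Subtype.coe_injective
  let ρ : P →* Module.End F (Fin n → F) :=
    { toFun := fun x => Matrix.toLin' ((x : SpecialLinearGroup (Fin n) F) : Matrix (Fin n) (Fin n) F)
      map_one' := by
        show Matrix.toLin' (1 : Matrix (Fin n) (Fin n) F) = 1
        exact Matrix.toLin'_one
      map_mul' := by
        intro x y
        show Matrix.toLin' (x.1.1 * y.1.1) = _
        exact Matrix.toLin'_mul _ _ }
  obtain ⟨b, hb⟩ := flag hpF hP n (Fin n → F) ρ (by simp)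
  rcases Nat.eq_zero_or_pos n with hn | hn
  · subst hn
    exact ⟨1, fun x _ i => i.elim0⟩
  -- the matrix of the reversed basis
  let c : Fin n → Fin n → F := fun j => b (Fin.rev j)
  let T0 : Matrix (Fin n) (Fin n) F := Matrix.of fun i j => c j i
  have hT0 : IsUnit T0.det := by
    have h1 : LinearIndependent F c := b.linearIndependent.comp _ Fin.rev_injective
    have h2 : IsUnit T0ᵀ := by
      rw [← Matrix.linearIndependent_rows_iff_isUnit]
      exact h1
    rw [← Matrix.det_transpose]
    exact (Matrix.isUnit_iff_isUnit_det _).1 h2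
  have hd0 : T0.det ≠ 0 := hT0.ne_zero
  let i0 : Fin n := ⟨0, hn⟩
  let w : Fin n → F := Function.update 1 i0 (T0.det)⁻¹
  have hw : ∀ i, w i ≠ 0 := by
    intro i
    by_cases h : i = i0
    · rw [h]
      simp only [w, Function.update_self]
      exact inv_ne_zero hd0
    · simp only [w, Function.update_of_ne h]
      exact one_ne_zero
  let T : Matrix (Fin n) (Fin n) F := T0 * Matrix.diagonal w
  have hT : T.det = 1 := by
    show (T0 * Matrix.diagonal w).det = 1
    rw [Matrix.det_mul, Matrix.det_diagonal]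
    have : ∏ i, w i = (T0.det)⁻¹ := by
      rw [Finset.prod_update_of_mem (Finset.mem_univ i0)]
      simp
    rw [this, mul_inv_cancel₀ hd0]
  let S : SpecialLinearGroup (Fin n) F := ⟨T, hT⟩
  refine ⟨S⁻¹, fun x hx i j hji => ?_⟩
  -- the inverse of `T` maps the span of the first columns to vectors with zero coordinates
  have hinv : (S⁻¹ : SpecialLinearGroup (Fin n) F).1 * T = 1 := by
    have := congrArg Subtype.val (inv_mul_cancel S)
    exact this
  have hcol : ∀ k, (S⁻¹ : SpecialLinearGroup (Fin n) F).1.mulVec (c k) = Pi.single k (w k)⁻¹ := by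
    intro k
    have h1 : T.mulVec (Pi.single k (w k)⁻¹) = c k := by
      ext l
      show ((T0 * Matrix.diagonal w).mulVec (Pi.single k (w k)⁻¹)) l = c k l
      rw [Matrix.mulVec_single]
      simp [Matrix.mul_diagonal, T0, hw k]
    rw [← h1, Matrix.mulVec_mulVec, hinv, Matrix.one_mulVec]
  have hspan : ∀ u ∈ Submodule.span F (b '' {k | Fin.rev j < k}),
      (S⁻¹ : SpecialLinearGroup (Fin n) F).1.mulVec u i = 0 := by
    intro u hu
    induction hu using Submodule.span_induction with
    | mem u hu =>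
      obtain ⟨k, hk, rfl⟩ := hu
      have h1 : b k = c (Fin.rev k) := by
        simp [c]
      rw [h1, hcol]
      have h2 : Fin.rev k < j := by
        have := Fin.rev_lt_rev.2 (show Fin.rev j < k from hk)
        rwa [Fin.rev_rev] at this
      rw [Pi.single_eq_of_ne]
      intro h
      rw [h] at hji
      exact absurd h2 (not_lt.2 hji)
    | zero => rw [Matrix.mulVec_zero]; rfl
    | add u v _ _ hu hv => rw [Matrix.mulVec_add, Pi.add_apply, hu, hv, add_zero]
    | smul a u _ hu => rw [Matrix.mulVec_smul, Pi.smul_apply, hu, smul_zero]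
  have hx' := hb ⟨x, hx⟩ (Fin.rev j)
  have h3 := hspan _ hx'
  have h4 : (ρ ⟨x, hx⟩) (b (Fin.rev j)) = x.1.mulVec (c j) := by
    show Matrix.toLin' x.1 (b (Fin.rev j)) = _
    rw [Matrix.toLin'_apply]
  rw [h4, show b (Fin.rev j) = c j from rfl, Matrix.mulVec_sub, Pi.sub_apply, hcol] at h3
  -- column `j` of the conjugate
  have h5 : (S⁻¹ * x * S⁻¹⁻¹ : SpecialLinearGroup (Fin n) F) i j =
      w j * ((S⁻¹ : SpecialLinearGroup (Fin n) F).1.mulVec (x.1.mulVec (c j))) i := by
    rw [inv_inv]
    have h6 : ((S⁻¹ * x * S : SpecialLinearGroup (Fin n) F) : Matrix (Fin n) (Fin n) F) =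
        (S⁻¹ : SpecialLinearGroup (Fin n) F).1 * x.1 * T0 * Matrix.diagonal w := by
      show (S⁻¹ : SpecialLinearGroup (Fin n) F).1 * x.1 * (T0 * Matrix.diagonal w) = _
      rw [← mul_assoc]
    have h7 := congrFun (congrFun h6 i) j
    rw [Matrix.mul_diagonal] at h7
    rw [Matrix.mulVec_mulVec, mul_comm]
    exact h7
  rw [h5]
  by_cases hij : i = j
  · subst hij
    rw [if_pos rfl]
    rw [Pi.single_eq_same] at h3
    rw [sub_eq_zero.1 h3]
    exact mul_inv_cancel₀ (hw _)
  · rw [if_neg hij]
    rw [Pi.single_eq_of_ne hij, sub_zero] at h3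
    rw [h3, mul_zero]

theorem psl_unitri {F : Type u} [Field F] [Finite F] {p : ℕ} [hp : Fact p.Prime]
    (hpF : p ∣ Nat.card F) (n : ℕ) (Q : Subgroup (ProjectiveSpecialLinearGroup (Fin n) F))
    (hQ : IsPGroup p Q) :
    ∃ s : ProjectiveSpecialLinearGroup (Fin n) F, ∀ x ∈ Q,
      ∃ A : SpecialLinearGroup (Fin n) F, IsUni A ∧ s * x * s⁻¹ = QuotientGroup.mk A := by
  classical
  haveI : Finite (SpecialLinearGroup (Fin n) F) :=
    Finite.of_injective (fun A : SpecialLinearGroup (Fin n) F => (A : Matrix (Fin n) (Fin n) F))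
      Subtype.coe_injective
  set π : SpecialLinearGroup (Fin n) F →* ProjectiveSpecialLinearGroup (Fin n) F :=
    QuotientGroup.mk' (Subgroup.center (SpecialLinearGroup (Fin n) F)) with hπ
  have hsurj : Function.Surjective π := QuotientGroup.mk'_surjective _
  set Q' := Q.comap π with hQ'
  let f : Q' →* Q := π.subgroupComap Q
  have hf : Function.Surjective f := by
    rintro ⟨x, hx⟩
    obtain ⟨A, rfl⟩ := hsurj x
    exact ⟨⟨A, hx⟩, rfl⟩
  obtain ⟨P⟩ : Nonempty (Sylow p Q') := inferInstance
  have hmap : (P.mapSurjective hf : Subgroup Q) = ⊤ := by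
    have h1 := (P.mapSurjective hf).is_maximal' (Q := ⊤) (hQ.of_injective
      (Subgroup.topEquiv (G := Q)).toMonoidHom (Subgroup.topEquiv (G := Q)).injective) le_top
    exact h1.symm
  have hP' : IsPGroup p ((P : Subgroup Q').map Q'.subtype) := P.isPGroup'.map _
  obtain ⟨g, hg⟩ := sl_unitri hpF n _ hP'
  refine ⟨π g, fun x hx => ?_⟩
  have h2 : (⟨x, hx⟩ : Q) ∈ (P : Subgroup Q').map f := by
    rw [← Sylow.coe_mapSurjective (hf := hf), hmap]
    exact Subgroup.mem_top _
  obtain ⟨A, hA, hAx⟩ := h2
  have h3 : π (A : SpecialLinearGroup (Fin n) F) = x := congrArg Subtype.val hAx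
  refine ⟨g * A * g⁻¹, hg _ ⟨A, hA, rfl⟩, ?_⟩
  rw [← h3]
  have h4 : π (g * A * g⁻¹) = π g * π A * (π g)⁻¹ := by rw [map_mul, map_mul, map_inv]
  exact h4.symm

end PLN.S12
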