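import Pool.Agent.PLN.Defs
import Pool.Agent.PLN.UniS12

/-!
# The unitriangular group and automorphisms
-/

set_option autoImplicit false

namespace PLN.S12

open Matrix PLN Polynomial

universe u

theorem ut_pow {n : ℕ} {F : Type u} [Field F] {p : ℕ} [hp : Fact p.Prime] [CharP F p]
    (g : GS n F) (hg : UT g) : ∃ k : ℕ, g ^ (p ^ k) = 1 := by
  classical
  rcases Nat.eq_zero_or_pos n with hn | hn
  · subst hn
    refine ⟨0, ?_⟩
    ext i
    exact i.elim0
  haveI : Nonempty (Fin n) := ⟨⟨0, hn⟩⟩
  have h1 : g.1.BlockTriangular id := by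
    intro i j hij
    exact hg.2 i j hij
  have h2 := Matrix.charpoly_of_upperTriangular g.1 h1
  have h3 : g.1.charpoly = (X - C (1 : F)) ^ n := by
    rw [h2, Finset.prod_congr rfl (fun i _ => by rw [hg.1 i])]
    simp
  have h4 : (g.1 - 1) ^ n = 0 := by
    have := Matrix.aeval_self_charpoly g.1
    rw [h3, map_pow, map_sub, aeval_X, aeval_C, map_one] at this
    exact this
  obtain ⟨k, hk⟩ : ∃ k : ℕ, n ≤ p ^ k := ⟨n, (Nat.lt_pow_self hp.out.one_lt).le⟩
  refine ⟨k, ?_⟩
  have h5 : (g.1 - 1) ^ (p ^ k) = 0 := by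
    obtain ⟨m, hm⟩ := Nat.exists_eq_add_of_le hk
    rw [hm, pow_add, h4, zero_mul]
  have h6 : (g.1 - 1) ^ (p ^ k) = g.1 ^ (p ^ k) - 1 := by
    have := sub_pow_char_pow_of_commute (p := p) (n := k) (x := g.1) (y := 1) (Commute.one_right _)
    rw [this, one_pow]
  apply Subtype.ext
  show (g ^ (p ^ k)).1 = 1
  have h7 : (g ^ (p ^ k)).1 = g.1 ^ (p ^ k) := by
    exact Matrix.SpecialLinearGroup.coe_pow g (p ^ k)
  rw [h7]
  rw [h6] at h5
  exact sub_eq_zero.1 h5

/-- the group of unitriangular matrices -/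
def UG (n : ℕ) (F : Type u) [Field F] : Subgroup (GS n F) where
  carrier := {g | UT g}
  one_mem' := by
    constructor
    · intro i
      show (1 : Matrix (Fin n) (Fin n) F) i i = 1
      exact Matrix.one_apply_eq i
    · intro i j hij
      show (1 : Matrix (Fin n) (Fin n) F) i j = 0
      exact Matrix.one_apply_ne (ne_of_gt hij)
  mul_mem' := by
    rintro a b ⟨ha1, ha2⟩ ⟨hb1, hb2⟩
    constructor
    · intro i
      show (a.1 * b.1) i i = 1
      rw [Matrix.mul_apply, Finset.sum_eq_single i]
      · rw [ha1, hb1, mul_one]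
      · intro k _ hk
        rcases lt_or_gt_of_ne hk with h | h
        · rw [ha2 i k h, zero_mul]
        · rw [hb2 k i h, mul_zero]
      · intro h
        exact absurd (Finset.mem_univ i) h
    · intro i j hij
      show (a.1 * b.1) i j = 0
      rw [Matrix.mul_apply]
      apply Finset.sum_eq_zero
      intro k _
      rcases lt_or_ge k i with h | h
      · rw [ha2 i k h, zero_mul]
      · rw [hb2 k j (lt_of_lt_of_le hij h), mul_zero]
  inv_mem' := by
    rintro a ⟨ha1, ha2⟩
    have h1 : (a⁻¹).1 * a.1 = 1 := congrArg Subtype.val (inv_mul_cancel a)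
    have hentry : ∀ i j, ((a⁻¹).1 * a.1) i j = (1 : Matrix (Fin n) (Fin n) F) i j := by
      intro i j
      rw [h1]
    -- entries below the diagonal vanish, the diagonal is one: strong induction on the column
    have key : ∀ (m : ℕ) (i j : Fin n), (j : ℕ) = m → j ≤ i →
        (a⁻¹).1 i j = if i = j then 1 else 0 := by
      intro m
      induction m using Nat.strong_induction_on with
      | _ m ih =>
        intro i j hjm hji
        have h2 := hentry i j
        rw [Matrix.mul_apply, Finset.sum_eq_single j] at h2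
        · rw [ha1, mul_one] at h2
          rw [h2, Matrix.one_apply]
        · intro k _ hk
          rcases lt_or_gt_of_ne hk with h | h
          · rw [ih k (by rw [← hjm]; exact h) i k rfl (h.le.trans hji),
              if_neg (ne_of_gt (lt_of_lt_of_le h hji)), zero_mul]
          · rw [ha2 k j h, mul_zero]
        · intro h
          exact absurd (Finset.mem_univ j) h
    constructor
    · intro i
      rw [key i i i rfl le_rfl, if_pos rfl]
    · intro i j hij
      rw [key j i j rfl hij.le, if_neg (ne_of_gt hij)]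

theorem uni_sylow {n : ℕ} (_hn : 2 ≤ n) {F : Type u} [Field F] [Finite F] (α : MulAut (PLN.PS n F)) :
    ∃ s : PLN.PS n F, ∀ g : GS n F, UT g → ∃ g' : GS n F, UT g' ∧
      s * α (QuotientGroup.mk g) * s⁻¹ = QuotientGroup.mk g' := by
  classical
  haveI := Fintype.ofFinite F
  set p := ringChar F with hp
  haveI : CharP F p := ringChar.charP F
  haveI : Fact p.Prime := ⟨CharP.char_is_prime F p⟩
  have hpF : p ∣ Nat.card F := by
    obtain ⟨k, hk, hc⟩ := FiniteField.card F p
    rw [Nat.card_eq_fintype_card, hc]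
    exact dvd_pow_self p k.ne_zero
  let π : GS n F →* PLN.PS n F := QuotientGroup.mk' (Subgroup.center (GS n F))
  let Q : Subgroup (PLN.PS n F) := (UG n F).map (α.toMonoidHom.comp π)
  have hU : IsPGroup p (UG n F) := by
    rintro ⟨g, hg⟩
    obtain ⟨k, hk⟩ := ut_pow (p := p) g hg
    exact ⟨k, Subtype.ext hk⟩
  have hQ : IsPGroup p Q := hU.map _
  obtain ⟨s, hs⟩ := psl_unitri hpF n Q hQ
  refine ⟨s, fun g hg => ?_⟩
  obtain ⟨A, hA, h⟩ := hs (α (QuotientGroup.mk g)) ⟨g, hg, rfl⟩
  refine ⟨A, ⟨fun i => ?_, fun i j hij => ?_⟩, h⟩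
  · have := hA i i le_rfl
    rw [if_pos rfl] at this
    exact this
  · have := hA i j hij.le
    rw [if_neg (ne_of_gt hij)] at this
    exact this

end PLN.S12
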