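import Pool.Agent.PLN.Defs

/-!
# PLN/TrS31: transvections (part 2): conjugation, commutators, sums
-/

set_option autoImplicit false

namespace PLN.S31

open Matrix

universe u

variable {n : ℕ} {F : Type u} [Field F]

theorem coe31 {v φ : Fin n → F} (h : φ ⬝ᵥ v = 0) : (tM v φ).1 = 1 + vecMulVec v φ := by
  unfold tM
  rw [dif_pos h]

theorem dot31 (g : GS n F) (v φ : Fin n → F) : (φ ᵥ* (g⁻¹).1) ⬝ᵥ (g.1 *ᵥ v) = φ ⬝ᵥ v := by
  have h1 : (g⁻¹).1 * g.1 = 1 := by
    have := congrArg Subtype.val (inv_mul_cancel g)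
    exact this
  rw [dotProduct_mulVec, Matrix.vecMul_vecMul, h1, Matrix.vecMul_one]

theorem t_conj (g : GS n F) {v φ : Fin n → F} (h : φ ⬝ᵥ v = 0) :
    (QuotientGroup.mk g : PS n F) * t v φ * (QuotientGroup.mk g)⁻¹ =
      t (g.1 *ᵥ v) (φ ᵥ* (g⁻¹).1) := by
  have h1 : (φ ᵥ* (g⁻¹).1) ⬝ᵥ (g.1 *ᵥ v) = 0 := by rw [dot31, h]
  have h2 : g * tM v φ * g⁻¹ = tM (g.1 *ᵥ v) (φ ᵥ* (g⁻¹).1) := by
    apply Subtype.ext
    change g.1 * (tM v φ).1 * (g⁻¹).1 = (tM (g.1 *ᵥ v) (φ ᵥ* (g⁻¹).1)).1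
    rw [coe31 h, coe31 h1]
    have h3 : g.1 * (g⁻¹).1 = 1 := by
      have := congrArg Subtype.val (mul_inv_cancel g)
      exact this
    rw [mul_add, add_mul, mul_one, h3, Matrix.mul_vecMulVec, Matrix.vecMulVec_mul]
  unfold t
  rw [← h2]
  rfl

theorem dx31 {i j : Fin n} (hij : i ≠ j) (c : F) :
    (Pi.single j 1 : Fin n → F) ⬝ᵥ (c • Pi.single i 1) = 0 := by
  rw [single_dotProduct, one_mul, Pi.smul_apply, Pi.single_eq_of_ne (Ne.symm hij), smul_zero]

theorem vx31 (i j : Fin n) (c : F) :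
    vecMulVec (c • (Pi.single i 1 : Fin n → F)) (Pi.single j 1) = Matrix.single i j c := by
  ext a b
  rw [vecMulVec_apply, Pi.smul_apply, smul_eq_mul, Matrix.single_apply]
  by_cases h1 : i = a
  · subst h1
    by_cases h2 : j = b
    · subst h2
      simp
    · rw [Pi.single_eq_of_ne (Ne.symm h2)]
      simp [h2]
  · rw [Pi.single_eq_of_ne (Ne.symm h1)]
    simp [h1]

/-- the elementary matrix -/
noncomputable def xM (i j : Fin n) (c : F) : GS n F := tM (c • Pi.single i 1) (Pi.single j 1)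

theorem xM_coe {i j : Fin n} (hij : i ≠ j) (c : F) : (xM i j c).1 = 1 + Matrix.single i j c := by
  unfold xM
  rw [coe31 (dx31 hij c), vx31]

theorem xM_add {i j : Fin n} (hij : i ≠ j) (c d : F) : xM i j (c + d) = xM i j c * xM i j d := by
  apply Subtype.ext
  change (xM i j (c + d)).1 = (xM i j c).1 * (xM i j d).1
  rw [xM_coe hij, xM_coe hij, xM_coe hij]
  simp only [mul_add, add_mul, one_mul, mul_one]
  rw [Matrix.single_mul_single_of_ne (h := Ne.symm hij), Matrix.single_add]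
  abel

theorem xM_comm {i j k : Fin n} (hij : i ≠ j) (hjk : j ≠ k) (hik : i ≠ k) (c d : F) :
    xM i j c * xM j k d = xM i k (c * d) * xM j k d * xM i j c := by
  apply Subtype.ext
  change (xM i j c).1 * (xM j k d).1 = (xM i k (c * d)).1 * (xM j k d).1 * (xM i j c).1
  rw [xM_coe hij, xM_coe hjk, xM_coe hik]
  simp only [mul_add, add_mul, one_mul, mul_one, Matrix.single_mul_single_same]
  rw [Matrix.single_mul_single_of_ne (h := Ne.symm hik), Matrix.single_mul_single_of_ne (h := Ne.symm hjk),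
    Matrix.single_mul_single_of_ne (h := Ne.symm hik)]
  simp only [zero_mul, add_zero]
  abel

theorem x_comm {i j k : Fin n} (hij : i ≠ j) (hjk : j ≠ k) (hik : i ≠ k) (c d : F) :
    x i j c * x j k d * (x i j c)⁻¹ * (x j k d)⁻¹ = x i k (c * d) := by
  have h := congrArg (QuotientGroup.mk : GS n F → PS n F) (xM_comm hij hjk hik c d)
  have h' : x i j c * x j k d = x i k (c * d) * x j k d * x i j c := h
  rw [h']
  group

theorem x_add {i j : Fin n} (hij : i ≠ j) (c d : F) : x i j (c + d) = x i j c * x i j d := by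
  have h := congrArg (QuotientGroup.mk : GS n F → PS n F) (xM_add hij c d)
  exact h

theorem x_inj (hn : 3 ≤ n) {i j : Fin n} (hij : i ≠ j) {c d : F} (e : x i j c = x i j d) :
    c = d := by
  have h1 : (xM i j c)⁻¹ * xM i j d ∈ Subgroup.center (GS n F) := QuotientGroup.eq.mp e
  have h0 : xM i j (0 : F) = 1 := by
    have := xM_add hij (0 : F) 0
    rw [add_zero] at this
    exact (left_eq_mul.mp this)
  have h2 : (xM i j c)⁻¹ = xM i j (-c) := by
    rw [inv_eq_iff_mul_eq_one, ← xM_add hij, add_neg_cancel, h0]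
  rw [h2, ← xM_add hij] at h1
  rw [Matrix.SpecialLinearGroup.mem_center_iff] at h1
  obtain ⟨r, -, hr⟩ := h1
  have h3 := congrFun (congrFun hr i) j
  rw [xM_coe hij] at h3
  simp [Matrix.scalar_apply, Matrix.diagonal_apply_ne _ hij, Matrix.one_apply_ne hij] at h3
  have h4 : -c + d = 0 := h3.symm
  have h5 : d = c := by
    rw [neg_add_eq_zero] at h4
    exact h4.symm
  exact h5.symm

end PLN.S31
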